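import Pool.Agent.StarkLoc.Stmts
import Pool.Agent.Stark.LINF
import Pool.Agent.StarkT.SREG
import Pool.Agent.StarkT.SLF
import Pool.Agent.StarkU.FAITH

/-!
# Necessity of the local conditions
-/

open NumberField IsDedekindDomain
open scoped TensorProduct Classical

namespace StarkC.LOC

namespace NEC

/-! ### Exponents -/

/-- splitting off the prime factors of `m` -/
theorem split (m : ℕ) : ∀ n : ℕ, 0 < n → ∃ s t : ℕ, n = s * t ∧ t.Coprime m ∧
    ∀ c : ℕ, c.Coprime m → s.Coprime c := by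
  intro n
  induction n using Nat.strong_induction_on with
  | _ n ih =>
    intro hn
    by_cases h : n.Coprime m
    · exact ⟨1, n, (one_mul n).symm, h, fun c _ => Nat.coprime_one_left c⟩
    · have hd0 : 0 < Nat.gcd n m := Nat.gcd_pos_of_pos_left m hn
      have hd : 1 < Nat.gcd n m := by
        unfold Nat.Coprime at h
        omega
      obtain ⟨n', hn'⟩ := Nat.gcd_dvd_left n m
      have hn'0 : 0 < n' := by
        rcases Nat.eq_zero_or_pos n' with h0 | h0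
        · rw [h0, mul_zero] at hn'
          omega
        · exact h0
      have hlt : n' < n := by
        have h1 : 1 * n' < Nat.gcd n m * n' := Nat.mul_lt_mul_of_pos_right hd hn'0
        rw [one_mul, ← hn'] at h1
        exact h1
      obtain ⟨s, t, h1, h2, h3⟩ := ih n' hlt hn'0
      refine ⟨Nat.gcd n m * s, t, ?_, h2, ?_⟩
      · rw [mul_assoc, ← h1]
        exact hn'
      · intro c hc
        refine Nat.Coprime.mul_left ?_ (h3 c hc)
        exact Nat.Coprime.coprime_dvd_left (Nat.gcd_dvd_right n m) hc.symm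

/-- lifting a unit -/
theorem lift_unit (c A M : ℕ) (hM : 0 < M) (hA : A ∣ M) (hc : c.Coprime A) :
    ∃ b : ℕ, 0 < b ∧ b.Coprime M ∧ b ≡ c [MOD A] := by
  have hM' : NeZero M := ⟨hM.ne'⟩
  obtain ⟨u, hu⟩ := ZMod.unitsMap_surjective hA (ZMod.unitOfCoprime c hc)
  refine ⟨(u : ZMod M).val + M, by omega, ?_, ?_⟩
  · rw [Nat.coprime_add_self_left]
    exact ZMod.val_coe_unit_coprime u
  · have h1 := congrArg Units.val hu
    rw [ZMod.unitsMap_val, ZMod.coe_unitOfCoprime] at h1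
    rw [← ZMod.natCast_eq_natCast_iff]
    have h2 : ((M : ℕ) : ZMod A) = 0 := (ZMod.natCast_eq_zero_iff M A).2 hA
    rw [Nat.cast_add, h2, add_zero, ← h1, ZMod.natCast_val]

/-- a power of `X` has an order with the right prime factors -/
theorem exps (ox oX : ℕ) (hoX : 0 < oX) (hd : ox ∣ oX) :
    ∃ s e : ℕ, 0 < s ∧ ox ∣ s ∧ (∀ c : ℕ, c.Coprime ox → s.Coprime c) ∧ e ≡ 1 [MOD s] ∧
      oX ∣ e * s := by
  obtain ⟨s, t, h1, h2, h3⟩ := split ox oX hoX
  have hst : s.Coprime t := h3 t h2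
  obtain ⟨e, he1, he2⟩ := Nat.chineseRemainder hst 1 0
  have ht : t ∣ e := (Nat.modEq_zero_iff_dvd).1 he2
  refine ⟨s, e, ?_, ?_, h3, he1, ?_⟩
  · rcases Nat.eq_zero_or_pos s with h0 | h0
    · rw [h0, zero_mul] at h1
      omega
    · exact h0
  · rw [h1] at hd
    exact Nat.Coprime.dvd_of_dvd_mul_right h2.symm hd
  · rw [h1, mul_comm s t]
    exact Nat.mul_dvd_mul ht (dvd_refl s)

theorem exists_b (A oy oZ u : ℕ) (hA : 0 < A) (hoy : 0 < oy) (hoZ : 0 < oZ) (hc : A.Coprime oy)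
    (hu : u.Coprime oy) :
    ∃ b : ℕ, 0 < b ∧ b.Coprime oZ ∧ b ≡ 1 [MOD A] ∧ b ≡ u [MOD oy] := by
  obtain ⟨c, h1, h2⟩ := Nat.chineseRemainder hc 1 u
  have hcA : c.Coprime A := by
    have h3 : Nat.gcd c A = Nat.gcd 1 A := Nat.ModEq.gcd_eq h1
    rw [Nat.gcd_one_left] at h3
    exact h3
  have hcy : c.Coprime oy := by
    have h3 : Nat.gcd c oy = Nat.gcd u oy := Nat.ModEq.gcd_eq h2
    exact h3.trans hu
  obtain ⟨b, hb0, hb1, hb2⟩ := lift_unit c (A * oy) (A * oy * oZ)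
    (Nat.mul_pos (Nat.mul_pos hA hoy) hoZ) (dvd_mul_right _ _) (Nat.Coprime.mul_right hcA hcy)
  refine ⟨b, hb0, ?_, ?_, ?_⟩
  · exact Nat.Coprime.coprime_dvd_right (dvd_mul_left oZ (A * oy)) hb1
  · exact (hb2.of_dvd (dvd_mul_right A oy)).trans h1
  · exact (hb2.of_dvd (dvd_mul_left oy A)).trans h2

/-! ### Group theory -/

section grp

variable {G : Type} [Group G] [Fintype G]

omit [Fintype G] in
theorem cj_pow (x a : G) (n : ℕ) : x⁻¹ * a ^ n * x = (x⁻¹ * a * x) ^ n := by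
  have h1 := conj_pow (i := n) (a := x⁻¹) (b := a)
  rw [inv_inv] at h1
  exact h1.symm

theorem ind_eq (H : Subgroup G) (ψ : H →* ℂˣ) (Z : G) (b : ℕ) (hb : b.Coprime (orderOf Z))
    (hψ : ∀ (x : G) (h : x⁻¹ * Z * x ∈ H) (h' : x⁻¹ * Z ^ b * x ∈ H), ψ ⟨_, h'⟩ = ψ ⟨_, h⟩) :
    indFun H (extZ ψ) (Z ^ b) = indFun H (extZ ψ) Z := by
  unfold indFun
  congr 1
  refine Finset.sum_congr rfl fun x _ => ?_
  by_cases h : x⁻¹ * Z * x ∈ H
  · have h' : x⁻¹ * Z ^ b * x ∈ H := by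
      rw [cj_pow]
      exact H.pow_mem h b
    rw [if_pos h, if_pos h', extZ, extZ, dif_pos h, dif_pos h', hψ x h h']
  · have h' : x⁻¹ * Z ^ b * x ∉ H := by
      intro h'
      obtain ⟨m, hm⟩ := exists_pow_eq_self_of_coprime hb
      apply h
      have h1 : x⁻¹ * Z * x = (x⁻¹ * Z ^ b * x) ^ m := by
        rw [← cj_pow, hm]
      rw [h1]
      exact H.pow_mem h' m
    rw [if_neg h, if_neg h']

end grp

/-! ### Arithmetic -/

section arith

variable {K N : Type} [Field K] [NumberField K] [Field N] [NumberField N] [Algebra K N]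

omit [NumberField K] in
theorem dec_cj (W : HeightOneSpectrum (𝓞 N)) (x y : N ≃ₐ[K] N) (h : Dec W x) :
    Dec (STB.mv ((y⁻¹ : N ≃ₐ[K] N) : N ≃+* N) W) (y⁻¹ * x * y : N ≃ₐ[K] N) := by
  have h1 := RB.dec_conj h y⁻¹
  rwa [inv_inv] at h1

omit [NumberField K] in
theorem frob_cj (W : HeightOneSpectrum (𝓞 N)) (x y : N ≃ₐ[K] N) (h : FrobPow N W 1 x) :
    FrobPow N (STB.mv ((y⁻¹ : N ≃ₐ[K] N) : N ≃+* N) W) 1 (y⁻¹ * x * y : N ≃ₐ[K] N) := by
  intro u v huv
  rw [STB.mem_mv, map_sub, map_pow]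
  refine h _ _ ?_
  rw [STB.oMap_symm_coe, STB.oMap_symm_coe, huv]
  show (y⁻¹).symm ((y⁻¹ * x * y) (u : N)) = x ((y⁻¹).symm (u : N))
  show y (y⁻¹ (x (y (u : N)))) = x (y (u : N))
  exact y.apply_symm_apply _

omit [NumberField K] in
theorem aboveT_mv (T : Finset ℕ) (g : N ≃ₐ[K] N) (W : HeightOneSpectrum (𝓞 N))
    (h : AboveT T W) : AboveT T (STB.mv (g : N ≃+* N) W) := by
  obtain ⟨p, hp, h2, h3⟩ := h
  refine ⟨p, hp, h2, ?_⟩
  rw [STB.mem_mv, map_natCast]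
  exact h3

omit [NumberField K] in
theorem dec_of_frobPow {W : HeightOneSpectrum (𝓞 N)} {q : ℕ} (hq : q ≠ 0) {g : N ≃ₐ[K] N}
    (h : FrobPow N W q g) : Dec W g := by
  intro x y hy hx
  have h1 := W.asIdeal.add_mem (h x y hy) (W.asIdeal.pow_mem_of_mem hx q (Nat.pos_of_ne_zero hq))
  rwa [sub_add_cancel] at h1

omit [NumberField K] [NumberField N] in
theorem frob_one_of {W : HeightOneSpectrum (𝓞 N)} {q : ℕ} {g : N ≃ₐ[K] N}
    (h : FrobPow N W q g) (h1 : FrobPow N W q (1 : N ≃ₐ[K] N)) : FrobPow N W 1 g := by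
  intro x y hy
  have h2 := W.asIdeal.sub_mem (h x y hy) (h1 x x rfl)
  rw [sub_sub_sub_cancel_right] at h2
  rwa [pow_one]

/-- invariance under powers -/
theorem span_inv (T : Finset ℕ) {f : (N ≃ₐ[K] N) → ℂ}
    (hf : f ∈ SpanQ (G := N ≃ₐ[K] N) (fun H ψ => TypeAK T H ψ ∨ ψ = 1))
    (W : HeightOneSpectrum (𝓞 N)) (Z : N ≃ₐ[K] N) (b : ℕ) (hZ : Dec W Z)
    (hb : b.Coprime (orderOf Z))
    (hc : FrobPow N W 1 (Z ^ b * Z⁻¹ : N ≃ₐ[K] N) ∨ AboveT T W) : f (Z ^ b) = f Z := by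
  unfold SpanQ at hf
  induction hf using Submodule.span_induction with
  | mem f h =>
    obtain ⟨H, ψ, hP, rfl⟩ := h
    refine ind_eq H ψ Z b hb fun x h h' => ?_
    rcases hP with ⟨-, hI, hD⟩ | rfl
    · rcases hc with hc | hc
      · have e1 : x⁻¹ * Z ^ b * x = (x⁻¹ * (Z ^ b * Z⁻¹) * x) * (x⁻¹ * Z * x) := by group
        have hk : x⁻¹ * (Z ^ b * Z⁻¹) * x ∈ H := by
          have e2 : x⁻¹ * (Z ^ b * Z⁻¹) * x = (x⁻¹ * Z ^ b * x) * (x⁻¹ * Z * x)⁻¹ := by group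
          rw [e2]
          exact H.mul_mem h' (H.inv_mem h)
        have e3 : (⟨x⁻¹ * Z ^ b * x, h'⟩ : H) = ⟨_, hk⟩ * ⟨_, h⟩ := Subtype.ext e1
        have e4 : ψ ⟨_, hk⟩ = 1 := hI _ ⟨_, hk⟩ (frob_cj W _ x hc)
        rw [e3, map_mul, e4, one_mul]
      · have e1 : ψ ⟨_, h⟩ = 1 := hD _ ⟨_, h⟩ (aboveT_mv T x⁻¹ W hc) (dec_cj W _ x hZ)
        have e2 : ψ ⟨_, h'⟩ = 1 := hD _ ⟨_, h'⟩ (aboveT_mv T x⁻¹ W hc)
          (dec_cj W _ x (RB.dec_pow hZ b))
        rw [e1, e2]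
    · rfl
  | zero => rfl
  | add f f' _ _ h h' => rw [Pi.add_apply, Pi.add_apply, h, h']
  | smul r f _ h => rw [Pi.smul_apply, Pi.smul_apply, h]

/-- the values -/
theorem span_val (n : ℕ) {P : ∀ H : Subgroup (N ≃ₐ[K] N), (H →* ℂˣ) → Prop}
    (hP : ∀ (H : Subgroup (N ≃ₐ[K] N)) (ψ : H →* ℂˣ), P H ψ → ψ ^ n = 1 ∨ ψ = 1)
    {f : (N ≃ₐ[K] N) → ℂ} (hf : f ∈ SpanQ (G := N ≃ₐ[K] N) P) (g : N ≃ₐ[K] N) :
    f g ∈ Cyc n := by
  unfold SpanQ at hf
  induction hf using Submodule.span_induction with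
  | mem f h =>
    obtain ⟨H, ψ, hP', rfl⟩ := h
    refine UVAL.values_of_pow n H ψ (fun h => ?_) g
    rcases hP H ψ hP' with h1 | rfl
    · refine IntermediateField.subset_adjoin ℚ _ ?_
      have h2 := DFunLike.congr_fun h1 h
      have h3 := congrArg Units.val h2
      simpa using h3
    · simp only [MonoidHom.one_apply, Units.val_one]
      exact (Cyc n).one_mem
  | zero => exact (Cyc n).zero_mem
  | add f f' _ _ h h' => exact (Cyc n).add_mem h h'
  | smul r f _ h =>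
    rw [Pi.smul_apply]
    exact (Cyc n).smul_mem h

/-- vanishing at complex conjugations -/
theorem span_van (T : Finset ℕ) {P : ∀ H : Subgroup (N ≃ₐ[K] N), (H →* ℂˣ) → Prop}
    (hP : ∀ (H : Subgroup (N ≃ₐ[K] N)) (ψ : H →* ℂˣ), P H ψ → TypeAK T H ψ)
    {f : (N ≃ₐ[K] N) → ℂ} (hf : f ∈ SpanQ (G := N ≃ₐ[K] N) P) (c : N ≃ₐ[K] N) (hc : IsCC c) :
    f c = 0 := by
  unfold SpanQ at hf
  induction hf using Submodule.span_induction with
  | mem f h =>
    obtain ⟨H, ψ, hP', rfl⟩ := h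
    unfold indFun
    rw [Finset.sum_eq_zero, zero_div]
    intro x _
    rw [if_neg]
    intro hx
    obtain ⟨Φ, hΦ⟩ := hc
    exact (hP H ψ hP').1 _ hx ⟨_, hΦ.comp x⟩
  | zero => rfl
  | add f f' _ _ h h' => rw [Pi.add_apply, h, h', add_zero]
  | smul r f _ h => rw [Pi.smul_apply, h, smul_zero]

end arith

section tower

variable {K L N : Type} [Field K] [NumberField K] [Field L] [NumberField L] [Field N]
  [NumberField N] [Algebra K L] [Algebra K N] [Algebra L N] [IsScalarTower K L N]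
  [IsGalois K L] [IsGalois K N]

/-- lifting of elements of the decomposition group -/
theorem lift_dec (W : HeightOneSpectrum (𝓞 N)) (x : L ≃ₐ[K] L) (hx : Dec (W.under (𝓞 L)) x) :
    ∃ (m : ℕ) (X : N ≃ₐ[K] N), AlgEquiv.restrictNormalHom L X = x ∧
      FrobPow N W (Ideal.absNorm (W.under (𝓞 K)).asIdeal ^ m) X := by
  have h1 := (RB.dec_iff _ _).1 hx
  obtain ⟨m, hm⟩ := SREG.frob_of_mv h1
  rw [RB.under_under (L := K) (L₁ := L) W] at hm
  obtain ⟨X, hX, hF⟩ := LINF.lift_frobPow (K := K) W m x hm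
  exact ⟨m, X, hX, hF⟩

omit [NumberField N] [IsGalois K N] in
theorem absNorm_pow_ne (W : HeightOneSpectrum (𝓞 N)) (m : ℕ) :
    Ideal.absNorm (W.under (𝓞 K)).asIdeal ^ m ≠ 0 := by
  apply pow_ne_zero
  rw [ne_eq, Ideal.absNorm_eq_zero_iff]
  exact (W.under (𝓞 K)).ne_bot

theorem locC (T : Finset ℕ) (n : ℕ) (χ : (L ≃ₐ[K] L) → ℂ)
    (hf : (fun g : N ≃ₐ[K] N => χ (AlgEquiv.restrictNormalHom L g)) ∈
      SpanQ (G := N ≃ₐ[K] N) (fun H ψ => (TypeAK T H ψ ∧ ψ ^ n = 1) ∨ ψ = 1)) :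
    LocC T n χ := by
  have hf' : (fun g : N ≃ₐ[K] N => χ (AlgEquiv.restrictNormalHom L g)) ∈
      SpanQ (G := N ≃ₐ[K] N) (fun H ψ => TypeAK T H ψ ∨ ψ = 1) := by
    exact UALG.spanQ_mono (fun H ψ h => h.imp (fun h => h.1) id) hf
  refine ⟨?_, ?_, ?_⟩
  · intro g
    obtain ⟨g', rfl⟩ := AlgEquiv.restrictNormalHom_surjective (F := K) (K₁ := L) N g
    exact span_val n (fun H ψ h => h.imp (fun h => h.2) id) hf g'
  · intro w x y hx hy hcomm hcop u hu
    obtain ⟨W, rfl⟩ := FAITH.exists_above (N := N) w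
    obtain ⟨m, X', hX', hFX'⟩ := lift_dec W x hx
    obtain ⟨Y, hY, hFY⟩ := LINF.lift_frobPow (K := K) W 0 y (by rwa [pow_zero])
    rw [pow_zero] at hFY
    have hdv : orderOf x ∣ orderOf X' := by
      rw [← hX']
      exact orderOf_map_dvd (AlgEquiv.restrictNormalHom L) X'
    obtain ⟨s, e, hs, hxs, hsc, he1, he2⟩ := exps (orderOf x) (orderOf X') (orderOf_pos X') hdv
    have hXs : (X' ^ e) ^ s = 1 := by
      rw [← pow_mul]
      exact orderOf_dvd_iff_pow_eq_one.1 he2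
    have hFX := SLF.frobPow_pow hFX' e
    set Q : ℕ := (Ideal.absNorm (W.under (𝓞 K)).asIdeal ^ m) ^ e with hQ
    have hQ0 : Q ≠ 0 := pow_ne_zero _ (absNorm_pow_ne W m)
    have hresX : AlgEquiv.restrictNormalHom L (X' ^ e) = x := by
      rw [map_pow, hX']
      have h1 : e ≡ 1 [MOD orderOf x] := he1.of_dvd hxs
      have h2 := (pow_eq_pow_iff_modEq (x := x)).2 h1
      rwa [pow_one] at h2
    set X := X' ^ e with hXd
    have hFZ : FrobPow N W (1 * Q) (X * Y : N ≃ₐ[K] N) := SLF.frobPow_mul hFX hFY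
    rw [one_mul] at hFZ
    have hDZ : Dec W (X * Y : N ≃ₐ[K] N) := dec_of_frobPow hQ0 hFZ
    have hFZs : FrobPow N W 1 ((X * Y) ^ s : N ≃ₐ[K] N) := by
      refine frob_one_of (SLF.frobPow_pow hFZ s) ?_
      have h1 := SLF.frobPow_pow hFX s
      rwa [hXs] at h1
    have hcop' : s.Coprime (orderOf y) := hsc _ hcop.symm
    obtain ⟨b, hb0, hbZ, hb1, hbu⟩ := exists_b s (orderOf y) (orderOf (X * Y)) u hs
      (orderOf_pos y) (orderOf_pos _) hcop' hu
    have hbs : s ∣ b - 1 := (Nat.modEq_iff_dvd' hb0).1 hb1.symm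
    obtain ⟨t, ht⟩ := hbs
    have hin : FrobPow N W 1 ((X * Y) ^ b * (X * Y)⁻¹ : N ≃ₐ[K] N) := by
      have h1 : (X * Y) ^ b * (X * Y)⁻¹ = ((X * Y) ^ s) ^ t := by
        have h2 : b = (b - 1) + 1 := by omega
        rw [h2, pow_succ, mul_inv_cancel_right, ht, pow_mul]
      rw [h1]
      have h3 := SLF.frobPow_pow hFZs t
      rwa [one_pow] at h3
    have key := span_inv T hf' W (X * Y) b hDZ hbZ (Or.inl hin)
    beta_reduce at key
    have hres : AlgEquiv.restrictNormalHom L (X * Y) = x * y := by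
      rw [map_mul, hresX, hY]
    rw [map_pow, hres] at key
    have hxb : x ^ b = x := by
      have h1 : b ≡ 1 [MOD orderOf x] := hb1.of_dvd hxs
      have h2 := (pow_eq_pow_iff_modEq (x := x)).2 h1
      rwa [pow_one] at h2
    have hyb : y ^ b = y ^ u := (pow_eq_pow_iff_modEq (x := y)).2 hbu
    have hxy : (x * y) ^ b = x * y ^ u := by
      rw [(show Commute x y from hcomm).mul_pow, hxb, hyb]
    rw [hxy] at key
    exact key
  · intro w x a hT hx ha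
    obtain ⟨W, rfl⟩ := FAITH.exists_above (N := N) w
    have hTW : AboveT T W := (UALG.aboveT_under T W).1 hT
    obtain ⟨m, X, hX, hFX⟩ := lift_dec W x hx
    have hdv : orderOf x ∣ orderOf X := by
      rw [← hX]
      exact orderOf_map_dvd (AlgEquiv.restrictNormalHom L) X
    obtain ⟨b, hb0, hb1, hb2⟩ := lift_unit a (orderOf x) (orderOf X) (orderOf_pos X) hdv ha
    have key := span_inv T hf' W X b (dec_of_frobPow (absNorm_pow_ne W m) hFX) hb1 (Or.inr hTW)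
    beta_reduce at key
    rw [map_pow, hX, (pow_eq_pow_iff_modEq (x := x)).2 hb2] at key
    exact key

theorem van (T : Finset ℕ) (n : ℕ) (χ : (L ≃ₐ[K] L) → ℂ)
    (hf : (fun g : N ≃ₐ[K] N => χ (AlgEquiv.restrictNormalHom L g)) ∈
      SpanQ (G := N ≃ₐ[K] N) (fun H ψ => TypeAK T H ψ ∧ ψ ^ n = 1)) : Van χ := by
  rintro c ⟨Φ', hc'⟩
  let Φ : N →+* ℂ := ComplexEmbedding.lift N Φ'
  have hΦ : Φ.comp (algebraMap L N) = Φ' := ComplexEmbedding.lift_comp_algebraMap N Φ'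
  have hreal : (ComplexEmbedding.conjugate Φ).comp (algebraMap K N) =
      Φ.comp (algebraMap K N) := by
    refine RingHom.ext fun a => ?_
    have h1 : ∀ a : K, Φ (algebraMap K N a) = Φ' (algebraMap K L a) := by
      intro a
      rw [← hΦ, RingHom.comp_apply, ← IsScalarTower.algebraMap_apply K L N]
    show star (Φ (algebraMap K N a)) = Φ (algebraMap K N a)
    rw [h1]
    have h2 := hc'.eq (algebraMap K L a)
    rw [c.commutes] at h2
    exact h2.symm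
  obtain ⟨ν, hν⟩ := NumberField.ComplexEmbedding.exists_comp_symm_eq_of_comp_eq (k := K) Φ
    (ComplexEmbedding.conjugate Φ) hreal.symm
  have hc : ComplexEmbedding.IsConj Φ ν.symm := hν.symm
  have h3 := CMB.isConj_restrict (L := L) hc
  rw [hΦ] at h3
  have h4 : c = AlgEquiv.restrictNormalHom L ν.symm := hc'.ext h3
  rw [h4]
  exact span_van T (fun H ψ h => h.1) hf ν.symm ⟨Φ, hc⟩

end tower

end NEC

open NEC in
theorem NEC_thm : Stmt_LNEC := by
  intro K L N _ _ _ _ _ _ _ _ _ _ _ _ T n _ χ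
  refine ⟨fun hf => locC (N := N) T n χ hf, fun hf =>
    ⟨locC (N := N) T n χ ?_, van (N := N) T n χ hf⟩⟩
  exact UALG.spanQ_mono (fun H ψ h => Or.inl h) hf

end StarkC.LOC
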