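import Pool.Agent.StarkLoc.SUF

/-!
# Sufficiency of the local conditions (i)-(iii)
-/

open NumberField IsDedekindDomain
open scoped TensorProduct Classical

namespace StarkC.LOC

namespace SUFB

theorem sq_of_pow {G : Type} [Group G] {z : G} {a : ℕ} (ha : a.Coprime (orderOf z))
    (h : z ^ a * z ^ a = 1) : z * z = 1 := by
  rw [← pow_add, ← two_mul] at h
  have h1 : orderOf z ∣ 2 * a := orderOf_dvd_of_pow_eq_one h
  have h2 : orderOf z ∣ 2 := ha.symm.dvd_of_dvd_mul_right h1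
  have h3 := orderOf_dvd_iff_pow_eq_one.1 h2
  rwa [pow_two] at h3

theorem pow_eq {G : Type} [Group G] [Finite G] {z : G} {a : ℕ} (ha : a.Coprime (orderOf z))
    (h : z * z = 1) : z ^ a = z := by
  have h2 : orderOf z ∣ 2 := orderOf_dvd_of_pow_eq_one (by rw [pow_two, h])
  rcases (Nat.dvd_prime Nat.prime_two).1 h2 with h3 | h3
  · rw [orderOf_eq_one_iff] at h3
    rw [h3, one_pow]
  · rw [h3] at ha
    obtain ⟨k, hk⟩ : Odd a := Nat.coprime_two_right.1 ha
    rw [hk, pow_succ, pow_mul, pow_two, h, one_pow, one_mul]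

/-- The part at the complex conjugations is invariant. -/
theorem cc_part {G : Type} [Group G] [Finite G] (P : G → Prop) (χ : G → ℂ)
    (hP : ∀ c, P c → c * c = 1) (z : G) (a : ℕ) (ha : a.Coprime (orderOf z)) :
    (if P (z ^ a) then χ (z ^ a) else 0) = if P z then χ z else 0 := by
  by_cases h : z * z = 1
  · rw [pow_eq ha h]
  · have h1 : ¬ P z := fun h2 => h (hP z h2)
    have h2 : ¬ P (z ^ a) := fun h2 => h (sq_of_pow ha (hP _ h2))
    rw [if_neg h1, if_neg h2]

theorem exists_exp {G : Type} [Group G] [Finite G] {x y : G} (hxy : x * y = y * x)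
    (hco : (orderOf x).Coprime (orderOf y)) {u : ℕ} (hu : u.Coprime (orderOf y)) :
    ∃ a : ℕ, a.Coprime (orderOf (x * y)) ∧ (x * y) ^ a = x * y ^ u := by
  obtain ⟨a, h1, h2⟩ := Nat.chineseRemainder hco 1 u
  refine ⟨a, ?_, ?_⟩
  · rw [(show Commute x y from hxy).orderOf_mul_eq_mul_orderOf_of_coprime hco]
    refine Nat.Coprime.mul_right ?_ ?_
    · have h3 : Nat.gcd a (orderOf x) = Nat.gcd 1 (orderOf x) := Nat.ModEq.gcd_eq h1
      rw [Nat.gcd_one_left] at h3
      exact h3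
    · have h3 : Nat.gcd a (orderOf y) = Nat.gcd u (orderOf y) := Nat.ModEq.gcd_eq h2
      exact h3.trans hu
  · rw [(show Commute x y from hxy).mul_pow]
    rw [(pow_eq_pow_iff_modEq (x := x) (n := a) (m := 1)).2 h1, pow_one,
      (pow_eq_pow_iff_modEq (x := y) (n := a) (m := u)).2 h2]

end SUFB

theorem SUFB_thm (hART : Stmt_UART) (hINF : Stmt_UINFL) (hSUFA : Stmt_LSUFA)
    (hRAT : Stmt_LRAT) : Stmt_LSUFB := by
  intro K L _ _ _ _ _ _ T n hn χ hχ hloc E _ _
  set r : (L ≃ₐ[K] L) → ℂ := fun g => if IsCC g then χ g else 0 with hr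
  have hccsq : ∀ c : L ≃ₐ[K] L, IsCC c → c * c = 1 := fun c hc => CMB.isCC_sq hc
  have hrm : r ∈ SpanQ (G := L ≃ₐ[K] L) (fun H ψ => IsCyclic H ∧ ψ = 1) := by
    refine hRAT (L ≃ₐ[K] L) (fun g => IsCC g) χ hχ hccsq ?_
    rintro x c ⟨Φ, hΦ⟩
    exact ⟨_, ComplexEmbedding.IsConj.comp hΦ x⟩
  have hrinv : ∀ (z : L ≃ₐ[K] L) (a : ℕ), a.Coprime (orderOf z) → r (z ^ a) = r z :=
    fun z a ha => SUFB.cc_part (fun g => IsCC g) χ hccsq z a ha
  obtain ⟨N, _, _, _, _, _, _, _, hE, hN⟩ := hSUFA K L T n hn (fun g => χ g - r g)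
    (Submodule.sub_mem _ hχ (UALG.spanQ_mono (fun _ _ _ => trivial) hrm))
    { val := by
        intro g
        refine (Cyc n).sub_mem (hloc.val g) ?_
        show (if IsCC g then χ g else 0) ∈ Cyc n
        split_ifs
        · exact hloc.val g
        · exact (Cyc n).zero_mem
      ine := by
        intro w x y hx hy hxy hco u hu
        obtain ⟨a, ha, h1⟩ := SUFB.exists_exp hxy hco hu
        show χ (x * y ^ u) - r (x * y ^ u) = χ (x * y) - r (x * y)
        rw [hloc.ine w x y hx hy hxy hco u hu, ← h1, hrinv _ a ha]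
      dec := by
        intro w x a hT hx ha
        show χ (x ^ a) - r (x ^ a) = χ x - r x
        rw [hloc.dec w x a hT hx ha, hrinv _ a ha] }
    (by
      intro c hc
      show χ c - (if IsCC c then χ c else 0) = 0
      rw [if_pos hc, sub_self]) E
  refine ⟨N, inferInstance, inferInstance, inferInstance, inferInstance, inferInstance,
    inferInstance, inferInstance, hE, ?_⟩
  have hR : (fun g : N ≃ₐ[K] N => r (AlgEquiv.restrictNormalHom L g)) ∈
      SpanQ (G := N ≃ₐ[K] N) (fun H ψ => IsCyclic H ∧ ((TypeAK T H ψ ∧ ψ ^ n = 1) ∨ ψ = 1)) := by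
    refine UNTH.spanQ_le ?_ (hINF (N ≃ₐ[K] N) (L ≃ₐ[K] L) (AlgEquiv.restrictNormalHom L) r _
        (AlgEquiv.restrictNormalHom_surjective N) hrm)
    rintro H' ψ' ⟨H, ψ, ⟨-, rfl⟩, rfl, hψ⟩
    have h1 : ψ' = 1 := by
      refine MonoidHom.ext fun h => ?_
      have h2 := hψ h ⟨AlgEquiv.restrictNormalHom L (h : N ≃ₐ[K] N), h.2⟩ rfl
      rw [h2]
      rfl
    rw [h1, UALG.indFun_extZ_one]
    exact UALGC.perm_span hART _ _ fun C _ hC => ⟨hC, Or.inr rfl⟩
  have hsum : (fun g : N ≃ₐ[K] N => χ (AlgEquiv.restrictNormalHom L g)) =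
      (fun g : N ≃ₐ[K] N => χ (AlgEquiv.restrictNormalHom L g) -
        r (AlgEquiv.restrictNormalHom L g)) +
      (fun g : N ≃ₐ[K] N => r (AlgEquiv.restrictNormalHom L g)) := by
    funext g
    rw [Pi.add_apply, sub_add_cancel]
  rw [hsum]
  exact Submodule.add_mem _ (UALG.spanQ_mono (fun _ _ h => ⟨h.1, Or.inl h.2⟩) hN) hR

end StarkC.LOC
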