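import Pool.Agent.StarkLoc.STK
import Pool.Agent.StarkLoc.NEC
import Pool.Agent.StarkLoc.SUFB
import Pool.Agent.StarkT.ALLX
import Pool.Agent.StarkT.TMAIN

/-!
# The assertion for the trivial characters follows from the class (A)
-/

open NumberField IsDedekindDomain
open scoped TensorProduct Classical

namespace StarkC.LOC

namespace TRIVA

/-- the trivial character over a field of degree one -/
theorem ofQ (σ : ℂ ≃+* ℂ) (F N : Type) [Field F] [NumberField F] [Field N] [NumberField N]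
    [Algebra F N] [IsGalois F N] (hF : Module.finrank ℚ F = 1)
    (ψ : (N ≃ₐ[F] N) →* ℂˣ) (hψ : ψ = 1)
    (S : Finset (HeightOneSpectrum (𝓞 F))) (T' : Set (HeightOneSpectrum (𝓞 N)))
    (hT : aboveSet F N (S : Set (HeightOneSpectrum (𝓞 F))) = T')
    (φ : XQ N T' ≃ₗ[ℚ] QU N T') (Θ : XC N T' →ₗ[ℂ] XC N T') (hφ : IsPhiTheta F T' φ Θ) :
    ∃ M : ℕ, 0 < M ∧ StarkMulAt M (S : Set (HeightOneSpectrum (𝓞 F))) T' Θ
      (linRep ψ) (linRep (twist σ ψ)) σ := by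
  subst hψ
  exact ⟨1, one_pos, TRIVX.relLin_cast (TMAIN.relS σ) 1 σ 1
    (ALLX.qcs (TMAIN.relS σ) (TMAIN.isRel_relS σ) σ 1 F N hF) S T' hT φ Θ hφ⟩

theorem finrank_top {K N : Type} [Field K] [NumberField K] [Field N] [NumberField N] [Algebra K N]
    [IsGalois K N] (hK : Module.finrank ℚ K = 1) (H : Subgroup (N ≃ₐ[K] N)) (hH : H = ⊤) :
    Module.finrank ℚ (IntermediateField.fixedField H) = 1 := by
  subst hH
  rw [← Module.finrank_mul_finrank ℚ K (IntermediateField.fixedField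
    (⊤ : Subgroup (N ≃ₐ[K] N))), hK, one_mul, IsGalois.fixedField_top,
    IntermediateField.finrank_bot]

/-- LocC for permutation characters -/
theorem locC_perm {K L : Type} [Field K] [NumberField K] [Field L] [NumberField L] [Algebra K L]
    (T : Finset ℕ) (n : ℕ) (H : Subgroup (L ≃ₐ[K] L)) (ψ : H →* ℂˣ) (hψ : ψ = 1) :
    LocC T n (indFun H (extZ ψ)) := by
  subst hψ
  have hinv : ∀ (z : L ≃ₐ[K] L) (a : ℕ), a.Coprime (orderOf z) →
      indFun H (extZ (1 : H →* ℂˣ)) (z ^ a) = indFun H (extZ (1 : H →* ℂˣ)) z :=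
    fun z a ha => NEC.ind_eq H 1 z a ha fun _ _ _ => rfl
  refine ⟨?_, ?_, ?_⟩
  · exact UVAL.values_of_pow n H 1 fun h => by
      simp only [MonoidHom.one_apply, Units.val_one]
      exact (Cyc n).one_mem
  · intro w x y _ _ hxy hco u hu
    obtain ⟨a, ha, h1⟩ := SUFB.exists_exp hxy hco hu
    rw [← h1, hinv _ a ha]
  · intro w x a _ _ ha
    exact hinv x a ha

/-- Over `ℚ`: all characters with the conditions (i)-(iii). -/
theorem starkQ (hS : Stmt_LSUFA) (E : Type) [Field E] [NumberField E] (T : Finset ℕ) (n : ℕ)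
    (σ : ℂ ≃+* ℂ) (hn : 0 < n)
    (hA : ∀ (K L : Type) [Field K] [NumberField K] [Field L] [NumberField L] [Algebra K L]
      [IsGalois K L], ClassAn E T n σ K L)
    (L : Type) [Field L] [NumberField L] [IsGalois ℚ L]
    (S : Finset (HeightOneSpectrum (𝓞 ℚ)))
    (φ : XQ L (aboveSet ℚ L S) ≃ₗ[ℚ] QU L (aboveSet ℚ L S))
    (Θ : XC L (aboveSet ℚ L S) →ₗ[ℂ] XC L (aboveSet ℚ L S))
    (V V' : Type) [AddCommGroup V] [Module ℂ V] [Module.Finite ℂ V]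
    [AddCommGroup V'] [Module ℂ V'] [Module.Finite ℂ V']
    (ρ : Representation ℂ (L ≃ₐ[ℚ] L) V) (ρ' : Representation ℂ (L ≃ₐ[ℚ] L) V')
    (hφ : IsPhiTheta ℚ (aboveSet ℚ L S) φ Θ) (hσ : ∀ g, ρ'.character g = σ (ρ.character g))
    (hloc : LocC T n ρ.character) :
    ∃ M : ℕ, 0 < M ∧
      StarkMulAt M (S : Set (HeightOneSpectrum (𝓞 ℚ))) (aboveSet ℚ L S) Θ ρ ρ' σ := by
  have hχ := CMAIN.character_mem V ρ
  obtain ⟨c0, hc0⟩ := UALG.exists_cc L
  obtain ⟨r, hr⟩ := UALG.spanQ_invol hχ c0 (UALG.cc_sq hc0)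
  have hrC : (r : ℂ) ∈ Cyc n := by
    have h1 := (Cyc n).algebraMap_mem r
    simpa using h1
  obtain ⟨N, _, _, aN, _, _, _, _, hEN, hN⟩ := hS ℚ L T n hn (fun g => ρ.character g - (r : ℂ))
    (by
      have h1 : (fun g => ρ.character g - (r : ℂ)) =
          ρ.character - r • (fun _ : L ≃ₐ[ℚ] L => (1 : ℂ)) := by
        funext g
        rw [Pi.sub_apply, Pi.smul_apply, Rat.smul_def, mul_one]
      rw [h1]
      exact Submodule.sub_mem _ hχ (Submodule.smul_mem _ _ UALG.one_mem))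
    { val := fun g => (Cyc n).sub_mem (hloc.val g) hrC
      ine := by
        intro w x y hx hy hxy hco u hu
        show ρ.character (x * y ^ u) - (r : ℂ) = ρ.character (x * y) - (r : ℂ)
        rw [hloc.ine w x y hx hy hxy hco u hu]
      dec := by
        intro w x a hT hx ha
        show ρ.character (x ^ a) - (r : ℂ) = ρ.character x - (r : ℂ)
        rw [hloc.dec w x a hT hx ha] }
    (by
      intro c hc
      obtain ⟨x, rfl⟩ := UALG.cc_conj hc0 hc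
      show ρ.character _ - (r : ℂ) = 0
      rw [UALG.spanQ_class hχ, hr, sub_self]) E
  obtain rfl : aN = DivisionRing.toRatAlgebra := Subsingleton.elim _ _
  have hsp : (fun g : N ≃ₐ[ℚ] N => ρ.character (AlgEquiv.restrictNormalHom L g)) ∈
      SpanQ (G := N ≃ₐ[ℚ] N) (fun H ψ => (IsCyclic H ∧ TypeAK T H ψ ∧ ψ ^ n = 1) ∨
        (H = ⊤ ∧ ψ = 1)) := by
    have h1 : (fun g : N ≃ₐ[ℚ] N => ρ.character (AlgEquiv.restrictNormalHom L g)) =
        (fun g : N ≃ₐ[ℚ] N => ρ.character (AlgEquiv.restrictNormalHom L g) - (r : ℂ)) +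
          r • indFun (⊤ : Subgroup (N ≃ₐ[ℚ] N))
            (extZ (1 : (⊤ : Subgroup (N ≃ₐ[ℚ] N)) →* ℂˣ)) := by
      funext g
      have h2 : indFun (⊤ : Subgroup (N ≃ₐ[ℚ] N))
        (extZ (1 : (⊤ : Subgroup (N ≃ₐ[ℚ] N)) →* ℂˣ)) g = 1 := TRIVT.indFun_top g
      rw [Pi.add_apply, Pi.smul_apply, h2, Rat.smul_def, mul_one, sub_add_cancel]
    rw [h1]
    exact Submodule.add_mem _ (UALG.spanQ_mono (fun _ _ h => Or.inl h) hN)
      (Submodule.smul_mem _ _ (Submodule.subset_span ⟨⊤, 1, Or.inr ⟨rfl, rfl⟩, rfl⟩))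
  obtain ⟨M, hM, hGS⟩ := CMAIN.clear hsp
  obtain ⟨m, H, ψ, k, hP, hsum⟩ := CMB.of_mem_GS hGS
  obtain ⟨φ', Θ', hφ', hR⟩ := ALLT.infl ℚ L N S φ Θ hφ
  have h3 : ∃ M' : ℕ, 0 < M' ∧ StarkMulAt M' (S : Set (HeightOneSpectrum (𝓞 ℚ)))
      (aboveSet ℚ N S) Θ' (ρ.comp (AlgEquiv.restrictNormalHom L) :
        Representation ℂ (N ≃ₐ[ℚ] N) V) (ρ'.comp (AlgEquiv.restrictNormalHom L) :
        Representation ℂ (N ≃ₐ[ℚ] N) V') σ := by
    refine ALLT.indp_all (fun M => 0 < M) one_pos (fun a b ha hb => Nat.mul_pos ha hb) ℚ N S φ' Θ'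
      V V' (ρ.comp (AlgEquiv.restrictNormalHom L)) (ρ'.comp (AlgEquiv.restrictNormalHom L)) σ M
      m H ψ k hM hφ' (fun g => hσ _) hsum (fun i => ?_)
    obtain ⟨S', hS'⟩ := IND.exists_S' (IntermediateField.fixedField (H i))
      (S : Set (HeightOneSpectrum (𝓞 ℚ))) S.finite_toSet
    have hφ2 := IND.isPhiTheta_sub (IntermediateField.fixedField (H i)) hφ'
    have hlin : ∃ Mi : ℕ, 0 < Mi ∧ StarkMulAt Mi
        (S' : Set (HeightOneSpectrum (𝓞 (IntermediateField.fixedField (H i)))))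
        (aboveSet ℚ N S) Θ' (linRep (liftChar (H i) (ψ i)))
        (linRep (twist σ (liftChar (H i) (ψ i)))) σ := by
      rcases hP i with ⟨hcyc, ⟨hc, hur, htr⟩, hψn⟩ | ⟨h0, h1⟩
      · have hcyc' : IsCyclic (N ≃ₐ[IntermediateField.fixedField (H i)] N) :=
          isCyclic_of_surjective (IntermediateField.subgroupEquivAlgEquiv (H i))
            (IntermediateField.subgroupEquivAlgEquiv (H i)).surjective
        refine CNMAIN.ofA E T n σ hA (IntermediateField.fixedField (H i)) N hcyc' hEN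
          (liftChar (H i) (ψ i)) ?_ (GOOD.totallyComplex (H i) hc) ?_ ?_ S' _ hS' φ' Θ' hφ2
        · refine MonoidHom.ext fun g => ?_
          have h4 := DFunLike.congr_fun hψn ((IntermediateField.subgroupEquivAlgEquiv (H i)).symm g)
          exact h4
        · intro w g hg
          rw [← LMAIN.coe_symm] at hg
          exact hur w _ hg
        · intro w hw g hg
          rw [← LMAIN.coe_symm] at hg
          exact htr w _ hw hg
      · refine ofQ σ (IntermediateField.fixedField (H i)) N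
          (finrank_top (Module.finrank_self ℚ) (H i) h0)
          (liftChar (H i) (ψ i)) ?_ S' _ hS' φ' Θ' hφ2
        refine MonoidHom.ext fun g => ?_
        have h4 := DFunLike.congr_fun h1 ((IntermediateField.subgroupEquivAlgEquiv (H i)).symm g)
        exact h4
    obtain ⟨Mi, hMi, hst⟩ := hlin
    exact ⟨Mi, S', hMi, hS', hst⟩
  obtain ⟨M', hM', f, f', hf, hf', hE⟩ := h3
  refine ⟨M', hM', f, f', ⟨hf.1, fun s hs => ?_⟩, ⟨hf'.1, fun s hs => ?_⟩, ?_⟩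
  · rw [hf.2 s hs, MAIN.logL_infl LINF_thm]
  · rw [hf'.2 s hs, MAIN.logL_infl LINF_thm]
  · rw [hR V ρ, hR V' ρ'] at hE
    exact hE

/-- The trivial character of `Gal(N/F)`, `N/ℚ` Galois. -/
theorem trivN (hS : Stmt_LSUFA) (E : Type) [Field E] [NumberField E] (T : Finset ℕ) (n : ℕ)
    (σ : ℂ ≃+* ℂ) (hn : 0 < n)
    (hA : ∀ (K L : Type) [Field K] [NumberField K] [Field L] [NumberField L] [Algebra K L]
      [IsGalois K L], ClassAn E T n σ K L)
    (F N : Type) [Field F] [NumberField F] [Field N] [NumberField N] [Algebra F N]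
    [IsGalois F N] [IsGalois ℚ N] (ψ : (N ≃ₐ[F] N) →* ℂˣ) (hψ : ψ = 1)
    (S : Finset (HeightOneSpectrum (𝓞 F)))
    (φ : XQ N (aboveSet F N S) ≃ₗ[ℚ] QU N (aboveSet F N S))
    (Θ : XC N (aboveSet F N S) →ₗ[ℂ] XC N (aboveSet F N S))
    (hφ : IsPhiTheta F (aboveSet F N S) φ Θ) :
    ∃ M : ℕ, 0 < M ∧ StarkMulAt M (S : Set (HeightOneSpectrum (𝓞 F))) (aboveSet F N S) Θ
      (linRep ψ) (linRep (twist σ ψ)) σ := by
  obtain ⟨S₁, hS₁⟩ := BASEQ.exists_S1 (E := ℚ) (F := F) (N := N) ∅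
  obtain ⟨φ₀, Θ₀, h₀⟩ := ALLT.exph ℚ N ∅
  obtain ⟨V, _, _, _, ρ, hρ⟩ := INDREP_thm (N ≃ₐ[ℚ] N) (fixK ℚ F N) (BASEQ.chr ℚ ψ)
  obtain ⟨V', _, _, _, ρ', hρ'⟩ := INDREP_thm (N ≃ₐ[ℚ] N) (fixK ℚ F N)
    (twist σ (BASEQ.chr ℚ ψ))
  have hσ : ∀ g, ρ'.character g = σ (ρ.character g) := by
    intro g
    rw [hρ', hρ, IND.twist_indFun]
  have hloc : LocC T n ρ.character := by
    have h1 : ρ.character = indFun (fixK ℚ F N) (extZ (BASEQ.chr ℚ ψ)) := funext hρ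
    rw [h1]
    refine locC_perm T n _ _ ?_
    refine MonoidHom.ext fun h => ?_
    rw [hψ]
    rfl
  obtain ⟨M, hM, hst⟩ := starkQ hS E T n σ hn hA N ∅ φ₀ Θ₀ V V' ρ ρ' h₀ hσ hloc
  refine ⟨M, hM, ?_⟩
  have h1 := ALLT.downl_all ℚ F N ∅ S₁ hS₁ φ₀ Θ₀ h₀ V V' ρ ρ' ψ σ (fun g => by
    rw [hρ, BASEQ.extZ_chr]) hσ M hst
  exact BASEQ.sind_cast ALLT.sindp_all ψ σ M S₁ S _ hS₁ φ₀ Θ₀ φ Θ (BASEQ.isPhiTheta_res h₀) hφ h1

end TRIVA

/-- The class (A) implies the assertion for the trivial characters. -/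
theorem TRIVA_thm (hS : Stmt_LSUFA) (E : Type) [Field E] [NumberField E] (T : Finset ℕ) (n : ℕ)
    (σ : ℂ ≃+* ℂ) (hn : 0 < n)
    (hA : ∀ (K L : Type) [Field K] [NumberField K] [Field L] [NumberField L] [Algebra K L]
      [IsGalois K L], ClassAn E T n σ K L) : StarkTriv σ := by
  intro K _ _ φ Θ hφ
  obtain ⟨N, _, _, _, _, _⟩ := GALQ_thm K
  have hgal : IsGalois K N := IsGalois.tower_top_of_isGalois ℚ K N
  obtain ⟨φ', Θ', hφ', hReg⟩ := ALLT.infl K K N ∅ φ Θ hφ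
  obtain ⟨M, hM, f, f', hf, hf', hEq⟩ := TRIVA.trivN hS E T n σ hn hA K N
    ((1 : (K ≃ₐ[K] K) →* ℂˣ).comp (AlgEquiv.restrictNormalHom K)) rfl ∅ φ' Θ' hφ'
  refine ⟨M, hM, f, f', ⟨hf.1, fun s hs => ?_⟩, ⟨hf'.1, fun s hs => ?_⟩, ?_⟩
  · rw [hf.2 s hs, BASEQ.linRep_comp, MAIN.logL_infl LINF_thm]
  · rw [hf'.2 s hs]
    have h1 := MAIN.logL_infl LINF_thm K K N ℂ (linRep (twist σ (1 : (K ≃ₐ[K] K) →* ℂˣ)))
      ((∅ : Finset (HeightOneSpectrum (𝓞 K))) : Set (HeightOneSpectrum (𝓞 K))) s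
    rw [← h1]
    rfl
  · have h1 := hReg ℂ (linRep (1 : (K ≃ₐ[K] K) →* ℂˣ))
    have h2 := hReg ℂ (linRep (twist σ (1 : (K ≃ₐ[K] K) →* ℂˣ)))
    rw [← h1, ← h2]
    exact hEq

end StarkC.LOC
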