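import Pool.Agent.StarkLoc.PBridgeK
import Pool.Agent.StarkLoc.TRIVA

/-!
# The theorem, unconditional
-/

namespace StarkKB

theorem main_all : StarkK.Main :=
  main fun E _ _ T n σ hn hA => StarkC.LOC.TRIVA_thm StarkC.LOC.ALLL.sufa E T n σ hn hA

end StarkKB
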