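import Pool.Agent.StarkLoc.Stmts

/-!
# The part at the complex conjugations (module RAT)
-/

open NumberField IsDedekindDomain
open scoped TensorProduct Classical

namespace StarkC.LOC

namespace RATx

variable {G : Type} [Group G] [Fintype G]

/-- the number of the elements which conjugate `g` to `c` -/
noncomputable def del (c : G) : G → ℂ := fun g => ∑ x : G, if x⁻¹ * g * x = c then (1 : ℂ) else 0

theorem ind_mem (c : G) : indFun (Subgroup.zpowers c) (fun _ => 1) ∈
    SpanQ (G := G) (fun H ψ => IsCyclic H ∧ ψ = 1) := by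
  rw [← UALG.indFun_extZ_one]
  exact Submodule.subset_span ⟨Subgroup.zpowers c, 1, ⟨inferInstance, rfl⟩, rfl⟩

theorem mem_zpowers_invol {c : G} (hc : c * c = 1) (h : G) :
    h ∈ Subgroup.zpowers c ↔ h = 1 ∨ h = c := by
  constructor
  · rintro ⟨k, rfl⟩
    rcases Int.even_or_odd' k with ⟨j, hj | hj⟩
    · left
      show c ^ k = 1
      rw [hj, zpow_mul, zpow_two, hc, one_zpow]
    · right
      show c ^ k = c
      rw [hj, zpow_add, zpow_mul, zpow_two, hc, one_zpow, one_mul, zpow_one]
  · rintro (rfl | rfl)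
    · exact one_mem _
    · exact Subgroup.mem_zpowers _

theorem del_one_mem : (del (1 : G)) ∈ SpanQ (G := G) (fun H ψ => IsCyclic H ∧ ψ = 1) := by
  have h1 : del (1 : G) = indFun (Subgroup.zpowers (1 : G)) (fun _ => 1) := by
    funext g
    unfold del indFun
    have h2 : Nat.card (Subgroup.zpowers (1 : G)) = 1 := by
      rw [Nat.card_zpowers, orderOf_one]
    rw [h2, Nat.cast_one, div_one]
    refine Finset.sum_congr rfl fun x _ => ?_
    have h3 := mem_zpowers_invol (one_mul (1 : G)) (x⁻¹ * g * x)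
    rw [or_self] at h3
    simp only [h3]
  rw [h1]
  exact ind_mem 1

theorem del_mem {c : G} (hc : c * c = 1) :
    (del c) ∈ SpanQ (G := G) (fun H ψ => IsCyclic H ∧ ψ = 1) := by
  by_cases h1 : c = 1
  · rw [h1]
    exact del_one_mem
  have h2 : del c = (2 : ℚ) • indFun (Subgroup.zpowers c) (fun _ => 1) - del (1 : G) := by
    funext g
    rw [Pi.sub_apply, Pi.smul_apply, Rat.smul_def]
    unfold del indFun
    have h3 : Nat.card (Subgroup.zpowers c) = 2 := by
      rw [Nat.card_zpowers]
      exact orderOf_eq_prime (by rw [sq, hc]) h1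
    rw [h3]
    have h4 : ∑ x : G, (if x⁻¹ * g * x ∈ Subgroup.zpowers c then (1 : ℂ) else 0) =
        ∑ x : G, (if x⁻¹ * g * x = 1 then (1 : ℂ) else 0) +
          ∑ x : G, (if x⁻¹ * g * x = c then (1 : ℂ) else 0) := by
      rw [← Finset.sum_add_distrib]
      refine Finset.sum_congr rfl fun x _ => ?_
      by_cases h5 : x⁻¹ * g * x = 1
      · rw [if_pos ((mem_zpowers_invol hc _).2 (Or.inl h5)), if_pos h5,
          if_neg (fun h6 => h1 (h6.symm.trans h5)), add_zero]
      · by_cases h6 : x⁻¹ * g * x = c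
        · rw [if_pos ((mem_zpowers_invol hc _).2 (Or.inr h6)), if_neg h5, if_pos h6, zero_add]
        · rw [if_neg (fun h7 => ((mem_zpowers_invol hc _).1 h7).elim h5 h6), if_neg h5,
            if_neg h6, add_zero]
    rw [h4]
    push_cast
    ring
  rw [h2]
  exact Submodule.sub_mem _ (Submodule.smul_mem _ _ (ind_mem c)) del_one_mem

end RATx

open RATx in
theorem RAT_thm : Stmt_LRAT := by
  intro G _ _ P χ hχ h2 hP
  have hr : ∀ c : G, ∃ r : ℚ, P c → χ c = (r : ℂ) := by
    intro c
    by_cases hc : P c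
    · obtain ⟨r, hr⟩ := UALG.spanQ_invol hχ c (h2 c hc)
      exact ⟨r, fun _ => hr⟩
    · exact ⟨0, fun h => absurd h hc⟩
  choose r hr using hr
  have hPc : ∀ x g : G, P (x⁻¹ * g * x) ↔ P g := by
    intro x g
    refine ⟨fun h => ?_, hP x g⟩
    have h3 := hP x⁻¹ _ h
    have h4 : x⁻¹⁻¹ * (x⁻¹ * g * x) * x⁻¹ = g := by group
    rwa [h4] at h3
  have hcard : (Fintype.card G : ℂ) ≠ 0 := by
    exact_mod_cast Fintype.card_ne_zero
  have key : (fun g => if P g then χ g else 0) =
      ∑ c ∈ Finset.univ.filter P, (r c / (Fintype.card G : ℚ)) • del c := by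
    funext g
    rw [Finset.sum_apply]
    have h3 : ∀ c ∈ Finset.univ.filter P, ((r c / (Fintype.card G : ℚ)) • del c) g =
        (∑ x : G, if x⁻¹ * g * x = c then χ c else 0) / (Fintype.card G : ℂ) := by
      intro c hc
      rw [Finset.mem_filter] at hc
      rw [Pi.smul_apply, Rat.smul_def, hr c hc.2]
      unfold del
      push_cast
      rw [Finset.sum_div, Finset.mul_sum]
      refine Finset.sum_congr rfl fun x _ => ?_
      split_ifs
      · rw [mul_one]
      · rw [mul_zero, zero_div]
    rw [Finset.sum_congr rfl h3, ← Finset.sum_div, Finset.sum_comm]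
    have h4 : ∀ x : G, (∑ c ∈ Finset.univ.filter P, if x⁻¹ * g * x = c then χ c else 0) =
        if P g then χ g else 0 := by
      intro x
      rw [Finset.sum_ite_eq]
      by_cases hg : P g
      · rw [if_pos hg, if_pos, UALG.spanQ_class hχ x g]
        rw [Finset.mem_filter]
        exact ⟨Finset.mem_univ _, (hPc x g).2 hg⟩
      · rw [if_neg hg, if_neg]
        intro h5
        rw [Finset.mem_filter] at h5
        exact hg ((hPc x g).1 h5.2)
    rw [Finset.sum_congr rfl fun x _ => h4 x, Finset.sum_const, Finset.card_univ, nsmul_eq_mul]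
    field_simp
  rw [key]
  refine Submodule.sum_mem _ fun c hc => Submodule.smul_mem _ _ (del_mem ?_)
  rw [Finset.mem_filter] at hc
  exact h2 c hc.2

end StarkC.LOC
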