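import Pool.Agent.StarkLoc.RES
import Pool.Agent.StarkLoc.RAT
import Pool.Agent.StarkLoc.SUFB
import Pool.Agent.StarkU.ALLU

/-!
# Sufficiency, unconditional
-/

namespace StarkC.LOC.ALLL

open StarkC

theorem span : Stmt_LSPAN := SPAN_thm UART_thm UCYC_thm UMACK_thm UIND_thm UINFL_thm

theorem sufa : Stmt_LSUFA :=
  SUFA_thm UINFL_thm URAM_thm ALLU.ufk (UFKI_thm UEXT_thm) (UCEN_thm UEXT_thm) UCOMP_thm RES_thm
    span

theorem sufb : Stmt_LSUFB := SUFB_thm UART_thm UINFL_thm sufa RAT_thm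

end StarkC.LOC.ALLL
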