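import Pool.Agent.StarkLoc.StmtsC
import Pool.Agent.StarkU.ALLV
import Pool.Agent.StarkU.CNMAIN

/-!
# From a span over `K` to Stark's conjecture up to roots of unity
-/

open NumberField IsDedekindDomain
open scoped TensorProduct Classical

namespace StarkC

namespace LMAIN

section

variable {K N : Type} [Field K] [NumberField K] [Field N] [NumberField N] [Algebra K N]
  [IsGalois K N]

theorem coe_symm (H : Subgroup (N ≃ₐ[K] N)) (τ : N ≃ₐ[IntermediateField.fixedField H] N) :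
    (⇑(((IntermediateField.subgroupEquivAlgEquiv H).symm τ : H) : N ≃ₐ[K] N) : N → N) = ⇑τ :=
  funext fun x => GOOD.symm_apply H τ x

end

/-- Stark's assertion for the trivial characters of all `Gal(N/F)` from that of `Gal(F/F)`. -/
theorem ofTriv (σ : ℂ ≃+* ℂ) (F N : Type) [Field F] [NumberField F] [Field N] [NumberField N]
    [Algebra F N] [IsGalois F N] (h : StarkRat1 σ F F 1)
    (ψ : (N ≃ₐ[F] N) →* ℂˣ) (hψ : ψ = 1)
    (S : Finset (HeightOneSpectrum (𝓞 F))) (T' : Set (HeightOneSpectrum (𝓞 N)))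
    (hT : aboveSet F N (S : Set (HeightOneSpectrum (𝓞 F))) = T')
    (φ : XQ N T' ≃ₗ[ℚ] QU N T') (Θ : XC N T' →ₗ[ℂ] XC N T') (hφ : IsPhiTheta F T' φ Θ) :
    ∃ M : ℕ, 0 < M ∧ StarkMulAt M (S : Set (HeightOneSpectrum (𝓞 F))) T' Θ
      (linRep ψ) (linRep (twist σ ψ)) σ := by
  refine CNMAIN.up F F N σ 1 h ψ (fun g => ?_) S T' hT φ Θ hφ
  rw [hψ]
  rfl

/-- The main step: from a decomposition over `K` at the level `N` to all `S` and `φ` for `L`. -/
theorem main (E : Type) [Field E] (T : Finset ℕ) (n : ℕ) (σ : ℂ ≃+* ℂ)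
    (hA : ∀ (K L : Type) [Field K] [NumberField K] [Field L] [NumberField L] [Algebra K L]
      [IsGalois K L], ClassAn E T n σ K L)
    (P₀ : Prop) (hZ : P₀ → ∀ (F : Type) [Field F] [NumberField F], StarkRat1 σ F F 1)
    (K L N : Type) [Field K] [NumberField K] [Field L] [NumberField L] [Field N] [NumberField N]
    [Algebra K L] [Algebra K N] [Algebra L N] [IsScalarTower K L N] [IsGalois K L] [IsGalois K N]
    [IsGalois ℚ N] (hEN : Nonempty (E →+* N))
    (S : Finset (HeightOneSpectrum (𝓞 K)))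
    (φ : XQ L (aboveSet K L S) ≃ₗ[ℚ] QU L (aboveSet K L S))
    (Θ : XC L (aboveSet K L S) →ₗ[ℂ] XC L (aboveSet K L S))
    (V V' : Type) [AddCommGroup V] [Module ℂ V] [Module.Finite ℂ V]
    [AddCommGroup V'] [Module ℂ V'] [Module.Finite ℂ V']
    (ρ : Representation ℂ (L ≃ₐ[K] L) V) (ρ' : Representation ℂ (L ≃ₐ[K] L) V')
    (hφ : IsPhiTheta K (aboveSet K L S) φ Θ) (hσ : ∀ g, ρ'.character g = σ (ρ.character g))
    (hN : (fun g : N ≃ₐ[K] N => ρ.character (AlgEquiv.restrictNormalHom L g)) ∈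
      SpanQ (G := N ≃ₐ[K] N) (fun H ψ =>
        IsCyclic H ∧ ((LOC.TypeAK T H ψ ∧ ψ ^ n = 1) ∨ (P₀ ∧ ψ = 1)))) :
    ∃ M : ℕ, 0 < M ∧
      StarkMulAt M (S : Set (HeightOneSpectrum (𝓞 K))) (aboveSet K L S) Θ ρ ρ' σ := by
  obtain ⟨M, hM, hGS⟩ := CMAIN.clear hN
  obtain ⟨m, H, ψ, k, hP, hsum⟩ := CMB.of_mem_GS hGS
  obtain ⟨φ', Θ', hφ', hR⟩ := ALLT.infl K L N S φ Θ hφ
  have h3 : ∃ M' : ℕ, 0 < M' ∧ StarkMulAt M' (S : Set (HeightOneSpectrum (𝓞 K)))
      (aboveSet K N S) Θ' (ρ.comp (AlgEquiv.restrictNormalHom L) :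
        Representation ℂ (N ≃ₐ[K] N) V) (ρ'.comp (AlgEquiv.restrictNormalHom L) :
        Representation ℂ (N ≃ₐ[K] N) V') σ := by
    refine ALLT.indp_all (fun M => 0 < M) one_pos (fun a b ha hb => Nat.mul_pos ha hb) K N S φ' Θ'
      V V' (ρ.comp (AlgEquiv.restrictNormalHom L)) (ρ'.comp (AlgEquiv.restrictNormalHom L)) σ M
      m H ψ k hM hφ' (fun g => hσ _) hsum (fun i => ?_)
    obtain ⟨S', hS'⟩ := IND.exists_S' (IntermediateField.fixedField (H i))
      (S : Set (HeightOneSpectrum (𝓞 K))) S.finite_toSet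
    have hφ2 := IND.isPhiTheta_sub (IntermediateField.fixedField (H i)) hφ'
    have hlin : ∃ Mi : ℕ, 0 < Mi ∧ StarkMulAt Mi
        (S' : Set (HeightOneSpectrum (𝓞 (IntermediateField.fixedField (H i)))))
        (aboveSet K N S) Θ' (linRep (liftChar (H i) (ψ i)))
        (linRep (twist σ (liftChar (H i) (ψ i)))) σ := by
      rcases hP i with ⟨hcyc, ⟨⟨hc, hur, htr⟩, hψn⟩ | ⟨h0, h1⟩⟩
      · have hcyc' : IsCyclic (N ≃ₐ[IntermediateField.fixedField (H i)] N) :=
          isCyclic_of_surjective (IntermediateField.subgroupEquivAlgEquiv (H i))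
            (IntermediateField.subgroupEquivAlgEquiv (H i)).surjective
        refine CNMAIN.ofA E T n σ hA (IntermediateField.fixedField (H i)) N hcyc' hEN
          (liftChar (H i) (ψ i)) ?_ (GOOD.totallyComplex (H i) hc) ?_ ?_ S' _ hS' φ' Θ' hφ2
        · refine MonoidHom.ext fun g => ?_
          have h4 := DFunLike.congr_fun hψn ((IntermediateField.subgroupEquivAlgEquiv (H i)).symm g)
          exact h4
        · intro w g hg
          rw [← coe_symm] at hg
          exact hur w _ hg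
        · intro w hw g hg
          rw [← coe_symm] at hg
          exact htr w _ hw hg
      · refine ofTriv σ (IntermediateField.fixedField (H i)) N (hZ h0 _)
          (liftChar (H i) (ψ i)) ?_ S' _ hS' φ' Θ' hφ2
        refine MonoidHom.ext fun g => ?_
        have h4 := DFunLike.congr_fun h1 ((IntermediateField.subgroupEquivAlgEquiv (H i)).symm g)
        exact h4
    obtain ⟨Mi, hMi, hst⟩ := hlin
    exact ⟨Mi, S', hMi, hS', hst⟩
  obtain ⟨M', hM', f, f', hf, hf', hE⟩ := h3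
  refine ⟨M', hM', f, f', ⟨hf.1, fun s hs => ?_⟩, ⟨hf'.1, fun s hs => ?_⟩, ?_⟩
  · rw [hf.2 s hs, MAIN.logL_infl LINF_thm]
  · rw [hf'.2 s hs, MAIN.logL_infl LINF_thm]
  · rw [hR V ρ, hR V' ρ'] at hE
    exact hE

end LMAIN

end StarkC
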