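import Pool.Agent.StarkLoc.NEC

/-!
# Necessity, for narrow class characters of arbitrary fields
-/

open NumberField IsDedekindDomain
open scoped TensorProduct Classical

namespace StarkC.LOC

/-- `ψ` is unramified at all finite primes and trivial on the decomposition groups of the primes
above `T`. -/
def UrK {K N : Type} [Field K] [Field N] [NumberField N] [Algebra K N] (T : Finset ℕ)
    (H : Subgroup (N ≃ₐ[K] N)) (ψ : H →* ℂˣ) : Prop :=
  (∀ (W : HeightOneSpectrum (𝓞 N)) (h : H), FrobPow N W 1 (h : N ≃ₐ[K] N) → ψ h = 1) ∧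
    ∀ (W : HeightOneSpectrum (𝓞 N)) (h : H), AboveT T W → Dec W (h : N ≃ₐ[K] N) → ψ h = 1

namespace NECK

open NEC

section one

variable {K N : Type} [Field K] [NumberField K] [Field N] [NumberField N] [Algebra K N]

/-- invariance under powers -/
theorem span_inv (T : Finset ℕ) {f : (N ≃ₐ[K] N) → ℂ}
    (hf : f ∈ SpanQ (G := N ≃ₐ[K] N) (fun H ψ => UrK T H ψ))
    (W : HeightOneSpectrum (𝓞 N)) (Z : N ≃ₐ[K] N) (b : ℕ) (hZ : Dec W Z)
    (hb : b.Coprime (orderOf Z))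
    (hc : FrobPow N W 1 (Z ^ b * Z⁻¹ : N ≃ₐ[K] N) ∨ AboveT T W) : f (Z ^ b) = f Z := by
  unfold SpanQ at hf
  induction hf using Submodule.span_induction with
  | mem f h =>
    obtain ⟨H, ψ, hP, rfl⟩ := h
    refine ind_eq H ψ Z b hb fun x h h' => ?_
    obtain ⟨hI, hD⟩ := hP
    · rcases hc with hc | hc
      · have e1 : x⁻¹ * Z ^ b * x = (x⁻¹ * (Z ^ b * Z⁻¹) * x) * (x⁻¹ * Z * x) := by group
        have hk : x⁻¹ * (Z ^ b * Z⁻¹) * x ∈ H := by
          have e2 : x⁻¹ * (Z ^ b * Z⁻¹) * x = (x⁻¹ * Z ^ b * x) * (x⁻¹ * Z * x)⁻¹ := by group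
          rw [e2]
          exact H.mul_mem h' (H.inv_mem h)
        have e3 : (⟨x⁻¹ * Z ^ b * x, h'⟩ : H) = ⟨_, hk⟩ * ⟨_, h⟩ := Subtype.ext e1
        have e4 : ψ ⟨_, hk⟩ = 1 := hI _ ⟨_, hk⟩ (frob_cj W _ x hc)
        rw [e3, map_mul, e4, one_mul]
      · have e1 : ψ ⟨_, h⟩ = 1 := hD _ ⟨_, h⟩ (aboveT_mv T x⁻¹ W hc) (dec_cj W _ x hZ)
        have e2 : ψ ⟨_, h'⟩ = 1 := hD _ ⟨_, h'⟩ (aboveT_mv T x⁻¹ W hc)
          (dec_cj W _ x (RB.dec_pow hZ b))
        rw [e1, e2]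
  | zero => rfl
  | add f f' _ _ h h' => rw [Pi.add_apply, Pi.add_apply, h, h']
  | smul r f _ h => rw [Pi.smul_apply, Pi.smul_apply, h]

end one

section tower

variable {K L N : Type} [Field K] [NumberField K] [Field L] [NumberField L] [Field N]
  [NumberField N] [Algebra K L] [Algebra K N] [Algebra L N] [IsScalarTower K L N] [IsGalois K L]
  [IsGalois K N]

theorem locC (T : Finset ℕ) (n : ℕ) (χ : (L ≃ₐ[K] L) → ℂ)
    (hf : (fun g : N ≃ₐ[K] N => χ (AlgEquiv.restrictNormalHom L g)) ∈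
      SpanQ (G := N ≃ₐ[K] N) (fun H ψ => UrK T H ψ ∧ ψ ^ n = 1)) :
    LocC T n χ := by
  have hf' : (fun g : N ≃ₐ[K] N => χ (AlgEquiv.restrictNormalHom L g)) ∈
      SpanQ (G := N ≃ₐ[K] N) (fun H ψ => UrK T H ψ) := by
    exact UALG.spanQ_mono (fun H ψ h => h.1) hf
  refine ⟨?_, ?_, ?_⟩
  · intro g
    obtain ⟨g', rfl⟩ := AlgEquiv.restrictNormalHom_surjective (F := K) (K₁ := L) N g
    exact span_val n (fun H ψ h => Or.inl h.2) hf g'
  · intro w x y hx hy hcomm hcop u hu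
    obtain ⟨W, rfl⟩ := FAITH.exists_above (N := N) w
    obtain ⟨m, X', hX', hFX'⟩ := lift_dec W x hx
    obtain ⟨Y, hY, hFY⟩ := LINF.lift_frobPow (K := K) W 0 y (by rwa [pow_zero])
    rw [pow_zero] at hFY
    have hdv : orderOf x ∣ orderOf X' := by
      rw [← hX']
      exact orderOf_map_dvd (AlgEquiv.restrictNormalHom L) X'
    obtain ⟨s, e, hs, hxs, hsc, he1, he2⟩ := exps (orderOf x) (orderOf X') (orderOf_pos X') hdv
    have hXs : (X' ^ e) ^ s = 1 := by
      rw [← pow_mul]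
      exact orderOf_dvd_iff_pow_eq_one.1 he2
    have hFX := SLF.frobPow_pow hFX' e
    set Q : ℕ := (Ideal.absNorm (W.under (𝓞 K)).asIdeal ^ m) ^ e with hQ
    have hQ0 : Q ≠ 0 := pow_ne_zero _ (absNorm_pow_ne W m)
    have hresX : AlgEquiv.restrictNormalHom L (X' ^ e) = x := by
      rw [map_pow, hX']
      have h1 : e ≡ 1 [MOD orderOf x] := he1.of_dvd hxs
      have h2 := (pow_eq_pow_iff_modEq (x := x)).2 h1
      rwa [pow_one] at h2
    set X := X' ^ e with hXd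
    have hFZ : FrobPow N W (1 * Q) (X * Y : N ≃ₐ[K] N) := SLF.frobPow_mul hFX hFY
    rw [one_mul] at hFZ
    have hDZ : Dec W (X * Y : N ≃ₐ[K] N) := dec_of_frobPow hQ0 hFZ
    have hFZs : FrobPow N W 1 ((X * Y) ^ s : N ≃ₐ[K] N) := by
      refine frob_one_of (SLF.frobPow_pow hFZ s) ?_
      have h1 := SLF.frobPow_pow hFX s
      rwa [hXs] at h1
    have hcop' : s.Coprime (orderOf y) := hsc _ hcop.symm
    obtain ⟨b, hb0, hbZ, hb1, hbu⟩ := exists_b s (orderOf y) (orderOf (X * Y)) u hs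
      (orderOf_pos y) (orderOf_pos _) hcop' hu
    have hbs : s ∣ b - 1 := (Nat.modEq_iff_dvd' hb0).1 hb1.symm
    obtain ⟨t, ht⟩ := hbs
    have hin : FrobPow N W 1 ((X * Y) ^ b * (X * Y)⁻¹ : N ≃ₐ[K] N) := by
      have h1 : (X * Y) ^ b * (X * Y)⁻¹ = ((X * Y) ^ s) ^ t := by
        have h2 : b = (b - 1) + 1 := by omega
        rw [h2, pow_succ, mul_inv_cancel_right, ht, pow_mul]
      rw [h1]
      have h3 := SLF.frobPow_pow hFZs t
      rwa [one_pow] at h3
    have key := NECK.span_inv T hf' W (X * Y) b hDZ hbZ (Or.inl hin)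
    beta_reduce at key
    have hres : AlgEquiv.restrictNormalHom L (X * Y) = x * y := by
      rw [map_mul, hresX, hY]
    rw [map_pow, hres] at key
    have hxb : x ^ b = x := by
      have h1 : b ≡ 1 [MOD orderOf x] := hb1.of_dvd hxs
      have h2 := (pow_eq_pow_iff_modEq (x := x)).2 h1
      rwa [pow_one] at h2
    have hyb : y ^ b = y ^ u := (pow_eq_pow_iff_modEq (x := y)).2 hbu
    have hxy : (x * y) ^ b = x * y ^ u := by
      rw [(show Commute x y from hcomm).mul_pow, hxb, hyb]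
    rw [hxy] at key
    exact key
  · intro w x a hT hx ha
    obtain ⟨W, rfl⟩ := FAITH.exists_above (N := N) w
    have hTW : AboveT T W := (UALG.aboveT_under T W).1 hT
    obtain ⟨m, X, hX, hFX⟩ := lift_dec W x hx
    have hdv : orderOf x ∣ orderOf X := by
      rw [← hX]
      exact orderOf_map_dvd (AlgEquiv.restrictNormalHom L) X
    obtain ⟨b, hb0, hb1, hb2⟩ := lift_unit a (orderOf x) (orderOf X) (orderOf_pos X) hdv ha
    have key := NECK.span_inv T hf' W X b (dec_of_frobPow (absNorm_pow_ne W m) hFX) hb1 (Or.inr hTW)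
    beta_reduce at key
    rw [map_pow, hX, (pow_eq_pow_iff_modEq (x := x)).2 hb2] at key
    exact key

end tower

end NECK

end StarkC.LOC
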