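import Pool.Agent.StarkU.UNTH

/-!
# Characters of order dividing `n`, general groups
-/

open scoped Classical

namespace StarkC

namespace ORDK

variable {G : Type} [Group G] [Fintype G]

/-- If a class of pairs `(H, ψ)` is closed under powers and restrictions, then a function in its
span with values in the field of `n`-th roots of unity is in the span of the pairs of the class
with `ψ ^ n = 1`. -/
theorem main (n : ℕ) (hn : 0 < n) {P : ∀ H : Subgroup G, (H →* ℂˣ) → Prop}
    (hher : ∀ (H B : Subgroup G) (ψ : H →* ℂˣ) (hle : B ≤ H) (t : ℕ), P H ψ →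
      P B ((ψ ^ t).comp (Subgroup.inclusion hle)))
    {f : G → ℂ} (hf : f ∈ SpanQ (G := G) P) (hval : ∀ g, f g ∈ Cyc n) :
    f ∈ SpanQ (G := G) (fun H ψ => P H ψ ∧ ψ ^ n = 1) := by
  have h1 : f ∈ SpanQ (G := G) (UAVG.Avg P (UNTH.ev n)) := by
    refine UAVG.main (UNTH.ev n) hf fun a g ha han => ?_
    exact UVAL.inv_of_values n hn hf hval a g ha (Nat.ModEq.of_dvd (UNTH.dvd_ev n) han)
  refine UNTH.spanQ_le ?_ h1
  rintro B ν ⟨H, ψ, hle, t, hP, ht, hν, hνn, hker⟩
  have hA' : P B ν := by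
    rw [hν]
    exact hher H B ψ hle t hP
  by_cases hev : Even n
  · have h2 : UNTH.ev n = n := if_pos hev
    rw [h2] at hνn
    exact Submodule.subset_span ⟨B, ν, ⟨hA', hνn⟩, rfl⟩
  · have h2 : UNTH.ev n = 2 * n := if_neg hev
    rw [h2] at hνn
    refine UNTH.spanQ_le ?_ (UNTH.odd_red n (Nat.not_even_iff_odd.1 hev) B ν hνn)
    rintro C μ ⟨hle', s, rfl, hμ⟩
    exact Submodule.subset_span ⟨C, _, ⟨hher B C ν hle' s hA', hμ⟩, rfl⟩

end ORDK

end StarkC
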