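import Pool.Agent.StarkLoc.LMAIN

/-!
# Stark's assertion up to roots of unity for the characters with local conditions
-/

open NumberField IsDedekindDomain
open scoped TensorProduct Classical

namespace StarkC

namespace LOC

namespace STK

/-- a totally complex field has no complex conjugations above it -/
theorem not_isCC {K L : Type} [Field K] [NumberField K] [Field L] [Algebra K L]
    (h : IsTotallyComplex K) (c : L ≃ₐ[K] L) : ¬ IsCC c := by
  rintro ⟨Φ, hΦ⟩
  have h1 := h.isComplex (InfinitePlace.mk (Φ.comp (algebraMap K L)))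
  rw [InfinitePlace.isComplex_mk_iff] at h1
  refine h1 ?_
  refine RingHom.ext fun x => ?_
  show star (Φ (algebraMap K L x)) = Φ (algebraMap K L x)
  rw [← hΦ.eq, c.commutes]

/-- the local conditions for a character which is trivial on the inertia groups and on the
decomposition groups above `T` -/
theorem locC_lin {K L : Type} [Field K] [NumberField K] [Field L] [NumberField L] [Algebra K L]
    (T : Finset ℕ) (n : ℕ) (ψ : (L ≃ₐ[K] L) →* ℂˣ)
    (h1 : ∀ (w : HeightOneSpectrum (𝓞 L)) (g : L ≃ₐ[K] L), FrobPow L w 1 g → ψ g = 1)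
    (h2 : ∀ (w : HeightOneSpectrum (𝓞 L)), AboveT T w → ∀ g : L ≃ₐ[K] L, Dec w g → ψ g = 1)
    (hn : ψ ^ n = 1) : LocC T n (linRep ψ).character where
  val g := by
    rw [MAIN.linRep_character]
    refine IntermediateField.subset_adjoin ℚ _ ?_
    show ((ψ g : ℂˣ) : ℂ) ^ n = 1
    rw [← Units.val_pow_eq_pow_val, ← MonoidHom.pow_apply, hn]
    rfl
  ine w x y hx hy hxy hco u hu := by
    rw [MAIN.linRep_character, MAIN.linRep_character, map_mul, map_mul, map_pow, h1 w y hy,
      one_pow]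
  dec w x a hT hx ha := by
    rw [MAIN.linRep_character, MAIN.linRep_character, map_pow, h2 w hT x hx, one_pow]

/-- The Stark assertion for `linRep ψ` from the assertion for all characters with local
conditions. -/
theorem lin_of {Q : ∀ (K L : Type) [Field K] [Field L] [Algebra K L], ((L ≃ₐ[K] L) → ℂ) → Prop}
    {T : Finset ℕ} {n : ℕ} {σ : ℂ ≃+* ℂ} (h : StarkLocQ Q T n σ)
    (K L : Type) [Field K] [NumberField K] [Field L] [NumberField L] [Algebra K L] [IsGalois K L]
    (ψ : (L ≃ₐ[K] L) →* ℂˣ) (hloc : LocC T n (linRep ψ).character)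
    (hQ : Q K L (linRep ψ).character) : StarkRat1 σ K L ψ := by
  intro φ Θ hφ
  refine h K L ∅ φ Θ ℂ ℂ (linRep ψ) (linRep (twist σ ψ)) hφ (fun g => ?_) hloc hQ
  rw [MAIN.linRep_character, MAIN.linRep_character]
  rfl

/-- Class (A) from the assertion for all characters with local conditions. -/
theorem classAn {Q : ∀ (K L : Type) [Field K] [Field L] [Algebra K L], ((L ≃ₐ[K] L) → ℂ) → Prop}
    {T : Finset ℕ} {n : ℕ} {σ : ℂ ≃+* ℂ} (h : StarkLocQ Q T n σ)
    (hQ : ∀ (K L : Type) [Field K] [NumberField K] [Field L] [NumberField L] [Algebra K L]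
      (χ : (L ≃ₐ[K] L) → ℂ), IsTotallyComplex K → Q K L χ) (E : Type) [Field E]
    (K L : Type) [Field K] [NumberField K] [Field L] [NumberField L] [Algebra K L] [IsGalois K L] :
    ClassAn E T n σ K L := by
  intro hK hur htr _ ψ _ hψn
  refine lin_of h K L ψ (locC_lin T n ψ (fun w g hg => ?_) (fun w hw g hg => ?_) hψn)
    (hQ K L _ hK)
  · rw [hur w g hg, map_one]
  · rw [htr w hw g hg, map_one]

end STK

theorem STKA_thm : Stmt_LSTKA := by
  intro hSUF E _ _ T n σ hn
  constructor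
  · intro h K L _ _ _ _ _ _
    exact STK.classAn h (fun K L _ _ _ _ _ χ hK c hc => (STK.not_isCC hK c hc).elim) E K L
  · intro hA K L _ _ _ _ _ _ S φ Θ V V' _ _ _ _ _ _ ρ ρ' hφ hσ hloc hvan
    obtain ⟨N, _, _, _, _, _, _, _, hE, hN⟩ := hSUF K L T n hn ρ.character
      (CMAIN.character_mem V ρ) hloc hvan E
    refine LMAIN.main E T n σ hA False (fun h => h.elim) K L N hE S φ Θ V V' ρ ρ' hφ hσ
      (UALG.spanQ_mono ?_ hN)
    rintro H ψ ⟨h1, h2, h3⟩
    exact ⟨h1, Or.inl ⟨h2, h3⟩⟩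

theorem STKB_thm : Stmt_LSTKB := by
  intro hSUF E _ _ T n σ hn
  constructor
  · intro h
    refine ⟨?_, ?_⟩
    · intro K L _ _ _ _ _ _
      exact STK.classAn h (fun K L _ _ _ _ _ χ hK => trivial) E K L
    · intro K _ _
      refine STK.lin_of h K K 1 (STK.locC_lin T n 1 (fun _ _ _ => rfl) (fun _ _ _ _ => rfl)
        (MonoidHom.ext fun g => one_pow n)) trivial
  · rintro ⟨hA, hZ⟩ K L _ _ _ _ _ _ S φ Θ V V' _ _ _ _ _ _ ρ ρ' hφ hσ hloc -
    obtain ⟨N, _, _, _, _, _, _, _, hE, hN⟩ := hSUF K L T n hn ρ.character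
      (CMAIN.character_mem V ρ) hloc E
    refine LMAIN.main E T n σ hA True (fun _ => hZ) K L N hE S φ Θ V V' ρ ρ' hφ hσ
      (UALG.spanQ_mono ?_ hN)
    rintro H ψ ⟨h1, ⟨h2, h3⟩ | h3⟩
    · exact ⟨h1, Or.inl ⟨h2, h3⟩⟩
    · exact ⟨h1, Or.inr ⟨trivial, h3⟩⟩

end LOC

end StarkC
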