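import Pool.Agent.StarkLoc.PDefsK
import Pool.Agent.StarkLoc.NECK
import Pool.Agent.StarkLoc.ALLL
import Pool.Agent.StarkLoc.STK
import Pool.Agent.StarkU.PBridgeV
import Pool.Agent.StarkU.CMAIN

/-!
# Bridge to the final definitions
-/

open NumberField IsDedekindDomain
open scoped TensorProduct Classical

namespace StarkKB

open StarkC StarkC.LOC

theorem local_iff {K L : Type} [Field K] [Field L] [NumberField L] [Algebra K L] (T : Finset ℕ)
    (n : ℕ) (χ : (L ≃ₐ[K] L) → ℂ) : StarkK.Local T n χ ↔ LocC T n χ := by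
  constructor
  · intro h
    exact ⟨h.values, h.inertia, fun w x a hT hx ha => h.above w hT x hx a ha⟩
  · intro h
    exact ⟨h.val, h.ine, fun w hT x hx a ha => h.dec w x a hT hx ha⟩

theorem classChar_iff {K N : Type} [Field K] [Field N] [NumberField N] [Algebra K N]
    (T : Finset ℕ) (n : ℕ) (H : Subgroup (N ≃ₐ[K] N)) (ψ : H →* ℂˣ) :
    StarkK.IsClassChar T n H ψ ↔ UrK T H ψ ∧ ψ ^ n = 1 := by
  constructor
  · intro h
    exact ⟨⟨h.unramified, fun W b hT hb => h.split W hT b hb⟩, h.order⟩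
  · rintro ⟨⟨h2, h3⟩, h4⟩
    exact ⟨h2, fun W hT b hb => h3 W b hT hb, h4⟩

section grp

variable {G : Type} [Group G] [Fintype G]

theorem ind_eq (H : Subgroup G) (ψ : H →* ℂˣ) : StarkK.ind H ψ = indFun H (extZ ψ) := by
  funext g
  unfold StarkK.ind indFun
  congr 1
  refine Finset.sum_congr rfl fun x _ => ?_
  unfold extZ
  split_ifs <;> rfl

theorem generated_iff (P : ∀ H : Subgroup G, (H →* ℂˣ) → Prop) (χ : G → ℂ) :
    StarkK.Generated P χ ↔ χ ∈ SpanQ (G := G) P := by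
  constructor
  · rintro ⟨m, hm, h⟩
    have h1 : AddSubgroup.closure
        {f : G → ℂ | ∃ (H : Subgroup G) (ψ : H →* ℂˣ), P H ψ ∧ f = StarkK.ind H ψ} ≤
        (SpanQ (G := G) P).toAddSubgroup := by
      rw [AddSubgroup.closure_le]
      rintro f ⟨H, ψ, hP, rfl⟩
      exact Submodule.subset_span ⟨H, ψ, hP, ind_eq H ψ⟩
    have h2 : (fun g => (m : ℂ) * χ g) ∈ SpanQ (G := G) P := h1 h
    have h3 : χ = ((m : ℚ)⁻¹) • (fun g => (m : ℂ) * χ g) := by
      funext g
      rw [Pi.smul_apply, Rat.smul_def]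
      have h4 : (m : ℂ) ≠ 0 := by exact_mod_cast hm
      push_cast
      rw [inv_mul_cancel_left₀ h4]
    rw [h3]
    exact Submodule.smul_mem _ _ h2
  · intro h
    obtain ⟨M, hM, hGS⟩ := CMAIN.clear h
    refine ⟨M, by exact_mod_cast hM.ne', ?_⟩
    have h1 : (CMB.GS P).toAddSubgroup ≤ AddSubgroup.closure
        {f : G → ℂ | ∃ (H : Subgroup G) (ψ : H →* ℂˣ), P H ψ ∧ f = StarkK.ind H ψ} := by
      intro f hf
      have hf' : f ∈ CMB.GS P := hf
      unfold CMB.GS at hf'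
      induction hf' using Submodule.span_induction with
      | mem x hx =>
        obtain ⟨t, rfl⟩ := hx
        exact AddSubgroup.subset_closure ⟨t.1.1, t.1.2, t.2, (ind_eq _ _).symm⟩
      | zero => exact AddSubgroup.zero_mem _
      | add x y _ _ hx hy => exact AddSubgroup.add_mem _ (hx ‹_›) (hy ‹_›)
      | smul a x _ hx => exact AddSubgroup.zsmul_mem _ (hx ‹_›) a
    have h2 := h1 (show _ ∈ (CMB.GS P).toAddSubgroup from hGS)
    simpa using h2

end grp

section main

variable {K L : Type} [Field K] [NumberField K] [Field L] [NumberField L] [Algebra K L]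
  [IsGalois K L]

/-- (2) ⇒ (1) -/
theorem local_of_reduces (T : Finset ℕ) (n : ℕ) (χ : (L ≃ₐ[K] L) → ℂ)
    (h : StarkK.Reduces T n χ) : StarkK.Local T n χ := by
  obtain ⟨N, _, _, _, _, _, _, hN⟩ := h
  rw [generated_iff] at hN
  rw [local_iff]
  exact NECK.locC (N := N) T n χ (UALG.spanQ_mono (fun H ψ h => (classChar_iff T n H ψ).1 h) hN)

/-- (1) ⇒ (3) -/
theorem strongly_of_local (E : Type) [Field E] [NumberField E] (T : Finset ℕ) (n : ℕ)
    (hn : 0 < n) (χ : (L ≃ₐ[K] L) → ℂ) (hχ : χ ∈ SpanQ (G := L ≃ₐ[K] L) (fun _ _ => True))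
    (h1 : StarkK.Local T n χ) : StarkK.ReducesStrongly E T n χ := by
  rw [local_iff] at h1
  obtain ⟨N, _, _, _, _, _, hQ, _, hE, hN⟩ := ALLL.sufb K L T n hn χ hχ h1 E
  refine ⟨N, inferInstance, inferInstance, inferInstance, inferInstance, inferInstance,
    inferInstance, hQ, hE, ?_⟩
  rw [generated_iff]
  refine UALG.spanQ_mono ?_ hN
  rintro H ψ ⟨hc, ⟨⟨h2, h3, h4⟩, h5⟩ | rfl⟩
  · exact ⟨⟨h3, fun W hT b hb => h4 W b hT hb, h5⟩, hc,
      Or.inr fun Φ c hΦ hH => h2 c hH ⟨Φ, hΦ⟩⟩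
  · refine ⟨⟨fun _ _ _ => rfl, fun _ _ _ _ => rfl, MonoidHom.ext fun h => ?_⟩, hc, Or.inl rfl⟩
    rw [MonoidHom.pow_apply, MonoidHom.one_apply, one_pow]

/-- (3) ⇒ (2) -/
theorem reduces_of_strongly (E : Type) [Field E] (T : Finset ℕ) (n : ℕ)
    (χ : (L ≃ₐ[K] L) → ℂ) (h : StarkK.ReducesStrongly E T n χ) : StarkK.Reduces T n χ := by
  obtain ⟨N, _, _, _, _, _, _, -, -, hN⟩ := h
  refine ⟨N, inferInstance, inferInstance, inferInstance, inferInstance, inferInstance,
    inferInstance, ?_⟩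
  rw [generated_iff] at hN ⊢
  exact UALG.spanQ_mono (fun H ψ h => h.1) hN

end main

/-- The theorem, given that the class (A) implies the assertion for the trivial characters. -/
theorem main (hTRIV : ∀ (E : Type) [Field E] [NumberField E] (T : Finset ℕ) (n : ℕ)
    (σ : ℂ ≃+* ℂ), 0 < n → (∀ (K L : Type) [Field K] [NumberField K] [Field L] [NumberField L]
      [Algebra K L] [IsGalois K L], ClassAn E T n σ K L) → StarkTriv σ) : StarkK.Main := by
  intro K L _ _ _ _ _ _ V _ _ _ ρ T n hn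
  have h21 := local_of_reduces T n ρ.character
  have h13 : StarkK.Local T n ρ.character →
      ∀ (E : Type) [Field E] [NumberField E], StarkK.ReducesStrongly E T n ρ.character :=
    fun h E _ _ => strongly_of_local E T n hn ρ.character (CMAIN.character_mem V ρ) h
  have h32 : (∀ (E : Type) [Field E] [NumberField E],
      StarkK.ReducesStrongly E T n ρ.character) → StarkK.Reduces T n ρ.character :=
    fun h => reduces_of_strongly ℚ T n ρ.character (h ℚ)
  refine ⟨⟨fun h => h32 (h13 h), h21⟩, ⟨fun h => h13 (h21 h), h32⟩, ?_⟩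
  intro hred E _ _ σ hA V' _ _ _ ρ' hσ S
  have hA' := (StarkVB.classA_iff E T n σ).1 hA
  have hB := (STKB_thm ALLL.sufb E T n σ hn).2 ⟨hA', hTRIV E T n σ hn hA'⟩
  exact (StarkVB.starkRat_iff S ρ ρ' σ).2 fun φ Θ hφ =>
    hB K L S φ Θ V V' ρ ρ' hφ hσ ((local_iff T n _).1 (h21 hred)) trivial

end StarkKB
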