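import Pool.Agent.StarkLoc.PDefsL
import Pool.Agent.StarkLoc.NEC
import Pool.Agent.StarkLoc.ALLL
import Pool.Agent.StarkU.CMAIN

/-!
# Bridge for the formal half
-/

open NumberField IsDedekindDomain
open scoped TensorProduct Classical

namespace StarkLB

open StarkC StarkC.LOC

theorem local_iff {K L : Type} [Field K] [Field L] [NumberField L] [Algebra K L] (T : Finset ℕ)
    (n : ℕ) (χ : (L ≃ₐ[K] L) → ℂ) : StarkL.Local T n χ ↔ LocC T n χ := by
  constructor
  · intro h
    exact ⟨h.values, h.inertia, fun w x a hT hx ha => h.above w hT x hx a ha⟩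
  · intro h
    exact ⟨h.val, h.ine, fun w hT x hx a ha => h.dec w x a hT hx ha⟩

theorem van_iff {K L : Type} [Field K] [Field L] [Algebra K L] (χ : (L ≃ₐ[K] L) → ℂ) :
    StarkL.VanishesAtConj χ ↔ Van χ := by
  constructor
  · rintro h c ⟨Φ, hΦ⟩
    exact h Φ c hΦ
  · intro h Φ c hc
    exact h c ⟨Φ, hc⟩

theorem classChar_iff {K N : Type} [Field K] [Field N] [NumberField N] [Algebra K N]
    (T : Finset ℕ) (n : ℕ) (H : Subgroup (N ≃ₐ[K] N)) (ψ : H →* ℂˣ) :
    StarkL.IsClassChar T n H ψ ↔ TypeAK T H ψ ∧ ψ ^ n = 1 := by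
  constructor
  · intro h
    exact ⟨⟨fun c hc ⟨Φ, hΦ⟩ => h.complex Φ c hΦ hc, h.unramified,
      fun W b hT hb => h.split W hT b hb⟩, h.order⟩
  · rintro ⟨⟨h1, h2, h3⟩, h4⟩
    exact ⟨fun Φ c hc hH => h1 c hH ⟨Φ, hc⟩, h2, fun W hT b hb => h3 W b hT hb, h4⟩

section grp

variable {G : Type} [Group G] [Fintype G]

theorem ind_eq (H : Subgroup G) (ψ : H →* ℂˣ) : StarkL.ind H ψ = indFun H (extZ ψ) := by
  funext g
  unfold StarkL.ind indFun
  congr 1
  refine Finset.sum_congr rfl fun x _ => ?_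
  unfold extZ
  split_ifs <;> rfl

theorem generated_iff (P : ∀ H : Subgroup G, (H →* ℂˣ) → Prop) (χ : G → ℂ) :
    StarkL.Generated P χ ↔ χ ∈ SpanQ (G := G) P := by
  constructor
  · rintro ⟨m, hm, h⟩
    have h1 : AddSubgroup.closure
        {f : G → ℂ | ∃ (H : Subgroup G) (ψ : H →* ℂˣ), P H ψ ∧ f = StarkL.ind H ψ} ≤
        (SpanQ (G := G) P).toAddSubgroup := by
      rw [AddSubgroup.closure_le]
      rintro f ⟨H, ψ, hP, rfl⟩
      exact Submodule.subset_span ⟨H, ψ, hP, ind_eq H ψ⟩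
    have h2 : (fun g => (m : ℂ) * χ g) ∈ SpanQ (G := G) P := h1 h
    have h3 : χ = ((m : ℚ)⁻¹) • (fun g => (m : ℂ) * χ g) := by
      funext g
      rw [Pi.smul_apply, Rat.smul_def]
      have h4 : (m : ℂ) ≠ 0 := by exact_mod_cast hm
      push_cast
      rw [inv_mul_cancel_left₀ h4]
    rw [h3]
    exact Submodule.smul_mem _ _ h2
  · intro h
    obtain ⟨M, hM, hGS⟩ := CMAIN.clear h
    refine ⟨M, by exact_mod_cast hM.ne', ?_⟩
    have h1 : (CMB.GS P).toAddSubgroup ≤ AddSubgroup.closure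
        {f : G → ℂ | ∃ (H : Subgroup G) (ψ : H →* ℂˣ), P H ψ ∧ f = StarkL.ind H ψ} := by
      intro f hf
      have hf' : f ∈ CMB.GS P := hf
      unfold CMB.GS at hf'
      induction hf' using Submodule.span_induction with
      | mem x hx =>
        obtain ⟨t, rfl⟩ := hx
        exact AddSubgroup.subset_closure ⟨t.1.1, t.1.2, t.2, (ind_eq _ _).symm⟩
      | zero => exact AddSubgroup.zero_mem _
      | add x y _ _ hx hy => exact AddSubgroup.add_mem _ (hx ‹_›) (hy ‹_›)
      | smul a x _ hx => exact AddSubgroup.zsmul_mem _ (hx ‹_›) a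
    have h2 := h1 (show _ ∈ (CMB.GS P).toAddSubgroup from hGS)
    simpa using h2

end grp

section main

variable {K L : Type} [Field K] [NumberField K] [Field L] [NumberField L] [Algebra K L]
  [IsGalois K L]

theorem spanQ_congr {G : Type} [Group G] [Fintype G] {P P' : ∀ H : Subgroup G, (H →* ℂˣ) → Prop}
    (h : ∀ H ψ, P H ψ ↔ P' H ψ) : SpanQ (G := G) P = SpanQ (G := G) P' :=
  le_antisymm (UALG.spanQ_mono fun H ψ => (h H ψ).1) (UALG.spanQ_mono fun H ψ => (h H ψ).2)

/-- (2) ⇒ (1) -/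
theorem local_of_reduces (z : Bool) (T : Finset ℕ) (n : ℕ) (hn : 0 < n) (χ : (L ≃ₐ[K] L) → ℂ)
    (h : StarkL.Reduces z T n χ) :
    StarkL.Local T n χ ∧ (z = false → StarkL.VanishesAtConj χ) := by
  obtain ⟨N, _, _, _, _, _, _, hN⟩ := h
  rw [generated_iff] at hN
  rw [local_iff, van_iff]
  cases z with
  | true =>
    refine ⟨(NEC_thm K L N T n hn χ).1 (UALG.spanQ_mono ?_ hN), fun h => by cases h⟩
    rintro H ψ (h1 | ⟨-, h1⟩)
    · exact Or.inl ((classChar_iff T n H ψ).1 h1)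
    · exact Or.inr h1
  | false =>
    have h2 := (NEC_thm K L N T n hn χ).2 (UALG.spanQ_mono (by
      rintro H ψ (h1 | ⟨h1, -⟩)
      · exact (classChar_iff T n H ψ).1 h1
      · cases h1) hN)
    exact ⟨h2.1, fun _ => h2.2⟩

/-- (1) ⇒ (3) -/
theorem strongly_of_local (E : Type) [Field E] [NumberField E] (z : Bool) (T : Finset ℕ) (n : ℕ)
    (hn : 0 < n) (χ : (L ≃ₐ[K] L) → ℂ) (hχ : χ ∈ SpanQ (G := L ≃ₐ[K] L) (fun _ _ => True))
    (h1 : StarkL.Local T n χ) (h2 : z = false → StarkL.VanishesAtConj χ) :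
    StarkL.ReducesStrongly E z T n χ := by
  rw [local_iff] at h1
  cases z with
  | true =>
    obtain ⟨N, _, _, _, _, _, hQ, _, hE, hN⟩ := ALLL.sufb K L T n hn χ hχ h1 E
    refine ⟨N, inferInstance, inferInstance, inferInstance, inferInstance, inferInstance,
      inferInstance, hQ, hE, ?_⟩
    rw [generated_iff]
    refine UALG.spanQ_mono ?_ hN
    rintro H ψ ⟨hc, h3 | h3⟩
    · exact ⟨hc, Or.inl ((classChar_iff T n H ψ).2 h3)⟩
    · exact ⟨hc, Or.inr ⟨rfl, h3⟩⟩
  | false =>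
    obtain ⟨N, _, _, _, _, _, hQ, _, hE, hN⟩ := ALLL.sufa K L T n hn χ hχ h1
      ((van_iff χ).1 (h2 rfl)) E
    refine ⟨N, inferInstance, inferInstance, inferInstance, inferInstance, inferInstance,
      inferInstance, hQ, hE, ?_⟩
    rw [generated_iff]
    refine UALG.spanQ_mono ?_ hN
    rintro H ψ ⟨hc, h3⟩
    exact ⟨hc, Or.inl ((classChar_iff T n H ψ).2 h3)⟩

/-- (3) ⇒ (2) -/
theorem reduces_of_strongly (E : Type) [Field E] (z : Bool) (T : Finset ℕ) (n : ℕ)
    (χ : (L ≃ₐ[K] L) → ℂ) (h : StarkL.ReducesStrongly E z T n χ) : StarkL.Reduces z T n χ := by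
  obtain ⟨N, _, _, _, _, _, _, -, -, hN⟩ := h
  refine ⟨N, inferInstance, inferInstance, inferInstance, inferInstance, inferInstance,
    inferInstance, ?_⟩
  rw [generated_iff] at hN ⊢
  exact UALG.spanQ_mono (fun H ψ h => h.2) hN

/-- The formal half of `StarkL.Main`. -/
theorem formal (V : Type) [AddCommGroup V] [Module ℂ V] [Module.Finite ℂ V]
    (ρ : Representation ℂ (L ≃ₐ[K] L) V) (z : Bool) (T : Finset ℕ) (n : ℕ) (hn : 0 < n) :
    ((StarkL.Local T n ρ.character ∧ (z = false → StarkL.VanishesAtConj ρ.character)) ↔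
      StarkL.Reduces z T n ρ.character) ∧
    (StarkL.Reduces z T n ρ.character ↔
      ∀ (E : Type) [Field E] [NumberField E], StarkL.ReducesStrongly E z T n ρ.character) := by
  have h21 := local_of_reduces z T n hn ρ.character
  have h13 : StarkL.Local T n ρ.character ∧ (z = false → StarkL.VanishesAtConj ρ.character) →
      ∀ (E : Type) [Field E] [NumberField E], StarkL.ReducesStrongly E z T n ρ.character :=
    fun h E _ _ => strongly_of_local E z T n hn ρ.character (CMAIN.character_mem V ρ) h.1 h.2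
  have h32 : (∀ (E : Type) [Field E] [NumberField E],
      StarkL.ReducesStrongly E z T n ρ.character) → StarkL.Reduces z T n ρ.character :=
    fun h => reduces_of_strongly ℚ z T n ρ.character (h ℚ)
  exact ⟨⟨fun h => h32 (h13 h), h21⟩, ⟨fun h => h13 (h21 h), h32⟩⟩

end main

end StarkLB
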