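import Pool.Agent.StarkLoc.PDefsL
import Pool.Agent.StarkLoc.STK
import Pool.Agent.StarkLoc.ALLL
import Pool.Agent.StarkU.PBridgeV

/-!
# Bridge between the two forms of the definitions: local conditions, Stark part
-/

open NumberField IsDedekindDomain
open scoped TensorProduct Classical

namespace StarkLSB

section

variable {K L : Type} [Field K] [NumberField K] [Field L] [NumberField L] [Algebra K L]

theorem local_iff (T : Finset ℕ) (n : ℕ) (χ : (L ≃ₐ[K] L) → ℂ) :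
    StarkL.Local T n χ ↔ StarkC.LOC.LocC T n χ := by
  constructor
  · intro h
    exact ⟨h.values, h.inertia, fun w x a hT hx ha => h.above w hT x hx a ha⟩
  · intro h
    exact ⟨h.val, h.ine, fun w hT x hx a ha => h.dec w x a hT hx ha⟩

theorem vanishes_iff (χ : (L ≃ₐ[K] L) → ℂ) :
    StarkL.VanishesAtConj χ ↔ StarkC.LOC.Van χ := by
  constructor
  · rintro h c ⟨Φ, hΦ⟩
    exact h Φ c hΦ
  · intro h Φ c hΦ
    exact h c ⟨Φ, hΦ⟩

end

theorem starkLocal_false (T : Finset ℕ) (n : ℕ) (σ : ℂ ≃+* ℂ) :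
    StarkL.StarkLocal false T n σ ↔ StarkC.LOC.StarkLocA T n σ := by
  constructor
  · intro h K L _ _ _ _ _ _ S φ Θ V V' _ _ _ _ _ _ ρ ρ' hφ hχ hloc hvan
    exact (StarkVB.starkRat_iff S ρ ρ' σ).1 (h K L V V' ρ ρ' hχ ((local_iff T n _).2 hloc)
      (fun _ => (vanishes_iff _).2 hvan) S) φ Θ hφ
  · intro h K L V V' _ _ _ _ _ _ _ _ _ _ _ _ ρ ρ' hχ hloc hvan S
    exact (StarkVB.starkRat_iff S ρ ρ' σ).2 fun φ Θ hφ => h K L S φ Θ V V' ρ ρ' hφ hχ
      ((local_iff T n _).1 hloc) ((vanishes_iff _).1 (hvan rfl))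

theorem starkLocal_true (T : Finset ℕ) (n : ℕ) (σ : ℂ ≃+* ℂ) :
    StarkL.StarkLocal true T n σ ↔ StarkC.LOC.StarkLocB T n σ := by
  constructor
  · intro h K L _ _ _ _ _ _ S φ Θ V V' _ _ _ _ _ _ ρ ρ' hφ hχ hloc _
    exact (StarkVB.starkRat_iff S ρ ρ' σ).1 (h K L V V' ρ ρ' hχ ((local_iff T n _).2 hloc)
      (fun h => absurd h (by decide)) S) φ Θ hφ
  · intro h K L V V' _ _ _ _ _ _ _ _ _ _ _ _ ρ ρ' hχ hloc _ S
    exact (StarkVB.starkRat_iff S ρ ρ' σ).2 fun φ Θ hφ => h K L S φ Θ V V' ρ ρ' hφ hχ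
      ((local_iff T n _).1 hloc) trivial

theorem starkTrivial_iff (σ : ℂ ≃+* ℂ) : StarkL.StarkTrivial σ ↔ StarkC.LOC.StarkTriv σ := by
  constructor
  · intro h K _ _ φ Θ hφ
    exact (StarkVB.starkRat_iff (K := K) (L := K) ∅ (StarkP.linRep 1)
      (StarkP.linRep (StarkP.twist σ 1)) σ).1 (h K) φ Θ hφ
  · intro h K _ _
    exact (StarkVB.starkRat_iff (K := K) (L := K) ∅ (StarkP.linRep 1)
      (StarkP.linRep (StarkP.twist σ 1)) σ).2 fun φ Θ hφ => h K φ Θ hφ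

/-- The second half of the theorem. -/
theorem stark (E : Type) [Field E] [NumberField E] (T : Finset ℕ) (n : ℕ) (σ : ℂ ≃+* ℂ)
    (hn : 0 < n) :
    (StarkL.StarkLocal false T n σ ↔ StarkV.ClassA E T n σ) ∧
      (StarkL.StarkLocal true T n σ ↔ StarkV.ClassA E T n σ ∧ StarkL.StarkTrivial σ) := by
  rw [starkLocal_false, starkLocal_true, starkTrivial_iff, StarkVB.classA_iff]
  exact ⟨StarkC.LOC.STKA_thm StarkC.LOC.ALLL.sufa E T n σ hn,
    StarkC.LOC.STKB_thm StarkC.LOC.ALLL.sufb E T n σ hn⟩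

end StarkLSB
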