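import Pool.Agent.StarkU.PDefsV

/-!
# The exact range of ideal class characters: definitions

`L/K` is a finite Galois extension of number fields, `T` a finite set of primes, `n ≥ 1`.
-/

open NumberField IsDedekindDomain
open scoped Classical

namespace StarkK

open StarkP StarkV

/-- The local conditions for a function `χ` on `Gal(L/K)`:
(values) the values of `χ` are in `ℚ(ζ_n)`;
(inertia) if `x` is in the decomposition group and `y` in the inertia group of a prime of `L`, `x`
and `y` commute and have coprime orders and `u` is prime to the order of `y`, then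
`χ(x y^u) = χ(x y)`;
(above) `χ(x^a) = χ(x)` if `x` is in the decomposition group of a prime of `L` above a prime number
in `T` and `a` is prime to the order of `x`. -/
structure Local {K L : Type} [Field K] [Field L] [NumberField L] [Algebra K L] (T : Finset ℕ)
    (n : ℕ) (χ : (L ≃ₐ[K] L) → ℂ) : Prop where
  values : ∀ g, χ g ∈ cycField n
  inertia : ∀ (w : HeightOneSpectrum (𝓞 L)) (x y : L ≃ₐ[K] L), FixesPrime w x →
    FrobPow L w 1 y → x * y = y * x → (orderOf x).Coprime (orderOf y) →
    ∀ u : ℕ, u.Coprime (orderOf y) → χ (x * y ^ u) = χ (x * y)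
  above : ∀ w : HeightOneSpectrum (𝓞 L), (∃ p ∈ T, p.Prime ∧ (p : 𝓞 L) ∈ w.asIdeal) →
    ∀ x : L ≃ₐ[K] L, FixesPrime w x → ∀ a : ℕ, a.Coprime (orderOf x) → χ (x ^ a) = χ x

/-- The character of `G` induced from the linear character `ψ` of the subgroup `H`. -/
noncomputable def ind {G : Type} [Group G] [Fintype G] (H : Subgroup G) (ψ : H →* ℂˣ) (g : G) :
    ℂ :=
  (∑ x : G, if h : x⁻¹ * g * x ∈ H then (ψ ⟨x⁻¹ * g * x, h⟩ : ℂ) else 0) / Nat.card H

/-- The linear character `ψ` of the subgroup `H = Gal(N/F)` of `Gal(N/K)` is trivial on all inertia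
groups and on the decomposition groups of the primes of `N` above `T`, and `ψ ^ n = 1`: a (narrow)
ideal class character of the field `F`. -/
structure IsClassChar {K N : Type} [Field K] [Field N] [NumberField N] [Algebra K N]
    (T : Finset ℕ) (n : ℕ) (H : Subgroup (N ≃ₐ[K] N)) (ψ : H →* ℂˣ) : Prop where
  unramified : ∀ (w : HeightOneSpectrum (𝓞 N)) (h : H), FrobPow N w 1 (h : N ≃ₐ[K] N) → ψ h = 1
  split : ∀ w : HeightOneSpectrum (𝓞 N), (∃ p ∈ T, p.Prime ∧ (p : 𝓞 N) ∈ w.asIdeal) →
    ∀ h : H, FixesPrime w (h : N ≃ₐ[K] N) → ψ h = 1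
  order : ψ ^ n = 1

/-- Some nonzero multiple of `χ` is in the group generated by the characters induced from the
linear characters `ψ` of subgroups `H` of `G` with `P H ψ`. -/
def Generated {G : Type} [Group G] [Fintype G] (P : ∀ H : Subgroup G, (H →* ℂˣ) → Prop)
    (χ : G → ℂ) : Prop :=
  ∃ m : ℤ, m ≠ 0 ∧ (fun g => (m : ℂ) * χ g) ∈
    AddSubgroup.closure {f : G → ℂ | ∃ (H : Subgroup G) (ψ : H →* ℂˣ), P H ψ ∧ f = ind H ψ}

/-- For some `N ⊇ L`, `N/K` finite Galois, `χ`, as a character of `Gal(N/K)`, is generated by the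
characters induced from the class characters of all subfields of `N` containing `K`. -/
def Reduces {K L : Type} [Field K] [NumberField K] [Field L] [NumberField L] [Algebra K L]
    [IsGalois K L] (T : Finset ℕ) (n : ℕ) (χ : (L ≃ₐ[K] L) → ℂ) : Prop :=
  ∃ (N : Type) (_ : Field N) (_ : NumberField N) (_ : Algebra K N) (_ : Algebra L N)
    (_ : IsScalarTower K L N) (_ : IsGalois K N),
    Generated (G := N ≃ₐ[K] N) (fun H ψ => IsClassChar T n H ψ)
      (fun g => χ (AlgEquiv.restrictNormalHom L g))

/-- The same with a field `N` which is Galois over `ℚ` and contains a copy of `E`, and with cyclic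
subgroups `H` such that `ψ = 1` or the field `N^H` is totally complex (`H` contains no complex
conjugation). -/
def ReducesStrongly {K L : Type} [Field K] [NumberField K] [Field L] [NumberField L] [Algebra K L]
    [IsGalois K L] (E : Type) [Field E] (T : Finset ℕ) (n : ℕ) (χ : (L ≃ₐ[K] L) → ℂ) : Prop :=
  ∃ (N : Type) (_ : Field N) (_ : NumberField N) (_ : Algebra K N) (_ : Algebra L N)
    (_ : IsScalarTower K L N) (_ : IsGalois K N), IsGalois ℚ N ∧ Nonempty (E →+* N) ∧
    Generated (G := N ≃ₐ[K] N)
      (fun H ψ => IsClassChar T n H ψ ∧ IsCyclic H ∧ (ψ = 1 ∨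
        ∀ (Φ : N →+* ℂ) (c : N ≃ₐ[K] N), ComplexEmbedding.IsConj Φ c → c ∉ H))
      (fun g => χ (AlgEquiv.restrictNormalHom L g))

/-- **The theorem.**  For a character `χ` of `Gal(L/K)` the following are equivalent: `Local`;
`Reduces`; `ReducesStrongly` for all number fields `E`.  If they hold then, for every number field
`E` and every automorphism `σ` of `ℂ`, Stark's assertion up to roots of unity for `σ` and the
characters in the class (A) of `E`, `T`, `n` implies the same for `σ` and `χ`, for all `S`. -/
def Main : Prop :=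
  ∀ (K L : Type) [Field K] [NumberField K] [Field L] [NumberField L] [Algebra K L] [IsGalois K L]
    (V : Type) [AddCommGroup V] [Module ℂ V] [Module.Finite ℂ V]
    (ρ : Representation ℂ (L ≃ₐ[K] L) V) (T : Finset ℕ) (n : ℕ), 0 < n →
    (Local T n ρ.character ↔ Reduces T n ρ.character) ∧
    (Reduces T n ρ.character ↔
      ∀ (E : Type) [Field E] [NumberField E], ReducesStrongly E T n ρ.character) ∧
    (Reduces T n ρ.character → ∀ (E : Type) [Field E] [NumberField E] (σ : ℂ ≃+* ℂ),
      ClassA E T n σ → ∀ (V' : Type) [AddCommGroup V'] [Module ℂ V'] [Module.Finite ℂ V']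
        (ρ' : Representation ℂ (L ≃ₐ[K] L) V'), (∀ g, ρ'.character g = σ (ρ.character g)) →
        ∀ S : Finset (HeightOneSpectrum (𝓞 K)), StarkRat S ρ ρ' σ)

end StarkK
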