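import Pool.Agent.StarkU.PDefsV

/-!
# The exact range of ideal class characters: definitions

`L/K` is a finite Galois extension of number fields, `T` a finite set of primes, `n ≥ 1`.
-/

open NumberField IsDedekindDomain
open scoped Classical

namespace StarkL

open StarkP StarkV

/-- The local conditions for a function `χ` on `Gal(L/K)`:
(values) the values of `χ` are in `ℚ(ζ_n)`;
(inertia) if `x` is in the decomposition group and `y` in the inertia group of a prime of `L`, `x`
and `y` commute and have coprime orders and `u` is prime to the order of `y`, then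
`χ(x y^u) = χ(x y)`;
(above) `χ(x^a) = χ(x)` if `x` is in the decomposition group of a prime of `L` above a prime number
in `T` and `a` is prime to the order of `x`. -/
structure Local {K L : Type} [Field K] [Field L] [NumberField L] [Algebra K L] (T : Finset ℕ)
    (n : ℕ) (χ : (L ≃ₐ[K] L) → ℂ) : Prop where
  values : ∀ g, χ g ∈ cycField n
  inertia : ∀ (w : HeightOneSpectrum (𝓞 L)) (x y : L ≃ₐ[K] L), FixesPrime w x →
    FrobPow L w 1 y → x * y = y * x → (orderOf x).Coprime (orderOf y) →
    ∀ u : ℕ, u.Coprime (orderOf y) → χ (x * y ^ u) = χ (x * y)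
  above : ∀ w : HeightOneSpectrum (𝓞 L), (∃ p ∈ T, p.Prime ∧ (p : 𝓞 L) ∈ w.asIdeal) →
    ∀ x : L ≃ₐ[K] L, FixesPrime w x → ∀ a : ℕ, a.Coprime (orderOf x) → χ (x ^ a) = χ x

/-- `χ(c) = 0` for all complex conjugations `c ∈ Gal(L/K)` (`c = 1` if `L` has a real place). -/
def VanishesAtConj {K L : Type} [Field K] [Field L] [Algebra K L] (χ : (L ≃ₐ[K] L) → ℂ) : Prop :=
  ∀ (Φ : L →+* ℂ) (c : L ≃ₐ[K] L), ComplexEmbedding.IsConj Φ c → χ c = 0

/-- The character of `G` induced from the linear character `ψ` of the subgroup `H`. -/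
noncomputable def ind {G : Type} [Group G] [Fintype G] (H : Subgroup G) (ψ : H →* ℂˣ) (g : G) :
    ℂ :=
  (∑ x : G, if h : x⁻¹ * g * x ∈ H then (ψ ⟨x⁻¹ * g * x, h⟩ : ℂ) else 0) / Nat.card H

/-- `ψ` is a linear character of `H = Gal(N/F)` with `ψ ^ n = 1`, the field `F` is totally complex,
`ψ` is trivial on all inertia groups and on the decomposition groups of the primes above `T`: an
ideal class character of `F`. -/
structure IsClassChar {K N : Type} [Field K] [Field N] [NumberField N] [Algebra K N]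
    (T : Finset ℕ) (n : ℕ) (H : Subgroup (N ≃ₐ[K] N)) (ψ : H →* ℂˣ) : Prop where
  complex : ∀ (Φ : N →+* ℂ) (c : N ≃ₐ[K] N), ComplexEmbedding.IsConj Φ c → c ∉ H
  unramified : ∀ (w : HeightOneSpectrum (𝓞 N)) (h : H), FrobPow N w 1 (h : N ≃ₐ[K] N) → ψ h = 1
  split : ∀ w : HeightOneSpectrum (𝓞 N), (∃ p ∈ T, p.Prime ∧ (p : 𝓞 N) ∈ w.asIdeal) →
    ∀ h : H, FixesPrime w (h : N ≃ₐ[K] N) → ψ h = 1
  order : ψ ^ n = 1

/-- Some nonzero multiple of `χ` is in the group generated by the characters induced from the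
linear characters `ψ` of subgroups `H` of `G` with `P H ψ`. -/
def Generated {G : Type} [Group G] [Fintype G] (P : ∀ H : Subgroup G, (H →* ℂˣ) → Prop)
    (χ : G → ℂ) : Prop :=
  ∃ m : ℤ, m ≠ 0 ∧ (fun g => (m : ℂ) * χ g) ∈
    AddSubgroup.closure {f : G → ℂ | ∃ (H : Subgroup G) (ψ : H →* ℂˣ), P H ψ ∧ f = ind H ψ}

/-- For some `N ⊇ L`, `N/K` finite Galois, `χ`, as a character of `Gal(N/K)`, is generated by the
characters induced from class characters and, if `z` is true, from trivial characters of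
subgroups. -/
def Reduces {K L : Type} [Field K] [NumberField K] [Field L] [NumberField L] [Algebra K L]
    [IsGalois K L] (z : Bool) (T : Finset ℕ) (n : ℕ) (χ : (L ≃ₐ[K] L) → ℂ) : Prop :=
  ∃ (N : Type) (_ : Field N) (_ : NumberField N) (_ : Algebra K N) (_ : Algebra L N)
    (_ : IsScalarTower K L N) (_ : IsGalois K N),
    Generated (G := N ≃ₐ[K] N) (fun H ψ => IsClassChar T n H ψ ∨ (z = true ∧ ψ = 1))
      (fun g => χ (AlgEquiv.restrictNormalHom L g))

/-- The same with cyclic `H` and a field `N` which is Galois over `ℚ` and contains a copy of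
`E`. -/
def ReducesStrongly {K L : Type} [Field K] [NumberField K] [Field L] [NumberField L] [Algebra K L]
    [IsGalois K L] (E : Type) [Field E] (z : Bool) (T : Finset ℕ) (n : ℕ)
    (χ : (L ≃ₐ[K] L) → ℂ) : Prop :=
  ∃ (N : Type) (_ : Field N) (_ : NumberField N) (_ : Algebra K N) (_ : Algebra L N)
    (_ : IsScalarTower K L N) (_ : IsGalois K N), IsGalois ℚ N ∧ Nonempty (E →+* N) ∧
    Generated (G := N ≃ₐ[K] N)
      (fun H ψ => IsCyclic H ∧ (IsClassChar T n H ψ ∨ (z = true ∧ ψ = 1)))
      (fun g => χ (AlgEquiv.restrictNormalHom L g))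

/-- Stark's conjecture up to roots of unity for the automorphism `σ` (the assertion `StarkRat`) for
all finite Galois extensions `L/K` of number fields, all `S` and all characters `χ` of `Gal(L/K)`
with the local conditions and, if `z` is false, with `χ(c) = 0` for all complex conjugations
`c`. -/
def StarkLocal (z : Bool) (T : Finset ℕ) (n : ℕ) (σ : ℂ ≃+* ℂ) : Prop :=
  ∀ (K L V V' : Type) [Field K] [NumberField K] [Field L] [NumberField L] [Algebra K L]
    [IsGalois K L] [AddCommGroup V] [Module ℂ V] [Module.Finite ℂ V]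
    [AddCommGroup V'] [Module ℂ V'] [Module.Finite ℂ V']
    (ρ : Representation ℂ (L ≃ₐ[K] L) V) (ρ' : Representation ℂ (L ≃ₐ[K] L) V'),
    (∀ g, ρ'.character g = σ (ρ.character g)) → Local T n ρ.character →
    (z = false → VanishesAtConj ρ.character) →
    ∀ S : Finset (HeightOneSpectrum (𝓞 K)), StarkRat S ρ ρ' σ

/-- The assertion `StarkRat` with `S = S_∞` for `σ` and the trivial character of `Gal(K/K)`, all
number fields `K`. -/
def StarkTrivial (σ : ℂ ≃+* ℂ) : Prop :=
  ∀ (K : Type) [Field K] [NumberField K],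
    StarkRat (K := K) (L := K) ∅ (linRep (1 : (K ≃ₐ[K] K) →* ℂˣ))
      (linRep (twist σ (1 : (K ≃ₐ[K] K) →* ℂˣ))) σ

/-- **The theorem.** -/
def Main : Prop :=
  (∀ (K L : Type) [Field K] [NumberField K] [Field L] [NumberField L] [Algebra K L] [IsGalois K L]
    (V : Type) [AddCommGroup V] [Module ℂ V] [Module.Finite ℂ V]
    (ρ : Representation ℂ (L ≃ₐ[K] L) V) (z : Bool) (T : Finset ℕ) (n : ℕ), 0 < n →
    ((Local T n ρ.character ∧ (z = false → VanishesAtConj ρ.character)) ↔
      Reduces z T n ρ.character) ∧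
    (Reduces z T n ρ.character ↔
      ∀ (E : Type) [Field E] [NumberField E], ReducesStrongly E z T n ρ.character)) ∧
  ∀ (E : Type) [Field E] [NumberField E] (T : Finset ℕ) (n : ℕ) (σ : ℂ ≃+* ℂ), 0 < n →
    (StarkLocal false T n σ ↔ ClassA E T n σ) ∧
    (StarkLocal true T n σ ↔ ClassA E T n σ ∧ StarkTrivial σ)

end StarkL
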