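import Pool.Agent.StarkLoc.PDefsK

/-!
# The exact range of ideal class characters: definitions for the final statement
-/

open NumberField IsDedekindDomain
open scoped Classical

namespace StarkK

open StarkP StarkV

/-- `ψ` is a class character (`IsClassChar`), the group `H = Gal(N/F)` is cyclic, and `ψ = 1` or the
field `F` is totally complex (`H` contains no complex conjugation). -/
def IsCyclicClassChar {K N : Type} [Field K] [Field N] [NumberField N] [Algebra K N]
    (T : Finset ℕ) (n : ℕ) (H : Subgroup (N ≃ₐ[K] N)) (ψ : H →* ℂˣ) : Prop :=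
  IsClassChar T n H ψ ∧ IsCyclic H ∧ (ψ = 1 ∨
    ∀ (Φ : N →+* ℂ) (c : N ≃ₐ[K] N), ComplexEmbedding.IsConj Φ c → c ∉ H)

/-- `Reduces` with a field `N` which is Galois over `ℚ` and contains a copy of `E`, and with
`IsCyclicClassChar` instead of `IsClassChar`. -/
def ReducesCyclic {K L : Type} [Field K] [NumberField K] [Field L] [NumberField L] [Algebra K L]
    [IsGalois K L] (E : Type) [Field E] (T : Finset ℕ) (n : ℕ) (χ : (L ≃ₐ[K] L) → ℂ) : Prop :=
  ∃ (N : Type) (_ : Field N) (_ : NumberField N) (_ : Algebra K N) (_ : Algebra L N)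
    (_ : IsScalarTower K L N) (_ : IsGalois K N), IsGalois ℚ N ∧ Nonempty (E →+* N) ∧
    Generated (G := N ≃ₐ[K] N) (fun H ψ => IsCyclicClassChar T n H ψ)
      (fun g => χ (AlgEquiv.restrictNormalHom L g))

/-- Stark's assertion up to roots of unity for the character of `ρ`, the automorphism `σ` and all
`S`. -/
def StarkRatAll {K L : Type} [Field K] [NumberField K] [Field L] [NumberField L] [Algebra K L]
    [IsGalois K L] {V : Type} [AddCommGroup V] [Module ℂ V] (ρ : Representation ℂ (L ≃ₐ[K] L) V)
    (σ : ℂ ≃+* ℂ) : Prop :=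
  ∀ (V' : Type) [AddCommGroup V'] [Module ℂ V'] [Module.Finite ℂ V']
    (ρ' : Representation ℂ (L ≃ₐ[K] L) V'), (∀ g, ρ'.character g = σ (ρ.character g)) →
    ∀ S : Finset (HeightOneSpectrum (𝓞 K)), StarkRat S ρ ρ' σ

end StarkK
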