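import Pool.Agent.StarkU.UNTH

/-!
# The exact range of ideal class characters: statements of the modules

`L/K` a finite Galois extension of number fields, `χ` a character of `Gal(L/K)`, `T` a finite set
of primes, `n ≥ 1`.  Local conditions:
(i) `χ` has values in `ℚ(ζ_n)`;
(ii) `χ(x y^u) = χ(x y)` for `x ∈ D_w`, `y ∈ I_w` which commute and have coprime orders, `u` prime
to `ord y`, for all primes `w` of `L`;
(iii) `χ(x^a) = χ(x)` for `x ∈ D_w`, `w` above `T`, `a` prime to `ord x`;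
(iv) `χ(c) = 0` for all complex conjugations `c ∈ Gal(L/K)`.

THEOREM A.  Equivalent: (1) (i)-(iv); (2) for some `N ⊇ L`, `N/K` finite Galois, `χ` (on
`Gal(N/K)`) is in the `ℚ`-span of the `Ind_H^{Gal(N/K)} ψ`, `ψ^n = 1`, `N^H` totally complex, `ψ`
unramified everywhere and trivial on the decomposition groups above `T`; (3) the same with `N/ℚ`
Galois, `N` containing a given number field `E` and `H` cyclic.

THEOREM B.  The same without (iv), if the `Ind_H 1`, `H` any subgroup, are added in (2), (3)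
(cyclic `H` in (3)).

THEOREM C.  Stark's assertion up to roots of unity (one `σ`).

## Proof

(1) ⇒ (3).  Replace `L` by a field `L' ⊇ L`, `L' ⊇ E`, Galois over `ℚ` (the conditions are
inherited: the image of `D_W`, `I_W` lies in `D_w`, `I_w`, orders get smaller).  By `Stmt_LRES`
there is `N₁ ⊇ L'` containing `i` such that for `X ∈ D_W` (in `Gal(N₁/K)`), `a` prime to `ord X`,
`X^{a-1} ∈ I_W` we have `x := X|_{L'} = d y`, `x^a = d y^a` with `d`, `y` powers of `x` of coprime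
orders, `y ∈ I_w`.  So (ii) gives `χ(x^a) = χ(x)`.  This is the hypothesis `hU2` of
`UALGC.typeA_span` (over `K`: `Stmt_LSPAN`); `hU1` is (iii), `hcc` is (iv).

(2) ⇒ (1).  `f := Ind_H ψ` satisfies `f(Z^b) = f(Z)` for `Z ∈ D_W`, `b` prime to `ord Z` and
`Z^{b-1} ∈ I_W` (or `W` above `T`): `g⁻¹ Z^b g ∈ H ↔ g⁻¹ Z g ∈ H`, and then `ψ(g⁻¹ Z^{b-1} g) = 1`
as `g⁻¹ Z^{b-1} g ∈ H ∩ I_{g⁻¹W}`.  Given `x ∈ D_w`, `y ∈ I_w` as in (ii) choose `W` above `w`,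
`X ∈ D_W` above `x` whose order has only prime factors of `ord x`, `Y ∈ I_W` above `y` (surjectivity
of `D_W → D_w`, `I_W → I_w`), `Z := XY`.  The order `k` of `Z` modulo `I_W` has only prime factors
of `ord x`, so there is `b` prime to `ord Z` with `b ≡ 1` mod `k` and mod `ord x`, `b ≡ u` mod
`ord y`.  Then `χ(x y^u) = f(Z^b) = f(Z) = χ(x y)`.
-/

open NumberField IsDedekindDomain
open scoped TensorProduct Classical

namespace StarkC.LOC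

/-- Conditions (i), (ii), (iii). -/
structure LocC {K L : Type} [Field K] [Field L] [NumberField L] [Algebra K L] (T : Finset ℕ)
    (n : ℕ) (χ : (L ≃ₐ[K] L) → ℂ) : Prop where
  val : ∀ g, χ g ∈ Cyc n
  ine : ∀ (w : HeightOneSpectrum (𝓞 L)) (x y : L ≃ₐ[K] L), Dec w x → FrobPow L w 1 y →
    x * y = y * x → (orderOf x).Coprime (orderOf y) → ∀ u : ℕ, u.Coprime (orderOf y) →
    χ (x * y ^ u) = χ (x * y)
  dec : ∀ (w : HeightOneSpectrum (𝓞 L)) (x : L ≃ₐ[K] L) (a : ℕ), AboveT T w → Dec w x →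
    a.Coprime (orderOf x) → χ (x ^ a) = χ x

/-- Condition (iv). -/
def Van {K L : Type} [Field K] [Field L] [Algebra K L] (χ : (L ≃ₐ[K] L) → ℂ) : Prop :=
  ∀ c : L ≃ₐ[K] L, IsCC c → χ c = 0

/-- Type (A) over `K`: `N^H` is totally complex, `ψ` is unramified everywhere and trivial on the
decomposition groups of the primes above `T`. -/
def TypeAK {K N : Type} [Field K] [Field N] [NumberField N] [Algebra K N] (T : Finset ℕ)
    (H : Subgroup (N ≃ₐ[K] N)) (ψ : H →* ℂˣ) : Prop :=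
  (∀ c ∈ H, ¬ IsCC c) ∧
    (∀ (W : HeightOneSpectrum (𝓞 N)) (h : H), FrobPow N W 1 (h : N ≃ₐ[K] N) → ψ h = 1) ∧
    ∀ (W : HeightOneSpectrum (𝓞 N)) (h : H), AboveT T W → Dec W (h : N ≃ₐ[K] N) → ψ h = 1

/-! ### M1: the field `N₁` -/

/-- Let `L/ℚ` be Galois.  There is `N ⊇ L`, Galois over `ℚ`, containing `i`, such that for `X` in
the decomposition group of a prime `W` of `N` and `a` prime to `ord X` with `X^a X⁻¹` in the inertia
group of `W`, the restriction `x` of `X` to `L` has the following property: `x = x^e x^e'`,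
`x^a = x^e (x^e')^a`, the orders of `x^e`, `x^e'` are coprime and `x^e'` is in the inertia group of
the prime below `W`.

Proof.  `N` = a field containing `i` and the primitive `(ℓ^r - 1)`-th roots of unity for all primes
`ℓ` which ramify in `L` (`URAM_thm`, `UEXT_thm`, for the product of `X² + 1` and the cyclotomic
polynomials `Φ_{ℓ^r-1}`), `r = |Gal(L/ℚ)|²`.  Let `ℓ ∈ W`, `w` the prime of `L` below `W`.
If `I_w = 1` then `x^a = x`: take `e = 1`, `e' = 0`.  Otherwise `X` acts on the residue field of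
`W` as `z ↦ z^(ℓ^m)` (`SREG.frob_of_mv` with `K = ℚ`), and `ζ` (primitive `(ℓ^r-1)`-th root of
unity) has the same order modulo `W` (`Polynomial.isRoot_cyclotomic_iff`), so
`ζ^(ℓ^(m a)) ≡ X^a ζ ≡ X ζ ≡ ζ^(ℓ^m)` gives `ℓ^r - 1 ∣ ℓ^(m(a-1)) - 1`, so `r ∣ m (a - 1)`
(`LB.dvd_of_pow_sub_one_dvd`; `a = 0` only if `X = 1`).  Let `φ ∈ D_w` be a Frobenius
(`FrobPow L w ℓ φ`), `F` the order of `φ` modulo `I_w` (a divisor of `|Gal(L/ℚ)|`), `h = gcd(F, m)`,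
`F = f h`, `m = m' h`, so `f`, `m'` are coprime.  `x^f ∈ I_w`, as `FrobPow L w (ℓ^(m f))` holds for
`x^f` and `φ^(m f)`, and `F ∣ m f`.  Write `ord x = s t`, `s`, `t` coprime, `t` prime to `f`, `s`
prime to all numbers prime to `f`.  `h s ∣ |G|² = r ∣ m' h (a - 1)`, so `s ∣ m' (a - 1)`,
`s ∣ a - 1`.  Take `e ≡ 1 (s)`, `≡ 0 (t)`, `e' ≡ 0 (s)`, `≡ 1 (t)`.  `x^e'` is in `I_w` since
it is a power of `(x^f)`: `e' f f'` with `f f' ≡ 1 (t)`. -/
def Stmt_LRES : Prop :=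
  ∀ (L : Type) [Field L] [NumberField L] [IsGalois ℚ L],
    ∃ (N : Type) (_ : Field N) (_ : NumberField N) (_ : Algebra L N) (_ : IsGalois ℚ N),
      (∃ i : N, i ^ 2 = -1) ∧
      ∀ (W : HeightOneSpectrum (𝓞 N)) (X : N ≃ₐ[ℚ] N) (a : ℕ), Dec W X → a.Coprime (orderOf X) →
        FrobPow N W 1 (X ^ a * X⁻¹ : N ≃ₐ[ℚ] N) →
        ∀ x : L ≃ₐ[ℚ] L, x = AlgEquiv.restrictNormalHom L X →
          ∃ e e' : ℕ, x ^ e * x ^ e' = x ∧ (orderOf (x ^ e)).Coprime (orderOf (x ^ e')) ∧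
            FrobPow L (W.under (𝓞 L)) 1 (x ^ e' : L ≃ₐ[ℚ] L) ∧ x ^ e * (x ^ e') ^ a = x ^ a

/-! ### M2: the span theorem over `K` -/

/-- `UALGC.typeA_span` for `Gal(N/K)` instead of `Gal(N/ℚ)`. -/
def Stmt_LSPAN : Prop :=
  ∀ (K N₁ N₂ N : Type) [Field K] [NumberField K] [Field N₁] [NumberField N₁] [IsGalois ℚ N₁]
    [Field N₂] [NumberField N₂] [IsGalois ℚ N₂] [Field N] [NumberField N] [IsGalois ℚ N]
    [Algebra K N₁] [Algebra K N₂] [Algebra K N] [Algebra N₁ N₂] [Algebra N₁ N]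
    [Algebra N₂ N] [IsScalarTower N₁ N₂ N] [IsScalarTower K N₁ N₂] [IsScalarTower K N₁ N]
    [IsScalarTower K N₂ N] [IsGalois K N₁] [IsGalois K N₂] [IsGalois K N]
    (T T₁ : Finset ℕ) (f₁ : (N₁ ≃ₐ[K] N₁) → ℂ), T ⊆ T₁ →
    f₁ ∈ SpanQ (G := N₁ ≃ₐ[K] N₁) (fun _ _ => True) →
    (∃ i : N₁, i ^ 2 = -1) → (∀ c : N₁ ≃ₐ[K] N₁, IsCC c → f₁ c = 0) →
    (∀ (W : HeightOneSpectrum (𝓞 N₁)) (x : N₁ ≃ₐ[K] N₁) (a : ℕ), Dec W x →
      a.Coprime (orderOf x) → AboveT T W → f₁ (x ^ a) = f₁ x) →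
    (∀ (W : HeightOneSpectrum (𝓞 N₁)) (x : N₁ ≃ₐ[K] N₁) (a : ℕ), Dec W x →
      a.Coprime (orderOf x) → FrobPow N₁ W 1 (x ^ a * x⁻¹ : N₁ ≃ₐ[K] N₁) → f₁ (x ^ a) = f₁ x) →
    (∀ W : HeightOneSpectrum (𝓞 N₁), ¬ AboveT T₁ W → ∀ g : N₁ ≃ₐ[ℚ] N₁,
      FrobPow N₁ W 1 g → g = 1) →
    (∀ (h : N₂ ≃ₐ[ℚ] N₂) (P Q : HeightOneSpectrum (𝓞 N₂)), Dec P h → Dec Q h →
      AboveT T₁ P → AboveT T₁ Q → P.under (𝓞 N₁) ≠ Q.under (𝓞 N₁) →
      (AlgEquiv.restrictNormalHom N₁ h : N₁ ≃ₐ[ℚ] N₁) = 1) →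
    (∀ (c : N₂ ≃ₐ[ℚ] N₂) (W : HeightOneSpectrum (𝓞 N₂)), IsCC c → Dec W c →
      AboveT T₁ W → (AlgEquiv.restrictNormalHom N₁ c : N₁ ≃ₐ[ℚ] N₁) = 1) →
    (∀ (h : N ≃ₐ[ℚ] N) (P Q : HeightOneSpectrum (𝓞 N)), Dec P h → Dec Q h →
      AboveT T₁ P → AboveT T₁ Q → P.under (𝓞 N₂) ≠ Q.under (𝓞 N₂) →
      (AlgEquiv.restrictNormalHom N₂ h : N₂ ≃ₐ[ℚ] N₂) = 1) →
    (∀ g c : N ≃ₐ[ℚ] N, IsCC c → g * c = c * g →
      (AlgEquiv.restrictNormalHom N₁ g : N₁ ≃ₐ[ℚ] N₁) = 1 ∨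
        (AlgEquiv.restrictNormalHom N₁ g : N₁ ≃ₐ[ℚ] N₁) = AlgEquiv.restrictNormalHom N₁ c) →
    (fun g : N ≃ₐ[K] N => f₁ (AlgEquiv.restrictNormalHom N₁ g)) ∈
      SpanQ (G := N ≃ₐ[K] N) (fun H ψ => IsCyclic H ∧ TypeAK T H ψ)

/-! ### Sufficiency -/

/-- (1) ⇒ (3) of Theorem A, for all virtual characters. -/
def Stmt_LSUFA : Prop :=
  ∀ (K L : Type) [Field K] [NumberField K] [Field L] [NumberField L] [Algebra K L]
    [IsGalois K L] (T : Finset ℕ) (n : ℕ), 0 < n → ∀ χ : (L ≃ₐ[K] L) → ℂ,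
    χ ∈ SpanQ (G := L ≃ₐ[K] L) (fun _ _ => True) → LocC T n χ → Van χ →
    ∀ (E : Type) [Field E] [NumberField E],
      ∃ (N : Type) (_ : Field N) (_ : NumberField N) (_ : Algebra K N) (_ : Algebra L N)
        (_ : IsScalarTower K L N) (_ : IsGalois ℚ N) (_ : IsGalois K N), Nonempty (E →+* N) ∧
        (fun g : N ≃ₐ[K] N => χ (AlgEquiv.restrictNormalHom L g)) ∈
          SpanQ (G := N ≃ₐ[K] N) (fun H ψ => IsCyclic H ∧ TypeAK T H ψ ∧ ψ ^ n = 1)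

/-- (1) ⇒ (3) of Theorem B, for all virtual characters. -/
def Stmt_LSUFB : Prop :=
  ∀ (K L : Type) [Field K] [NumberField K] [Field L] [NumberField L] [Algebra K L]
    [IsGalois K L] (T : Finset ℕ) (n : ℕ), 0 < n → ∀ χ : (L ≃ₐ[K] L) → ℂ,
    χ ∈ SpanQ (G := L ≃ₐ[K] L) (fun _ _ => True) → LocC T n χ →
    ∀ (E : Type) [Field E] [NumberField E],
      ∃ (N : Type) (_ : Field N) (_ : NumberField N) (_ : Algebra K N) (_ : Algebra L N)
        (_ : IsScalarTower K L N) (_ : IsGalois ℚ N) (_ : IsGalois K N), Nonempty (E →+* N) ∧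
        (fun g : N ≃ₐ[K] N => χ (AlgEquiv.restrictNormalHom L g)) ∈
          SpanQ (G := N ≃ₐ[K] N)
            (fun H ψ => IsCyclic H ∧ ((TypeAK T H ψ ∧ ψ ^ n = 1) ∨ ψ = 1))

/-- M5: the part at the complex conjugations.  `χ` a virtual character; the function equal to
`χ(c)` at complex conjugations `c` and `0` elsewhere is in the `ℚ`-span of the permutation
characters of cyclic subgroups.

Proof.  For `c² = 1` let `δ_c(g) = #{x : x⁻¹ g x = c}`.  `δ_1 = Ind_{1} 1`, and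
`δ_1 + δ_c = 2 Ind_{⟨c⟩} 1` for `c ≠ 1`.  The function is `|G|⁻¹ Σ_c χ(c) δ_c`, and `χ(c) ∈ ℚ`
(`UALG.spanQ_invol`). -/
def Stmt_LRAT : Prop :=
  ∀ (G : Type) [Group G] [Fintype G] (P : G → Prop) (χ : G → ℂ),
    χ ∈ SpanQ (G := G) (fun _ _ => True) → (∀ c, P c → c * c = 1) →
    (∀ x c, P c → P (x⁻¹ * c * x)) →
    (fun g => if P g then χ g else 0) ∈ SpanQ (G := G) (fun H ψ => IsCyclic H ∧ ψ = 1)

/-! ### M3: necessity -/

/-- (2) ⇒ (1) of Theorems A and B. -/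
def Stmt_LNEC : Prop :=
  ∀ (K L N : Type) [Field K] [NumberField K] [Field L] [NumberField L] [Field N] [NumberField N]
    [Algebra K L] [Algebra K N] [Algebra L N] [IsScalarTower K L N] [IsGalois K L] [IsGalois K N]
    (T : Finset ℕ) (n : ℕ), 0 < n → ∀ χ : (L ≃ₐ[K] L) → ℂ,
    ((fun g : N ≃ₐ[K] N => χ (AlgEquiv.restrictNormalHom L g)) ∈
      SpanQ (G := N ≃ₐ[K] N) (fun H ψ => (TypeAK T H ψ ∧ ψ ^ n = 1) ∨ ψ = 1) → LocC T n χ) ∧
    ((fun g : N ≃ₐ[K] N => χ (AlgEquiv.restrictNormalHom L g)) ∈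
      SpanQ (G := N ≃ₐ[K] N) (fun H ψ => TypeAK T H ψ ∧ ψ ^ n = 1) → LocC T n χ ∧ Van χ)

end StarkC.LOC
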