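import Pool.Agent.StarkU.UALG
import Pool.Agent.StarkU.UEXT
import Pool.Agent.StarkLoc.Stmts

/-!
# Module RES: the field `N₁` with many roots of unity (helper96)
-/

open NumberField IsDedekindDomain
open scoped TensorProduct Classical

namespace StarkC.LOC.RES

/-! ### numbers -/

theorem split_num {n F k b : ℕ} (hn : 0 < n) (h1 : n * F ∣ k * b) (h2 : F ∣ k * n) :
    ∃ n₁ n₂ : ℕ, n = n₁ * n₂ ∧ n₁.Coprime n₂ ∧ n₁ ∣ b ∧ F ∣ k * n₁ := by
  obtain ⟨g, h, b', hg0, hgh, hco⟩ : ∃ g h b', 0 < g ∧ (n = g * h ∧ b = g * b') ∧ h.Coprime b' := by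
    have hg0 : 0 < n.gcd b := Nat.gcd_pos_of_pos_left _ hn
    refine ⟨n.gcd b, n / n.gcd b, b / n.gcd b, hg0, ⟨?_, ?_⟩, Nat.coprime_div_gcd_div_gcd hg0⟩
    · rw [Nat.mul_div_cancel' (Nat.gcd_dvd_left n b)]
    · rw [Nat.mul_div_cancel' (Nat.gcd_dvd_right n b)]
  obtain ⟨hn', hb'⟩ := hgh
  have hh0 : 0 < h := by
    rcases Nat.eq_zero_or_pos h with h0 | h0
    · rw [h0, mul_zero] at hn'; omega
    · exact h0
  -- the part of `n` composed of the primes dividing `h`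
  set n₂ := n.gcd (h ^ n) with hn₂
  have hd2 : n₂ ∣ n := Nat.gcd_dvd_left _ _
  have hn20 : 0 < n₂ := Nat.gcd_pos_of_pos_left _ hn
  obtain ⟨n₁, hn₁⟩ := hd2
  have hn10 : 0 < n₁ := by
    rcases Nat.eq_zero_or_pos n₁ with h0 | h0
    · rw [h0, mul_zero] at hn₁; omega
    · exact h0
  -- `n₁` is prime to `h`
  have hc1 : n₁.Coprime h := by
    rw [Nat.coprime_iff_gcd_eq_one]
    by_contra hne
    obtain ⟨p, hp, hpd⟩ := Nat.exists_prime_and_dvd hne
    have hp1 : p ∣ n₁ := hpd.trans (Nat.gcd_dvd_left _ _)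
    have hp2 : p ∣ h := hpd.trans (Nat.gcd_dvd_right _ _)
    -- `p ^ v ∣ n`, `v` maximal; then `p ^ v ∣ n₂`
    set v := n.factorization p with hv
    have hpv : p ^ v ∣ n := Nat.ordProj_dvd n p
    have hvn : v ≤ n := (Nat.factorization_lt p hn.ne').le
    have hpv2 : p ^ v ∣ n₂ := Nat.dvd_gcd hpv ((pow_dvd_pow p hvn).trans (pow_dvd_pow_of_dvd hp2 n))
    have hpv3 : p ^ (v + 1) ∣ n := by
      rw [hn₁, pow_succ]
      exact mul_dvd_mul hpv2 hp1
    exact Nat.pow_succ_factorization_not_dvd hn.ne' hp hpv3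
  have hc2 : n₁.Coprime n₂ := by
    have h3 : n₁.Coprime (h ^ n) := Nat.Coprime.pow_right n hc1
    exact h3.coprime_dvd_right (Nat.gcd_dvd_right _ _)
  have hc3 : n₂.Coprime b' := by
    have h3 : (h ^ n).Coprime b' := Nat.Coprime.pow_left n hco
    exact h3.coprime_dvd_left (Nat.gcd_dvd_right _ _)
  refine ⟨n₁, n₂, by rw [hn₁, mul_comm], hc2, ?_, ?_⟩
  · rw [hb']
    have h3 : n₁ ∣ g * h := by rw [← hn', hn₁]; exact Nat.dvd_mul_left _ _
    exact (hc1.dvd_of_dvd_mul_right h3).mul_right _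
  · have h3 : F ∣ k * b' := by
      have h4 : g * (h * F) ∣ g * (k * b') := by
        have e1 : g * (h * F) = n * F := by rw [hn']; ring
        have e2 : g * (k * b') = k * b := by rw [hb']; ring
        rw [e1, e2]
        exact h1
      have h5 := Nat.dvd_of_mul_dvd_mul_left hg0 h4
      exact (Nat.dvd_mul_left F h).trans h5
    have h4 : F ∣ k * n.gcd b' := by
      rw [← Nat.gcd_mul_left]
      exact Nat.dvd_gcd h2 h3
    refine h4.trans (mul_dvd_mul_left k ?_)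
    have h5 : n.gcd b' ∣ n₁ * n₂ := by
      rw [mul_comm n₁, ← hn₁]
      exact Nat.gcd_dvd_left _ _
    refine Nat.Coprime.dvd_of_dvd_mul_right ?_ h5
    exact (hc3.coprime_dvd_right (Nat.gcd_dvd_right n b')).symm

/-! ### Frobenius powers -/

section Frob

variable {N : Type} [Field N] [NumberField N]

theorem frob_iff {K : Type} [Field K] [Algebra K N] (W : HeightOneSpectrum (𝓞 N)) (q : ℕ)
    (g : N ≃ₐ[K] N) : FrobPow N W q g ↔ ∀ z : 𝓞 N, Ideal.Quotient.mk W.asIdeal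
      (STB.oMap (g : N ≃+* N) z) = Ideal.Quotient.mk W.asIdeal z ^ q := by
  constructor
  · intro h z
    rw [← map_pow, Ideal.Quotient.mk_eq_mk_iff_sub_mem]
    exact h z _ rfl
  · intro h x y hy
    have h1 : y = STB.oMap (g : N ≃+* N) x := RingOfIntegers.ext hy
    rw [← Ideal.Quotient.mk_eq_mk_iff_sub_mem, h1, h x, map_pow]

theorem frob_mul {K : Type} [Field K] [Algebra K N] {W : HeightOneSpectrum (𝓞 N)} {q q' : ℕ}
    {g g' : N ≃ₐ[K] N} (h : FrobPow N W q g) (h' : FrobPow N W q' g') :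
    FrobPow N W (q * q') (g * g' : N ≃ₐ[K] N) := by
  rw [frob_iff] at *
  intro z
  have e : STB.oMap ((g * g' : N ≃ₐ[K] N) : N ≃+* N) z =
      STB.oMap (g : N ≃+* N) (STB.oMap (g' : N ≃+* N) z) := RingOfIntegers.ext rfl
  rw [e, h, h', ← pow_mul, mul_comm q q']

theorem frob_pow {K : Type} [Field K] [Algebra K N] {W : HeightOneSpectrum (𝓞 N)} {q : ℕ}
    {g : N ≃ₐ[K] N} (h : FrobPow N W q g) (j : ℕ) :
    FrobPow N W (q ^ j) (g ^ j : N ≃ₐ[K] N) := by
  induction j with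
  | zero =>
    rw [pow_zero, pow_zero, frob_iff]
    intro z
    rw [pow_one]
    congr 1
  | succ j ih =>
    rw [pow_succ, pow_succ]
    exact frob_mul ih h

theorem frob_exists {K : Type} [Field K] [Algebra K N] (W : HeightOneSpectrum (𝓞 N))
    (g : N ≃ₐ[K] N) (hg : Dec W g) {l : ℕ} (hl : l.Prime) (hlW : (l : 𝓞 N) ∈ W.asIdeal) :
    ∃ k : ℕ, FrobPow N W (l ^ k) g := by
  have hmax : W.asIdeal.IsMaximal := W.isPrime.isMaximal W.ne_bot
  let _ : Field (𝓞 N ⧸ W.asIdeal) := Ideal.Quotient.field W.asIdeal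
  have hfin : Finite (𝓞 N ⧸ W.asIdeal) := Ideal.finiteQuotientOfFreeOfNeBot W.asIdeal W.ne_bot
  have hcast : (l : 𝓞 N ⧸ W.asIdeal) = 0 := by
    rw [← map_natCast (Ideal.Quotient.mk W.asIdeal), Ideal.Quotient.eq_zero_iff_mem]
    exact hlW
  have hfact : Fact l.Prime := ⟨hl⟩
  have hch : CharP (𝓞 N ⧸ W.asIdeal) l := by
    have h1 : ringChar (𝓞 N ⧸ W.asIdeal) ∣ l := ringChar.dvd hcast
    have h2 : ringChar (𝓞 N ⧸ W.asIdeal) ≠ 1 := CharP.ringChar_ne_one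
    have h3 : ringChar (𝓞 N ⧸ W.asIdeal) = l := ((Nat.dvd_prime hl).1 h1).resolve_left h2
    rw [← h3]
    exact ringChar.charP _
  let _ : Algebra (ZMod l) (𝓞 N ⧸ W.asIdeal) := ZMod.algebra _ l
  have hle : W.asIdeal ≤ W.asIdeal.comap (STB.oMap (g : N ≃+* N) : 𝓞 N →+* 𝓞 N) := by
    intro x hx
    rw [Ideal.mem_comap]
    exact hg x _ rfl hx
  let φ : (𝓞 N ⧸ W.asIdeal) →+* (𝓞 N ⧸ W.asIdeal) := Ideal.quotientMap W.asIdeal
    (STB.oMap (g : N ≃+* N) : 𝓞 N →+* 𝓞 N) hle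
  let ψ : (𝓞 N ⧸ W.asIdeal) →ₐ[ZMod l] (𝓞 N ⧸ W.asIdeal) :=
    { φ with commutes' := fun r => RingHom.congr_fun (Subsingleton.elim
        (φ.comp (algebraMap (ZMod l) _)) (algebraMap (ZMod l) _)) r }
  obtain ⟨k, hk⟩ := (FiniteField.bijective_frobeniusAlgHom_pow (ZMod l) (𝓞 N ⧸ W.asIdeal)).2 ψ
  refine ⟨k.1, ?_⟩
  rw [frob_iff]
  intro z
  have h1 : ψ (Ideal.Quotient.mk W.asIdeal z) =
      Ideal.Quotient.mk W.asIdeal (STB.oMap (g : N ≃+* N) z) := rfl
  rw [← h1, ← hk]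
  show (FiniteField.frobeniusAlgHom (ZMod l) (𝓞 N ⧸ W.asIdeal) ^ k.1)
    (Ideal.Quotient.mk W.asIdeal z) = _
  rw [AlgHom.coe_pow, FiniteField.coe_frobeniusAlgHom, pow_iterate, ZMod.card]

theorem absNorm_pow (W : HeightOneSpectrum (𝓞 N)) {l : ℕ} (hl : l.Prime)
    (hlW : (l : 𝓞 N) ∈ W.asIdeal) : ∃ F : ℕ, 1 ≤ F ∧ F ≤ Module.finrank ℚ N ∧
      Ideal.absNorm W.asIdeal = l ^ F := by
  have h1 : Ideal.absNorm W.asIdeal ∣ l ^ Module.finrank ℚ N := by
    have h2 : Ideal.absNorm W.asIdeal ∣ Ideal.absNorm (Ideal.span {(l : 𝓞 N)}) :=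
      Ideal.absNorm_dvd_absNorm_of_le ((Ideal.span_singleton_le_iff_mem _).2 hlW)
    have h3 : Ideal.absNorm (Ideal.span {(l : 𝓞 N)}) = l ^ Module.finrank ℚ N := by
      rw [Ideal.absNorm_span_singleton]
      have h4 : Algebra.norm ℤ (l : 𝓞 N) = (l : ℤ) ^ Module.finrank ℤ (𝓞 N) := by
        have := Algebra.norm_algebraMap_of_basis (RingOfIntegers.basis N) (l : ℤ)
        rw [← Module.finrank_eq_card_chooseBasisIndex] at this
        simpa using this
      rw [h4, Int.natAbs_pow, Int.natAbs_natCast, RingOfIntegers.rank]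
    rwa [h3] at h2
  obtain ⟨F, hF, hF2⟩ := (Nat.dvd_prime_pow hl).1 h1
  refine ⟨F, ?_, hF, hF2⟩
  by_contra hc
  have h0 : F = 0 := by omega
  rw [h0, pow_zero, Ideal.absNorm_eq_one_iff] at hF2
  exact W.isPrime.ne_top hF2

theorem card_quot (W : HeightOneSpectrum (𝓞 N)) :
    Nat.card (𝓞 N ⧸ W.asIdeal) = Ideal.absNorm W.asIdeal := rfl

/-- the exponent `k` is divisible by the degree of the residue field if the power acts trivially -/
theorem dvd_of_trivial {K : Type} [Field K] [Algebra K N] (W : HeightOneSpectrum (𝓞 N)) {l F : ℕ}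
    (hl : l.Prime) (hF : Ideal.absNorm W.asIdeal = l ^ F) {k : ℕ} {g : N ≃ₐ[K] N}
    (h1 : FrobPow N W (l ^ k) g) (h2 : FrobPow N W 1 g) : F ∣ k := by
  have hmax : W.asIdeal.IsMaximal := W.isPrime.isMaximal W.ne_bot
  let _ : Field (𝓞 N ⧸ W.asIdeal) := Ideal.Quotient.field W.asIdeal
  have hfin : Finite (𝓞 N ⧸ W.asIdeal) := Ideal.finiteQuotientOfFreeOfNeBot W.asIdeal W.ne_bot
  have : Fintype (𝓞 N ⧸ W.asIdeal) := Fintype.ofFinite _
  rw [frob_iff] at h1 h2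
  have h3 : ∀ z : 𝓞 N ⧸ W.asIdeal, z ^ (l ^ k) = z := by
    intro z
    obtain ⟨z, rfl⟩ := Ideal.Quotient.mk_surjective z
    rw [← h1 z, h2 z, pow_one]
  obtain ⟨u, hu⟩ := IsCyclic.exists_generator (α := (𝓞 N ⧸ W.asIdeal)ˣ)
  have h4 : orderOf u = l ^ F - 1 := by
    rw [orderOf_eq_card_of_forall_mem_zpowers hu, Nat.card_units, card_quot, hF]
  have h5 : u ^ (l ^ k - 1) = 1 := by
    have h6 : u ^ (l ^ k) = u := by
      ext
      push_cast
      exact h3 u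
    have h7 : l ^ k - 1 + 1 = l ^ k := Nat.sub_add_cancel (Nat.one_le_pow _ _ hl.pos)
    have h8 : u ^ (l ^ k - 1) * u = 1 * u := by rw [← pow_succ, h7, h6, one_mul]
    exact mul_right_cancel h8
  have h6 := orderOf_dvd_of_pow_eq_one h5
  rw [h4] at h6
  have h7 := Nat.pow_sub_one_gcd_pow_sub_one l F k
  rw [Nat.gcd_eq_left h6] at h7
  have h8 : l ^ F = l ^ F.gcd k := by
    have a := Nat.one_le_pow F l hl.pos
    have b := Nat.one_le_pow (F.gcd k) l hl.pos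
    omega
  have h9 := Nat.pow_right_injective hl.two_le h8
  rw [h9]
  exact Nat.gcd_dvd_right _ _

theorem trivial_of_dvd {K : Type} [Field K] [Algebra K N] (W : HeightOneSpectrum (𝓞 N)) {l F : ℕ}
    (hF : Ideal.absNorm W.asIdeal = l ^ F) {k : ℕ} {g : N ≃ₐ[K] N}
    (h1 : FrobPow N W (l ^ k) g) (h2 : F ∣ k) : FrobPow N W 1 g := by
  have hmax : W.asIdeal.IsMaximal := W.isPrime.isMaximal W.ne_bot
  let _ : Field (𝓞 N ⧸ W.asIdeal) := Ideal.Quotient.field W.asIdeal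
  have hfin : Finite (𝓞 N ⧸ W.asIdeal) := Ideal.finiteQuotientOfFreeOfNeBot W.asIdeal W.ne_bot
  have : Fintype (𝓞 N ⧸ W.asIdeal) := Fintype.ofFinite _
  rw [frob_iff] at h1 ⊢
  intro z
  rw [h1 z, pow_one]
  obtain ⟨m, rfl⟩ := h2
  have h3 : Fintype.card (𝓞 N ⧸ W.asIdeal) = l ^ F := by
    rw [← Nat.card_eq_fintype_card, card_quot, hF]
  rw [pow_mul, ← h3]
  exact FiniteField.pow_card_pow m _

/-- roots of unity in `N` force the exponent to be divisible by `r` -/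
theorem dvd_of_root {K : Type} [Field K] [Algebra K N] (W : HeightOneSpectrum (𝓞 N)) {l r : ℕ}
    (hl : l.Prime) (hr : 1 ≤ r) (hlW : (l : 𝓞 N) ∈ W.asIdeal) {ζ : N}
    (hζ : IsPrimitiveRoot ζ (l ^ r - 1)) {k : ℕ} {g : N ≃ₐ[K] N}
    (h1 : FrobPow N W (l ^ k) g) (h2 : FrobPow N W 1 g) : r ∣ k := by
  have hmax : W.asIdeal.IsMaximal := W.isPrime.isMaximal W.ne_bot
  let _ : Field (𝓞 N ⧸ W.asIdeal) := Ideal.Quotient.field W.asIdeal
  have hpos : 0 < l ^ r - 1 := by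
    have h1 : l ^ 1 ≤ l ^ r := Nat.pow_le_pow_right hl.pos hr
    rw [pow_one] at h1
    have := hl.two_le
    omega
  have : NeZero (l ^ r - 1) := ⟨hpos.ne'⟩
  obtain ⟨F, hF1, _, hF⟩ := absNorm_pow W hl hlW
  rw [frob_iff] at h1 h2
  have h3 : ∀ z : 𝓞 N ⧸ W.asIdeal, z ^ (l ^ k) = z := by
    intro z
    obtain ⟨z, rfl⟩ := Ideal.Quotient.mk_surjective z
    rw [← h1 z, h2 z, pow_one]
  have h4 : IsPrimitiveRoot (Ideal.Quotient.mk W.asIdeal hζ.toInteger) (l ^ r - 1) := by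
    refine hζ.toInteger_isPrimitiveRoot.idealQuotient_mk ?_ ?_
    · rw [hF]
      have h1 : l ^ 1 ≤ l ^ F := Nat.pow_le_pow_right hl.pos hF1
      rw [pow_one] at h1
      have := hl.two_le
      omega
    · rw [hF]
      apply Nat.Coprime.pow_left
      rw [hl.coprime_iff_not_dvd]
      intro hd
      have h6 : l ∣ l ^ r := dvd_pow_self l (by omega)
      have h7 : l ∣ 1 := by
        have h8 := (Nat.dvd_sub h6 hd)
        rwa [Nat.sub_sub_self (Nat.one_le_pow _ _ hl.pos)] at h8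
      exact hl.one_lt.ne' (Nat.dvd_one.1 h7)
  set z := Ideal.Quotient.mk W.asIdeal hζ.toInteger with hz
  have hz0 : z ≠ 0 := h4.ne_zero hpos.ne'
  have h5 : z ^ (l ^ k - 1) = 1 := by
    have h7 : l ^ k - 1 + 1 = l ^ k := Nat.sub_add_cancel (Nat.one_le_pow _ _ hl.pos)
    have h8 : z ^ (l ^ k - 1) * z = 1 * z := by rw [← pow_succ, h7, h3, one_mul]
    exact mul_right_cancel₀ hz0 h8
  have h6 := h4.dvd_of_pow_eq_one _ h5
  have h7 := Nat.pow_sub_one_gcd_pow_sub_one l r k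
  rw [Nat.gcd_eq_left h6] at h7
  have h8 : l ^ r = l ^ r.gcd k := by
    have a := Nat.one_le_pow r l hl.pos
    have b := Nat.one_le_pow (r.gcd k) l hl.pos
    omega
  have h9 := Nat.pow_right_injective hl.two_le h8
  rw [h9]
  exact Nat.gcd_dvd_right _ _

end Frob

/-! ### the group part -/

/-- splitting off the part of `x` of order prime to `n₁` -/
theorem split_elem {G : Type} [Group G] [Finite G] (x : G) {n₁ n₂ a : ℕ}
    (hn : orderOf x = n₁ * n₂) (hco : n₁.Coprime n₂) (ha : 1 ≤ a) (h1 : n₁ ∣ a - 1) :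
    ∃ d y : G, ∃ e c : ℕ, d = x ^ e ∧ y = (x ^ n₁) ^ c ∧ x = d * y ∧ d * y = y * d ∧
      (orderOf d).Coprime (orderOf y) ∧ orderOf y ∣ orderOf x ∧ x ^ a = d * y ^ a := by
  have hn0 : 0 < orderOf x := orderOf_pos x
  obtain ⟨e, he1, he2⟩ := Nat.chineseRemainder hco 1 0
  obtain ⟨e', he3, he4⟩ := Nat.chineseRemainder hco 0 1
  have hd2 : n₂ ∣ e := (Nat.modEq_zero_iff_dvd).1 he2
  have hd1 : n₁ ∣ e' := (Nat.modEq_zero_iff_dvd).1 he3
  have hsum : e + e' ≡ 1 [MOD n₁ * n₂] := by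
    apply (Nat.modEq_and_modEq_iff_modEq_mul hco).1
    exact ⟨by simpa using he1.add he3, by simpa using he2.add he4⟩
  obtain ⟨c, hc⟩ := hd1
  have hxy : x ^ e * x ^ e' = x := by
    rw [← pow_add]
    have := (pow_eq_pow_iff_modEq (x := x) (n := e + e') (m := 1)).2 (by rw [hn]; exact hsum)
    rw [this, pow_one]
  have hcomm : x ^ e * x ^ e' = x ^ e' * x ^ e := by rw [← pow_add, ← pow_add, add_comm]
  have hod : orderOf (x ^ e) ∣ n₁ := by
    apply orderOf_dvd_of_pow_eq_one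
    rw [← pow_mul]
    apply orderOf_dvd_iff_pow_eq_one.1
    rw [hn, mul_comm e]
    exact mul_dvd_mul_left n₁ hd2
  have hoy : orderOf (x ^ e') ∣ n₂ := by
    apply orderOf_dvd_of_pow_eq_one
    rw [← pow_mul]
    apply orderOf_dvd_iff_pow_eq_one.1
    rw [hn, hc]
    exact mul_dvd_mul (Nat.dvd_mul_right n₁ c) dvd_rfl
  refine ⟨x ^ e, x ^ e', e, c, rfl, by rw [hc, pow_mul], hxy.symm, hcomm,
    (hco.coprime_dvd_left hod).coprime_dvd_right hoy, ?_, ?_⟩
  · rw [hn]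
    exact hoy.trans (Nat.dvd_mul_left _ _)
  · have h2 : (x ^ e) ^ a = x ^ e := by
      obtain ⟨m, hm⟩ := hod.trans h1
      have : a = orderOf (x ^ e) * m + 1 := by omega
      rw [this, pow_succ, pow_mul, pow_orderOf_eq_one, one_pow, one_mul]
    have h3 : Commute (x ^ e) (x ^ e') := hcomm
    calc x ^ a = (x ^ e * x ^ e') ^ a := by rw [hxy]
      _ = (x ^ e) ^ a * (x ^ e') ^ a := h3.mul_pow a
      _ = _ := by rw [h2]

/-! ### the residue computation -/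

section Res

variable {L N : Type} [Field L] [NumberField L] [IsGalois ℚ L] [Field N] [NumberField N]
  [Algebra L N]

/-- the local part: the prime `W` is above the prime number `l`, and `N` contains the roots of
unity of order `l ^ r - 1`, where `r` is divisible by `|G| F`. -/
theorem res_at (W : HeightOneSpectrum (𝓞 N)) {l r : ℕ} (hl : l.Prime)
    (hlW : (l : 𝓞 N) ∈ W.asIdeal) (hr : 1 ≤ r)
    (hrF : ∀ F, 1 ≤ F → F ≤ Nat.card (L ≃ₐ[ℚ] L) → Nat.card (L ≃ₐ[ℚ] L) * F ∣ r)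
    {ζ : N} (hζ : IsPrimitiveRoot ζ (l ^ r - 1))
    (X : N ≃ₐ[ℚ] N) (a : ℕ) (hX : Dec W X) (ha1 : 1 ≤ a)
    (hin : FrobPow N W 1 (X ^ a * X⁻¹ : N ≃ₐ[ℚ] N))
    (x : L ≃ₐ[ℚ] L) (hx : x = AlgEquiv.restrictNormalHom L X) :
    ∃ e e' : ℕ, x ^ e * x ^ e' = x ∧ (orderOf (x ^ e)).Coprime (orderOf (x ^ e')) ∧
      FrobPow L (W.under (𝓞 L)) 1 (x ^ e' : L ≃ₐ[ℚ] L) ∧ x ^ e * (x ^ e') ^ a = x ^ a := by
  set w := W.under (𝓞 L) with hw
  obtain ⟨k, hk⟩ := frob_exists W X hX hl hlW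
  have hin' : FrobPow N W 1 (X ^ (a - 1) : N ≃ₐ[ℚ] N) := by
    have e : X ^ a * X⁻¹ = X ^ (a - 1) := by
      have : a = a - 1 + 1 := by omega
      rw [this, pow_succ, mul_inv_cancel_right, Nat.add_sub_cancel]
    rwa [e] at hin
  have hrk : r ∣ k * (a - 1) := by
    have h1 := frob_pow hk (a - 1)
    rw [← pow_mul] at h1
    exact dvd_of_root W hl hr hlW hζ h1 hin'
  have hkw : FrobPow L w (l ^ k) x := by
    rw [hx]
    exact RB.frob_restrict hk
  have hlw : (l : 𝓞 L) ∈ w.asIdeal := (RB.natCast_mem_under W l).2 hlW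
  obtain ⟨F, hF1, hF2, hF⟩ := absNorm_pow w hl hlw
  have hcard : Module.finrank ℚ L = Nat.card (L ≃ₐ[ℚ] L) :=
    (IsGalois.card_aut_eq_finrank ℚ L).symm
  rw [hcard] at hF2
  have hn0 : 0 < orderOf x := orderOf_pos x
  have h1 : orderOf x * F ∣ k * (a - 1) :=
    ((mul_dvd_mul_right (orderOf_dvd_natCard x) F).trans (hrF F hF1 hF2)).trans hrk
  have h2 : F ∣ k * orderOf x := by
    have h3 := frob_pow hkw (orderOf x)
    rw [← pow_mul] at h3
    refine dvd_of_trivial w hl hF h3 ?_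
    rw [pow_orderOf_eq_one, frob_iff]
    intro z
    rw [pow_one]
    congr 1
  obtain ⟨n₁, n₂, hn, hco, hd, hFk⟩ := split_num hn0 h1 h2
  obtain ⟨d, y, e, c, hde, hy, hxd, hcomm, hco2, hoy, hpow⟩ :=
    split_elem x hn hco ha1 hd
  have hyI : FrobPow L w 1 y := by
    have h3 := frob_pow hkw n₁
    rw [← pow_mul] at h3
    have h4 := frob_pow (trivial_of_dvd w hF h3 hFk) c
    rwa [one_pow, ← hy] at h4
  rw [← pow_mul] at hy
  refine ⟨e, n₁ * c, ?_, ?_, ?_, ?_⟩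
  · rw [← hde, ← hy, ← hxd]
  · rw [← hde, ← hy]
    exact hco2
  · rw [← hy]
    exact hyI
  · rw [← hde, ← hy, ← hpow]

end Res

/-- the field -/
theorem exists_field (L : Type) [Field L] [NumberField L] (T : Finset ℕ) (r : ℕ) (hr : 1 ≤ r) :
    ∃ (N : Type) (_ : Field N) (_ : NumberField N) (_ : Algebra L N) (_ : IsGalois ℚ N),
      (∃ i : N, i ^ 2 = -1) ∧ ∀ l ∈ T, l.Prime → ∃ ζ : N, IsPrimitiveRoot ζ (l ^ r - 1) := by
  set P : Polynomial L := (Polynomial.X ^ 2 + 1) *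
    ∏ l ∈ T, Polynomial.cyclotomic (l ^ r - 1) L with hP
  have hm : (Polynomial.X ^ 2 + 1 : Polynomial L).Monic := by monicity!
  have hprod : (∏ l ∈ T, Polynomial.cyclotomic (l ^ r - 1) L).Monic :=
    Polynomial.monic_prod_of_monic _ _ fun l _ => Polynomial.cyclotomic.monic _ _
  have hPm : P.Monic := hm.mul hprod
  obtain ⟨N, i1, i2, i3, i4, hs⟩ := UEXT_thm L P hPm.ne_zero
  refine ⟨N, i1, i2, i3, i4, ?_, ?_⟩
  · have h2 : ((Polynomial.X ^ 2 + 1 : Polynomial L).map (algebraMap L N)).Splits := by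
      refine hs.of_dvd ?_ ?_
      · exact (hPm.map _).ne_zero
      · exact Polynomial.map_dvd _ (Dvd.intro _ rfl)
    have h1 : ((Polynomial.X ^ 2 + 1 : Polynomial L).map (algebraMap L N)).degree ≠ 0 := by
      rw [Polynomial.degree_map]
      have : (Polynomial.X ^ 2 + 1 : Polynomial L).degree = 2 := by compute_degree!
      rw [this]
      norm_num
    obtain ⟨i, hi⟩ := h2.exists_eval_eq_zero h1
    refine ⟨i, ?_⟩
    have h3 : i ^ 2 + 1 = 0 := by simpa using hi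
    linear_combination h3
  · intro l hlT hl
    have hpos : 0 < l ^ r - 1 := by
      have h1 : l ^ 1 ≤ l ^ r := Nat.pow_le_pow_right hl.pos hr
      rw [pow_one] at h1
      have := hl.two_le
      omega
    have h2 : ((Polynomial.cyclotomic (l ^ r - 1) L).map (algebraMap L N)).Splits := by
      refine hs.of_dvd ?_ ?_
      · exact (hPm.map _).ne_zero
      · refine Polynomial.map_dvd _ ?_
        exact (Finset.dvd_prod_of_mem _ hlT).mul_left _
    rw [Polynomial.map_cyclotomic] at h2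
    have h1 : (Polynomial.cyclotomic (l ^ r - 1) N).degree ≠ 0 := by
      rw [Polynomial.degree_cyclotomic]
      have := Nat.totient_pos.2 hpos
      exact_mod_cast this.ne'
    obtain ⟨ζ, hζ⟩ := h2.exists_eval_eq_zero h1
    refine ⟨ζ, ?_⟩
    have : NeZero ((l ^ r - 1 : ℕ) : N) := ⟨by exact_mod_cast hpos.ne'⟩
    exact Polynomial.isRoot_cyclotomic_iff.1 hζ

end StarkC.LOC.RES

open StarkC.LOC.RES in
/-- MODULE RES -/
theorem StarkC.LOC.RES_thm : StarkC.LOC.Stmt_LRES := by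
  intro L _ _ _
  obtain ⟨T, hT⟩ := URAM_thm L
  set g := Nat.card (L ≃ₐ[ℚ] L) with hg
  have hg0 : 0 < g := Nat.card_pos
  set r := g * g.factorial with hr
  have hr1 : 1 ≤ r := Nat.mul_pos hg0 (Nat.factorial_pos _)
  have hrF : ∀ F, 1 ≤ F → F ≤ Nat.card (L ≃ₐ[ℚ] L) → Nat.card (L ≃ₐ[ℚ] L) * F ∣ r := by
    intro F h1 h2
    exact mul_dvd_mul_left _ (Nat.dvd_factorial h1 h2)
  obtain ⟨N, i1, i2, i3, i4, hi, hζ⟩ := exists_field L T r hr1
  refine ⟨N, i1, i2, i3, i4, hi, ?_⟩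
  intro W X a hX ha hin x hx
  rcases Nat.eq_zero_or_pos a with h0 | ha1
  · rw [h0, Nat.coprime_zero_left, orderOf_eq_one_iff] at ha
    have hx1 : x = 1 := by rw [hx, ha, map_one]
    subst hx1
    refine ⟨0, 0, by simp, by simp, ?_, by simp⟩
    rw [pow_zero, frob_iff]
    intro z
    rw [pow_one]
    congr 1
  by_cases hWT : AboveT T (W.under (𝓞 L))
  · obtain ⟨l, hlT, hl, hlw⟩ := hWT
    have hlW : (l : 𝓞 N) ∈ W.asIdeal := (RB.natCast_mem_under W l).1 hlw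
    obtain ⟨ζ, hζ'⟩ := hζ l hlT hl
    exact res_at W hl hlW hr1 hrF hζ' X a hX ha1 hin x hx
  · have h1 : FrobPow L (W.under (𝓞 L)) 1 (x ^ a * x⁻¹ : L ≃ₐ[ℚ] L) := by
      have h2 := RB.frob_restrict (L := L) hin
      rw [map_mul, map_pow, map_inv, ← hx] at h2
      exact h2
    have h2 : x ^ a * x⁻¹ = 1 := hT _ hWT _ h1
    have h3 : x ^ a = x := by rwa [mul_inv_eq_one] at h2
    refine ⟨1, 0, by simp, by simp, ?_, by rw [h3]; simp⟩
    rw [pow_zero, frob_iff]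
    intro z
    rw [pow_one]
    congr 1
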