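import Pool.Agent.StarkLoc.Stmts

/-!
# Module M2: the span theorem over `K`
-/

open NumberField IsDedekindDomain
open scoped TensorProduct Classical

namespace StarkC.LOC

namespace SPAN

open UALG

section rs

variable {K L N : Type} [Field K] [NumberField K] [Field L] [NumberField L] [Field N]
  [NumberField N] [Algebra K L] [Algebra K N] [Algebra L N] [IsScalarTower K L N]

/-- restriction of scalars to `ℚ` -/
noncomputable abbrev rq : (N ≃ₐ[K] N) →* (N ≃ₐ[ℚ] N) := AlgEquiv.restrictScalarsHom ℚ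

theorem rq_inj : Function.Injective (rq (K := K) (N := N)) :=
  AlgEquiv.restrictScalarsHom_injective ℚ

theorem rq_one_iff (g : N ≃ₐ[K] N) : rq g = 1 ↔ g = 1 := by
  rw [← map_one (rq (K := K) (N := N))]
  exact rq_inj.eq_iff

theorem rq_dec {W : HeightOneSpectrum (𝓞 N)} {g : N ≃ₐ[K] N} : Dec W (rq g) ↔ Dec W g := Iff.rfl

theorem rq_frob {W : HeightOneSpectrum (𝓞 N)} {q : ℕ} {g : N ≃ₐ[K] N} :
    FrobPow N W q (rq g) ↔ FrobPow N W q g := Iff.rfl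

theorem rq_cc {g : N ≃ₐ[K] N} : IsCC (rq g) ↔ IsCC g := Iff.rfl

theorem rq_res [IsGalois ℚ L] [IsGalois K L] (g : N ≃ₐ[K] N) :
    AlgEquiv.restrictNormalHom L (rq g) =
      rq (AlgEquiv.restrictNormalHom L g : L ≃ₐ[K] L) := by
  ext x
  apply (algebraMap L N).injective
  have h1 := AlgEquiv.restrictNormal_commutes (rq g) L x
  have h2 := AlgEquiv.restrictNormal_commutes g L x
  exact h1.trans h2.symm

theorem res_one_iff [IsGalois ℚ L] [IsGalois K L] (g : N ≃ₐ[K] N) :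
    (AlgEquiv.restrictNormalHom L (rq g) : L ≃ₐ[ℚ] L) = 1 ↔
      (AlgEquiv.restrictNormalHom L g : L ≃ₐ[K] L) = 1 := by
  rw [rq_res, rq_one_iff]

/-- inertia group -/
noncomputable def inK (w : HeightOneSpectrum (𝓞 N)) : Subgroup (N ≃ₐ[K] N) := (inS w).comap rq

end rs

section main

variable {K N₁ N₂ N : Type} [Field K] [NumberField K] [Field N₁] [NumberField N₁] [IsGalois ℚ N₁]
    [Field N₂] [NumberField N₂] [IsGalois ℚ N₂] [Field N] [NumberField N] [IsGalois ℚ N]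
    [Algebra K N₁] [Algebra K N₂] [Algebra K N] [Algebra N₁ N₂] [Algebra N₁ N]
    [Algebra N₂ N] [IsScalarTower N₁ N₂ N] [IsScalarTower K N₁ N₂] [IsScalarTower K N₁ N]
    [IsScalarTower K N₂ N] [IsGalois K N₁] [IsGalois K N₂] [IsGalois K N]

theorem mem_zp {g h : N ≃ₐ[K] N} (hh : h ∈ Subgroup.zpowers g) :
    rq h ∈ Subgroup.zpowers (rq g) := by
  obtain ⟨k, rfl⟩ := Subgroup.mem_zpowers_iff.1 hh
  rw [map_zpow]
  exact Subgroup.zpow_mem_zpowers _ _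

theorem typeA_span (hART : Stmt_UART) (hCYC : Stmt_UCYC) (hMK : Stmt_UMACK) (hIND : Stmt_UIND)
    (hINF : Stmt_UINFL) (T T₁ : Finset ℕ) (hT12 : T ⊆ T₁)
    (f₁ : (N₁ ≃ₐ[K] N₁) → ℂ) (hf₁ : f₁ ∈ SpanQ (G := N₁ ≃ₐ[K] N₁) (fun _ _ => True))
    (hi : ∃ i : N₁, i ^ 2 = -1) (hcc : ∀ c : N₁ ≃ₐ[K] N₁, IsCC c → f₁ c = 0)
    (hU1 : ∀ (W : HeightOneSpectrum (𝓞 N₁)) (x : N₁ ≃ₐ[K] N₁) (a : ℕ), Dec W x →
      a.Coprime (orderOf x) → AboveT T W → f₁ (x ^ a) = f₁ x)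
    (hU2 : ∀ (W : HeightOneSpectrum (𝓞 N₁)) (x : N₁ ≃ₐ[K] N₁) (a : ℕ), Dec W x →
      a.Coprime (orderOf x) → FrobPow N₁ W 1 (x ^ a * x⁻¹ : N₁ ≃ₐ[K] N₁) → f₁ (x ^ a) = f₁ x)
    (hram : ∀ W : HeightOneSpectrum (𝓞 N₁), ¬ AboveT T₁ W → ∀ g : N₁ ≃ₐ[ℚ] N₁,
      FrobPow N₁ W 1 g → g = 1)
    (hFK12 : ∀ (h : N₂ ≃ₐ[ℚ] N₂) (P Q : HeightOneSpectrum (𝓞 N₂)), Dec P h → Dec Q h →
      AboveT T₁ P → AboveT T₁ Q → P.under (𝓞 N₁) ≠ Q.under (𝓞 N₁) →
      (AlgEquiv.restrictNormalHom N₁ h : N₁ ≃ₐ[ℚ] N₁) = 1)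
    (hFKI : ∀ (c : N₂ ≃ₐ[ℚ] N₂) (W : HeightOneSpectrum (𝓞 N₂)), IsCC c → Dec W c →
      AboveT T₁ W → (AlgEquiv.restrictNormalHom N₁ c : N₁ ≃ₐ[ℚ] N₁) = 1)
    (hFK : ∀ (h : N ≃ₐ[ℚ] N) (P Q : HeightOneSpectrum (𝓞 N)), Dec P h → Dec Q h →
      AboveT T₁ P → AboveT T₁ Q → P.under (𝓞 N₂) ≠ Q.under (𝓞 N₂) →
      (AlgEquiv.restrictNormalHom N₂ h : N₂ ≃ₐ[ℚ] N₂) = 1)
    (hCEN : ∀ g c : N ≃ₐ[ℚ] N, IsCC c → g * c = c * g →
      (AlgEquiv.restrictNormalHom N₁ g : N₁ ≃ₐ[ℚ] N₁) = 1 ∨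
        (AlgEquiv.restrictNormalHom N₁ g : N₁ ≃ₐ[ℚ] N₁) = AlgEquiv.restrictNormalHom N₁ c) :
    (fun g : N ≃ₐ[K] N => f₁ (AlgEquiv.restrictNormalHom N₁ g)) ∈
      SpanQ (G := N ≃ₐ[K] N) (fun H ψ => IsCyclic H ∧ TypeAK T H ψ) := by
  set f : (N ≃ₐ[K] N) → ℂ := fun g => f₁ (AlgEquiv.restrictNormalHom N₁ g) with hfdef
  have hf : f ∈ SpanQ (G := N ≃ₐ[K] N) (fun _ _ => True) :=
    spanQ_mono (fun _ _ _ => trivial)
      (hINF (N ≃ₐ[K] N) (N₁ ≃ₐ[K] N₁) (AlgEquiv.restrictNormalHom N₁) f₁ _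
        (AlgEquiv.restrictNormalHom_surjective N) hf₁)
  refine of_art hART f (fun x g => spanQ_class hf x g) fun g => ?_
  -- primes with nontrivial inertia on `N₁` are above `T₁`
  have hab : ∀ (W : HeightOneSpectrum (𝓞 N)) (h : N ≃ₐ[K] N),
      (AlgEquiv.restrictNormalHom N₁ h : N₁ ≃ₐ[K] N₁) ≠ 1 →
      (FrobPow N W 1 h ∨ (AboveT T W ∧ Dec W h)) → AboveT T₁ W ∧ Dec W h := by
    rintro W h hne (h1 | ⟨h1, h2⟩)
    · refine ⟨?_, RB.dec_of_frob h1⟩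
      by_contra h3
      refine hne ((rq_one_iff _).1 (hram (W.under (𝓞 N₁)) ?_ _ (RB.frob_restrict h1)))
      rwa [aboveT_under]
    · exact ⟨aboveT_mono hT12 h1, h2⟩
  have hcN : ∀ c : N ≃ₐ[K] N, IsCC c →
      (AlgEquiv.restrictNormalHom N₁ c : N₁ ≃ₐ[K] N₁) ≠ 1 := by
    intro c hc h0
    refine cc_ne_one (cc_restrict (L := N₁) (c := rq c) hc) hi ?_
    rw [res_one_iff, h0]
  have hstar : ∀ h : N ≃ₐ[K] N, h ∈ Subgroup.zpowers g → ∀ W : HeightOneSpectrum (𝓞 N),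
      Dec W h → AboveT T₁ W → (AlgEquiv.restrictNormalHom N₁ h : N₁ ≃ₐ[K] N₁) ≠ 1 →
      Dec (W.under (𝓞 N₂)) (AlgEquiv.restrictNormalHom N₂ g : N₂ ≃ₐ[K] N₂) := by
    intro h hh W hW hT hne
    have h1 := star (N₁ := N₁) (N₂ := N₂) T₁ hFK (rq g) (rq h) (mem_zp hh) W hW hT (by
      rw [ne_eq, res_one_iff]
      exact hne)
    rw [rq_res] at h1
    exact h1
  have res12K : ∀ x : N ≃ₐ[K] N,
      (AlgEquiv.restrictNormalHom N₁ (AlgEquiv.restrictNormalHom N₂ x : N₂ ≃ₐ[K] N₂) :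
        N₁ ≃ₐ[K] N₁) = AlgEquiv.restrictNormalHom N₁ x := fun x =>
    (IsScalarTower.AlgEquiv.restrictNormalHom_comp_apply N₁ N₂ x).symm
  by_cases hcase : ∃ (W : HeightOneSpectrum (𝓞 N)) (h : N ≃ₐ[K] N), h ∈ Subgroup.zpowers g ∧
      (AlgEquiv.restrictNormalHom N₁ h : N₁ ≃ₐ[K] N₁) ≠ 1 ∧
      (FrobPow N W 1 h ∨ (AboveT T W ∧ Dec W h))
  · -- case 1
    obtain ⟨W, h, hh, hne, hor⟩ := hcase
    obtain ⟨hW1, hWd⟩ := hab W h hne hor
    have hg2 := hstar h hh W hWd hW1 hne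
    have hg2' : ∀ x ∈ Subgroup.zpowers g,
        Dec (W.under (𝓞 N₂)) (AlgEquiv.restrictNormalHom N₂ x : N₂ ≃ₐ[K] N₂) := by
      intro x hx
      have h1 : rq (AlgEquiv.restrictNormalHom N₂ g : N₂ ≃ₐ[K] N₂) ∈ decS (W.under (𝓞 N₂)) := hg2
      obtain ⟨k, rfl⟩ := Subgroup.mem_zpowers_iff.1 hx
      have h2 := (decS (W.under (𝓞 N₂))).zpow_mem h1 k
      rw [← map_zpow, ← map_zpow] at h2
      exact h2
    have hg1' : ∀ x ∈ Subgroup.zpowers g,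
        Dec (W.under (𝓞 N₁)) (AlgEquiv.restrictNormalHom N₁ x : N₁ ≃ₐ[K] N₁) := by
      intro x hx
      have h1 := RB.dec_restrict (L := N₁) (hg2' x hx)
      rw [res12K, RB.under_under] at h1
      exact h1
    -- the subgroup `J`
    obtain ⟨J, hJ, hJ2, hJ3⟩ : ∃ J : Subgroup (N ≃ₐ[K] N),
        (∀ x ∈ Subgroup.zpowers g, ∀ a : ℕ, a.Coprime (orderOf x) → x ^ a * x⁻¹ ∈ J →
          f (x ^ a) = f x) ∧
        (∀ x : N ≃ₐ[K] N, FrobPow N₁ (W.under (𝓞 N₁)) 1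
          (AlgEquiv.restrictNormalHom N₁ x : N₁ ≃ₐ[K] N₁) → x ∈ J) ∧
        (AboveT T (W.under (𝓞 N₁)) → ∀ x, x ∈ J) := by
      by_cases hT0 : AboveT T (W.under (𝓞 N₁))
      · refine ⟨⊤, fun x hx a ha _ => ?_, fun _ _ => Subgroup.mem_top _, fun _ _ =>
          Subgroup.mem_top _⟩
        have h1 := hU1 (W.under (𝓞 N₁)) (AlgEquiv.restrictNormalHom N₁ x) a (hg1' x hx)
          (ha.coprime_dvd_right (orderOf_map_dvd _ x)) hT0
        rw [← map_pow] at h1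
        exact h1
      · refine ⟨(inK (K := K) (W.under (𝓞 N₁))).comap (AlgEquiv.restrictNormalHom N₁),
          fun x hx a ha hJ => ?_, fun x hx => hx, fun h => absurd h hT0⟩
        have h2 : FrobPow N₁ (W.under (𝓞 N₁)) 1
            (AlgEquiv.restrictNormalHom N₁ (x ^ a * x⁻¹) : N₁ ≃ₐ[K] N₁) := hJ
        rw [map_mul, map_pow, map_inv] at h2
        have h1 := hU2 (W.under (𝓞 N₁)) (AlgEquiv.restrictNormalHom N₁ x) a (hg1' x hx)
          (ha.coprime_dvd_right (orderOf_map_dvd _ x)) h2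
        rw [← map_pow] at h1
        exact h1
    refine spanQ_mono ?_ (cyc_step hCYC hMK hIND g f hf J hJ)
    rintro B ν ⟨hB, hν⟩
    have hJ1 : ∀ x : N ≃ₐ[K] N,
        (AlgEquiv.restrictNormalHom N₁ x : N₁ ≃ₐ[K] N₁) = 1 → x ∈ J := by
      intro x hx
      refine hJ2 x ?_
      rw [hx]
      exact (inK (K := K) (W.under (𝓞 N₁))).one_mem
    have hkey : ∀ (W' : HeightOneSpectrum (𝓞 N)) (h' : B),
        (AlgEquiv.restrictNormalHom N₁ (h' : N ≃ₐ[K] N) : N₁ ≃ₐ[K] N₁) ≠ 1 →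
        AboveT T₁ W' → Dec W' (h' : N ≃ₐ[K] N) → W'.under (𝓞 N₁) = W.under (𝓞 N₁) := by
      intro W' h' hne' hW' hd'
      have h3 := hstar h' (hB h'.2) W' hd' hW' hne'
      have h4 : Dec (W'.under (𝓞 N₂))
          (AlgEquiv.restrictNormalHom N₂ (h' : N ≃ₐ[K] N) : N₂ ≃ₐ[K] N₂) :=
        RB.dec_restrict hd'
      have h5 := hg2' h' (hB h'.2)
      by_contra h6
      apply hne'
      have h7 := hFK12 (rq (AlgEquiv.restrictNormalHom N₂ (h' : N ≃ₐ[K] N) : N₂ ≃ₐ[K] N₂))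
        _ _ h4 h5 ((aboveT_under T₁ W').2 hW') ((aboveT_under T₁ W).2 hW1) (by
        rw [RB.under_under, RB.under_under]
        exact h6)
      rwa [res_one_iff, res12K] at h7
    refine ⟨UALGC.cyc_of_le hB, fun c hc hcC => ?_, fun W' h' hF => ?_, fun W' h' hT' hd' => ?_⟩
    · have h1 := hFKI _ (W.under (𝓞 N₂)) (cc_restrict (L := N₂) (c := rq c) hcC) (by
        rw [rq_res]
        exact hg2' c (hB hc))
        ((aboveT_under T₁ W).2 hW1)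
      rw [rq_res, res_one_iff, res12K] at h1
      exact hcN c hcC h1
    · refine hν h' ?_
      by_cases h1 : (AlgEquiv.restrictNormalHom N₁ (h' : N ≃ₐ[K] N) : N₁ ≃ₐ[K] N₁) = 1
      · exact hJ1 _ h1
      · obtain ⟨h2, h3⟩ := hab W' h' h1 (Or.inl hF)
        have h4 := hkey W' h' h1 h2 h3
        refine hJ2 _ ?_
        rw [← h4]
        exact RB.frob_restrict hF
    · refine hν h' ?_
      by_cases h1 : (AlgEquiv.restrictNormalHom N₁ (h' : N ≃ₐ[K] N) : N₁ ≃ₐ[K] N₁) = 1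
      · exact hJ1 _ h1
      · obtain ⟨h2, h3⟩ := hab W' h' h1 (Or.inr ⟨hT', hd'⟩)
        have h4 := hkey W' h' h1 h2 h3
        refine hJ3 ?_ _
        rw [← h4, aboveT_under]
        exact hT'
  · have hcase' : ∀ (W : HeightOneSpectrum (𝓞 N)) (h : N ≃ₐ[K] N), h ∈ Subgroup.zpowers g →
        (FrobPow N W 1 h ∨ (AboveT T W ∧ Dec W h)) →
        (AlgEquiv.restrictNormalHom N₁ h : N₁ ≃ₐ[K] N₁) = 1 := by
      intro W h hh hor
      by_contra hne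
      exact hcase ⟨W, h, hh, hne, hor⟩
    by_cases hC : ∃ c ∈ Subgroup.zpowers g, IsCC c
    · -- case 3
      obtain ⟨c, hc, hcC⟩ := hC
      have h1 : ∀ x ∈ Subgroup.zpowers g,
          (AlgEquiv.restrictNormalHom N₁ x : N₁ ≃ₐ[K] N₁) ≠ 1 → f x = 0 := by
        intro x hx hne
        have hcomm : x * c = c * x := by
          obtain ⟨k, rfl⟩ := Subgroup.mem_zpowers_iff.1 hx
          obtain ⟨m, rfl⟩ := Subgroup.mem_zpowers_iff.1 hc
          rw [← zpow_add, ← zpow_add, add_comm]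
        rcases hCEN (rq x) (rq c) hcC (by rw [← map_mul, hcomm, map_mul]) with h2 | h2
        · rw [res_one_iff] at h2
          exact absurd h2 hne
        · rw [rq_res, rq_res] at h2
          have h3 := rq_inj h2
          show f₁ (AlgEquiv.restrictNormalHom N₁ x) = 0
          rw [h3]
          refine hcc _ ?_
          have h4 := cc_restrict (L := N₁) (c := rq c) hcC
          rw [rq_res] at h4
          exact h4
      obtain ⟨r, hr⟩ := spanQ_invol hf₁ 1 (by rw [one_mul])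
      set C₀ : Subgroup (N ≃ₐ[K] N) := Subgroup.zpowers g ⊓
        (AlgEquiv.restrictNormalHom N₁ : (N ≃ₐ[K] N) →* (N₁ ≃ₐ[K] N₁)).ker with hC0
      have h2 : indFun (Subgroup.zpowers g) f =
          (r * (Nat.card C₀ : ℚ) / (Nat.card (Subgroup.zpowers g) : ℚ)) •
            indFun C₀ (extZ (1 : C₀ →* ℂˣ)) := by
        rw [indFun_extZ_one]
        funext y
        rw [Pi.smul_apply, Rat.smul_def]
        unfold indFun
        have h3 : ∀ x : N ≃ₐ[K] N, (if x⁻¹ * y * x ∈ Subgroup.zpowers g then f (x⁻¹ * y * x)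
            else 0) = (r : ℂ) * (if x⁻¹ * y * x ∈ C₀ then (1 : ℂ) else 0) := by
          intro x
          by_cases hx : x⁻¹ * y * x ∈ Subgroup.zpowers g
          · rw [if_pos hx]
            by_cases hx2 : (AlgEquiv.restrictNormalHom N₁ (x⁻¹ * y * x) : N₁ ≃ₐ[K] N₁) = 1
            · have hx3 : x⁻¹ * y * x ∈ C₀ := ⟨hx, hx2⟩
              rw [if_pos hx3, mul_one, ← hr]
              show f₁ (AlgEquiv.restrictNormalHom N₁ (x⁻¹ * y * x)) = f₁ 1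
              rw [hx2]
            · have hx3 : x⁻¹ * y * x ∉ C₀ := fun h => hx2 h.2
              rw [if_neg hx3, mul_zero]
              exact h1 _ hx hx2
          · have hx3 : x⁻¹ * y * x ∉ C₀ := fun h => hx h.1
            rw [if_neg hx, if_neg hx3, mul_zero]
        rw [Finset.sum_congr rfl fun x _ => h3 x, ← Finset.mul_sum]
        have h4 : (Nat.card C₀ : ℂ) ≠ 0 := by exact_mod_cast Nat.card_pos.ne'
        have h5 : (Nat.card (Subgroup.zpowers g) : ℂ) ≠ 0 := by exact_mod_cast Nat.card_pos.ne'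
        push_cast
        field_simp
      rw [h2]
      refine Submodule.smul_mem _ _ (Submodule.subset_span ⟨C₀, 1, ?_, rfl⟩)
      refine ⟨UALGC.cyc_of_le inf_le_left, fun c' hc' hcC' => hcN c' hcC' hc'.2,
        fun _ _ _ => rfl, fun _ _ _ _ => rfl⟩
    · -- case 2
      refine spanQ_mono ?_ (cyc_step hCYC hMK hIND g f hf
        (AlgEquiv.restrictNormalHom N₁ : (N ≃ₐ[K] N) →* (N₁ ≃ₐ[K] N₁)).ker ?_)
      · rintro B ν ⟨hB, hν⟩
        refine ⟨UALGC.cyc_of_le hB, fun c hc hcC => hC ⟨c, hB hc, hcC⟩, fun W' h' hF => ?_,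
          fun W' h' hT' hd' => ?_⟩
        · exact hν h' (hcase' W' h' (hB h'.2) (Or.inl hF))
        · exact hν h' (hcase' W' h' (hB h'.2) (Or.inr ⟨hT', hd'⟩))
      · intro x hx a ha hk
        show f₁ (AlgEquiv.restrictNormalHom N₁ (x ^ a)) = f₁ (AlgEquiv.restrictNormalHom N₁ x)
        have h1 : (AlgEquiv.restrictNormalHom N₁ (x ^ a * x⁻¹) : N₁ ≃ₐ[K] N₁) = 1 := hk
        rw [map_mul, map_inv, mul_inv_eq_one] at h1
        rw [h1]

end main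

end SPAN

theorem SPAN_thm (hART : Stmt_UART) (hCYC : Stmt_UCYC) (hMK : Stmt_UMACK) (hIND : Stmt_UIND)
    (hINF : Stmt_UINFL) : Stmt_LSPAN := by
  intro K N₁ N₂ N _ _ _ _ _ _ _ _ _ _ _ _ _ _ _ _ _ _ _ _ _ _ _ _ T T₁ f₁ hT hf₁ hi hcc hU1
    hU2 hram hFK12 hFKI hFK hCEN
  exact SPAN.typeA_span hART hCYC hMK hIND hINF T T₁ hT f₁ hf₁ hi hcc hU1 hU2 hram hFK12 hFKI
    hFK hCEN

end StarkC.LOC
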