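import Mathlib

/-!
# Number fields of squarefree discriminant: the inertia groups of the Galois closure

If the ramification indices of a number field `M` are at most `2`, for example if the discriminant
of `M` is squarefree, then the inertia groups of the Galois closure of `M` over `ℚ` have exponent
at most `2`.
-/

open NumberField IsDedekindDomain

namespace StarkSQF

theorem sq_mem_of_card {G : Type} [Group G] (I J : Subgroup G) [Finite G] (hJI : J ≤ I) (e : ℕ)
    (he : e ≤ 2) (hc : Nat.card I = e * Nat.card J) (y : G) (hy : y ∈ I) : y * y ∈ J := by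
  have h1 : Nat.card J * J.relIndex I = Nat.card I := by
    have := Subgroup.relIndex_mul_relIndex (⊥ : Subgroup G) J I bot_le hJI
    simpa using this
  have h2 : 0 < Nat.card J := Nat.card_pos
  have h3 : J.relIndex I = e := by
    rw [hc, mul_comm] at h1
    exact Nat.eq_of_mul_eq_mul_right h2 h1
  have h4 : 0 < Nat.card I := Nat.card_pos
  have h5 : e ≠ 0 := by
    rintro rfl
    simp at hc
    omega
  have h6 : e = 1 ∨ e = 2 := by omega
  rcases h6 with h6 | h6
  · have : I ≤ J := by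
      rw [← Subgroup.relIndex_eq_one, h3, h6]
    exact J.mul_mem (this hy) (this hy)
  · have h7 : (J.subgroupOf I).index = 2 := by
      rw [← h6, ← h3]; rfl
    have := Subgroup.mul_self_mem_of_index_two h7 ⟨y, hy⟩
    rwa [Subgroup.mem_subgroupOf] at this

theorem inertia_map_le (M L : Type) [Field M] [NumberField M] [Field L] [NumberField L]
    [Algebra M L] (P : Ideal (𝓞 L)) :
    (P.inertia (L ≃ₐ[M] L)).map (AlgEquiv.restrictScalarsHom ℚ) ≤ P.inertia (L ≃ₐ[ℚ] L) := by
  rintro _ ⟨g, hg, rfl⟩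
  intro x
  exact hg x

/-- The ramification indices of a number field of squarefree discriminant are at most `2`. -/
theorem ramIdx_le_two (M : Type) [Field M] [NumberField M] (h : Squarefree (NumberField.discr M))
    (P : Ideal (𝓞 M)) [hPp : P.IsPrime] (hP : P ≠ ⊥) : P.ramificationIdx ℤ ≤ 2 := by
  by_contra hlt
  push Not at hlt
  have hmax : P.IsMaximal := hPp.isMaximal hP
  set p : Ideal ℤ := P.under ℤ with hp
  have hp0 : p ≠ ⊥ := by
    rw [hp]
    exact Ideal.under_ne_bot ℤ hP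
  have : p.IsMaximal := Ideal.IsMaximal.under ℤ P
  have hmap : p.map (algebraMap ℤ (𝓞 M)) ≠ ⊥ := Ideal.map_ne_bot_of_ne_bot hp0
  have h1 : P.ramificationIdx ℤ = multiplicity P (p.map (algebraMap ℤ (𝓞 M))) :=
    Ideal.IsDedekindDomain.ramificationIdx_eq_multiplicity p P hmap
  have h2 : P ^ 3 ∣ p.map (algebraMap ℤ (𝓞 M)) := by
    rw [h1] at hlt
    exact (pow_dvd_pow P (by omega)).trans (pow_multiplicity_dvd P _)
  have h3 : P ^ 2 ∣ differentIdeal ℤ (𝓞 M) := pow_sub_one_dvd_differentIdeal ℤ P 3 hp0 h2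
  have h4 : (Ideal.absNorm P) ^ 2 ∣ (NumberField.discr M).natAbs := by
    rw [← absNorm_differentIdeal M (𝓞 M), ← map_pow]
    exact Ideal.absNorm_dvd_absNorm_of_le (Ideal.le_of_dvd h3)
  have h5 : IsUnit (Ideal.absNorm P) := by
    rw [← Int.squarefree_natAbs] at h
    exact h _ (by rwa [← pow_two])
  have h6 : Ideal.absNorm P = 1 := Nat.isUnit_iff.mp h5
  exact hPp.ne_top (Ideal.absNorm_eq_one_iff.mp h6)

/-- If the ramification indices of `M/ℚ` are at most `2`, then the squares of the elements of the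
inertia groups of a Galois extension `L/ℚ`, `M ⊆ L`, fix `M`. -/
theorem sq_fix (M L : Type) [Field M] [NumberField M] [Field L] [NumberField L] [Algebra M L]
    [IsGalois ℚ L] (h : ∀ P : Ideal (𝓞 M), P.IsPrime → P ≠ ⊥ → P.ramificationIdx ℤ ≤ 2)
    (P : Ideal (𝓞 L)) [hPp : P.IsPrime] (hP : P ≠ ⊥) (y : L ≃ₐ[ℚ] L)
    (hy : y ∈ P.inertia (L ≃ₐ[ℚ] L)) (x : M) :
    (y * y) (algebraMap M L x) = algebraMap M L x := by
  have : IsGalois M L := IsGalois.tower_top_of_isGalois ℚ M L
  have hmax : P.IsMaximal := hPp.isMaximal hP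
  set q : Ideal (𝓞 M) := P.under (𝓞 M) with hq
  set p : Ideal ℤ := P.under ℤ with hp
  have hq0 : q ≠ ⊥ := by
    rw [hq]; exact Ideal.under_ne_bot (𝓞 M) hP
  have hp0 : p ≠ ⊥ := by
    rw [hp]; exact Ideal.under_ne_bot ℤ hP
  have : q.IsMaximal := Ideal.IsMaximal.under (𝓞 M) P
  have : p.IsMaximal := Ideal.IsMaximal.under ℤ P
  have hfq : Finite (𝓞 M ⧸ q) := Ring.HasFiniteQuotients.finiteQuotient hq0
  have hfp : Finite (ℤ ⧸ p) := Ring.HasFiniteQuotients.finiteQuotient hp0
  have e1 : Nat.card (P.inertia (L ≃ₐ[ℚ] L)) = P.ramificationIdx ℤ := by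
    rw [Ideal.card_inertia_eq_ramificationIdxIn p P,
      Ideal.ramificationIdxIn_eq_ramificationIdx p P (L ≃ₐ[ℚ] L)]
  have e2 : Nat.card (P.inertia (L ≃ₐ[M] L)) = P.ramificationIdx (𝓞 M) := by
    rw [Ideal.card_inertia_eq_ramificationIdxIn q P,
      Ideal.ramificationIdxIn_eq_ramificationIdx q P (L ≃ₐ[M] L)]
  have e3 : P.ramificationIdx ℤ = q.ramificationIdx ℤ * P.ramificationIdx (𝓞 M) :=
    Ideal.ramificationIdx_tower q P
  have e4 : q.ramificationIdx ℤ ≤ 2 := h q inferInstance hq0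
  have e5 : Nat.card ((P.inertia (L ≃ₐ[M] L)).map (AlgEquiv.restrictScalarsHom ℚ)) =
      Nat.card (P.inertia (L ≃ₐ[M] L)) :=
    Subgroup.card_map_of_injective (AlgEquiv.restrictScalarsHom_injective ℚ)
  have e6 := sq_mem_of_card (P.inertia (L ≃ₐ[ℚ] L))
    ((P.inertia (L ≃ₐ[M] L)).map (AlgEquiv.restrictScalarsHom ℚ)) (inertia_map_le M L P)
    (q.ramificationIdx ℤ) e4 (by rw [e1, e3, e5, e2]) y hy
  obtain ⟨g, _, hg⟩ := e6
  rw [← hg]
  exact g.commutes x

open scoped Pointwise in
/-- If `L` is the Galois closure over `ℚ` of a field `M` with ramification indices at most `2`,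
then the inertia groups of `L/ℚ` have exponent at most `2`. -/
theorem sq_eq_one (M L : Type) [Field M] [NumberField M] [Field L] [NumberField L] [Algebra M L]
    [hNC : IsNormalClosure ℚ M L]
    (h : ∀ P : Ideal (𝓞 M), P.IsPrime → P ≠ ⊥ → P.ramificationIdx ℤ ≤ 2)
    (P : Ideal (𝓞 L)) [hPp : P.IsPrime] (hP : P ≠ ⊥) (y : L ≃ₐ[ℚ] L)
    (hy : y ∈ P.inertia (L ≃ₐ[ℚ] L)) : y * y = 1 := by
  have hn : Normal ℚ L := IsNormalClosure.normal (K := M)
  have hG : IsGalois ℚ L := {}
  have key : ∀ (g : L ≃ₐ[ℚ] L) (x : M),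
      (y * y) (g (algebraMap M L x)) = g (algebraMap M L x) := by
    intro g x
    have hy' : g⁻¹ * y * g ∈ (g⁻¹ • P).inertia (L ≃ₐ[ℚ] L) := by
      intro z
      change (g⁻¹ * y * g) • z - z ∈ g⁻¹ • P
      rw [Ideal.mem_inv_pointwise_smul_iff, smul_sub, smul_smul]
      have h2 : g * (g⁻¹ * y * g) = y * g := by group
      rw [h2, mul_smul]
      exact hy (g • z)
    have hP' : g⁻¹ • P ≠ ⊥ := by
      intro h0
      apply hP
      have h3 : g • (g⁻¹ • P) = g • (⊥ : Ideal (𝓞 L)) := by rw [h0]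
      rwa [smul_inv_smul, Ideal.smul_bot] at h3
    have h4 := sq_fix M L h (g⁻¹ • P) hP' (g⁻¹ * y * g) hy' x
    have h5 : g⁻¹ * y * g * (g⁻¹ * y * g) = g⁻¹ * (y * y) * g := by group
    rw [h5] at h4
    have h6 := congrArg g h4
    simpa [AlgEquiv.mul_apply] using h6
  have htop : (⊤ : IntermediateField ℚ L) ≤
      IntermediateField.fixedField (Subgroup.zpowers (y * y)) := by
    rw [← hNC.adjoin_rootSet]
    refine iSup_le fun x => ?_
    rw [IntermediateField.adjoin_le_iff]
    intro β hβ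
    have hm : minpoly ℚ (algebraMap M L x) = minpoly ℚ x :=
      minpoly.algebraMap_eq (algebraMap M L).injective x
    have hroot : (Polynomial.aeval β) (minpoly ℚ (algebraMap M L x)) = 0 := by
      rw [hm]
      exact (Polynomial.mem_rootSet.mp hβ).2
    obtain ⟨g, hg⟩ := minpoly.exists_algEquiv_of_root'
      (Algebra.IsAlgebraic.isAlgebraic (algebraMap M L x)) hroot
    have hfix : (y * y) β = β := by
      rw [← hg]; exact key g x
    rw [SetLike.mem_coe, IntermediateField.mem_fixedField_iff]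
    have hle : Subgroup.zpowers (y * y) ≤ MulAction.stabilizer (L ≃ₐ[ℚ] L) β := by
      rw [Subgroup.zpowers_le]
      exact hfix
    intro f hf
    exact hle hf
  ext z
  have hz := htop (IntermediateField.mem_top (x := z))
  rw [IntermediateField.mem_fixedField_iff] at hz
  exact hz (y * y) (Subgroup.mem_zpowers _)

end StarkSQF
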