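import Pool.Agent.StarkLoc.SQF
import Pool.Agent.StarkLoc.ALLK
import Pool.Agent.StarkLoc.PDefsR

/-!
# Extensions whose inertia groups have exponent at most 2
-/

open NumberField IsDedekindDomain StarkP StarkV StarkK

namespace StarkSQF

/-- If `L` is the Galois closure over `ℚ` of a number field of squarefree discriminant and `K` is a
subfield of `L`, then the inertia groups of `L/K` have exponent at most `2`. -/
theorem inertia_two (K L : Type) [Field K] [NumberField K] [Field L] [NumberField L] [Algebra K L]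
    (M : Type) [Field M] [NumberField M] [Algebra M L] (hM : Squarefree (NumberField.discr M))
    (hN : IsNormalClosure ℚ M L) (w : HeightOneSpectrum (𝓞 L)) (y : L ≃ₐ[K] L)
    (hy : FrobPow L w 1 y) : y * y = 1 := by
  have hP : w.asIdeal.IsPrime := w.isPrime
  let f : (L ≃ₐ[K] L) →* (L ≃ₐ[ℚ] L) := AlgEquiv.restrictScalarsHom ℚ
  have hf : Function.Injective f := AlgEquiv.restrictScalarsHom_injective ℚ
  have h1 : f y ∈ w.asIdeal.inertia (L ≃ₐ[ℚ] L) := by
    intro x
    have := hy x (f y • x) rfl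
    rwa [pow_one] at this
  have h2 := sq_eq_one M L (fun P _ hP0 => ramIdx_le_two M hM P hP0) w.asIdeal w.ne_bot _ h1
  rw [← map_mul, ← map_one f] at h2
  exact hf h2

/-- The inertia groups of `L/K` have exponent at most `2` in both cases. -/
theorem inertia_of (K L : Type) [Field K] [NumberField K] [Field L] [NumberField L] [Algebra K L]
    (h : (∀ (w : HeightOneSpectrum (𝓞 L)) (y : L ≃ₐ[K] L), FrobPow L w 1 y → y * y = 1) ∨
      ∃ (M : Type) (_ : Field M) (_ : NumberField M) (_ : Algebra M L),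
        Squarefree (NumberField.discr M) ∧ IsNormalClosure ℚ M L) :
    ∀ (w : HeightOneSpectrum (𝓞 L)) (y : L ≃ₐ[K] L), FrobPow L w 1 y → y * y = 1 := by
  rcases h with h | ⟨M, _, _, _, hM, hN⟩
  · exact h
  · exact fun w y hy => inertia_two K L M hM hN w y hy

theorem pow_eq_self {G : Type} [Group G] (y : G) (hy : y * y = 1) (u : ℕ)
    (hu : u.Coprime (orderOf y)) : y ^ u = y := by
  have h1 : orderOf y ∣ 2 := orderOf_dvd_of_pow_eq_one (by rw [pow_two]; exact hy)
  rcases (Nat.dvd_prime Nat.prime_two).mp h1 with h | h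
  · rw [orderOf_eq_one_iff.mp h, one_pow]
  · rw [h, Nat.coprime_two_right] at hu
    obtain ⟨k, hk⟩ := hu
    rw [hk, pow_succ, pow_mul, pow_two, hy, one_pow, one_mul]

theorem local_of_sq {K L : Type} [Field K] [Field L] [NumberField L] [Algebra K L] (n : ℕ)
    (χ : (L ≃ₐ[K] L) → ℂ) (hv : ∀ g, χ g ∈ cycField n)
    (hI : ∀ (w : HeightOneSpectrum (𝓞 L)) (y : L ≃ₐ[K] L), FrobPow L w 1 y → y * y = 1) :
    Local ∅ n χ where
  values := hv
  inertia w x y _ hy _ _ u hu := by rw [pow_eq_self y (hI w y hy) u hu]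
  above w h := by
    obtain ⟨p, hp, _⟩ := h
    simp at hp

/-- If the inertia groups of `L/K` have exponent at most 2, all characters reduce. -/
theorem reduces_of_sq (K L : Type) [Field K] [NumberField K] [Field L] [NumberField L]
    [Algebra K L] [IsGalois K L] (V : Type) [AddCommGroup V] [Module ℂ V] [Module.Finite ℂ V]
    (ρ : Representation ℂ (L ≃ₐ[K] L) V) (n : ℕ) (hn : 0 < n)
    (hI : ∀ (w : HeightOneSpectrum (𝓞 L)) (y : L ≃ₐ[K] L), FrobPow L w 1 y → y * y = 1)
    (hv : ∀ g, ρ.character g ∈ cycField n) (E : Type) [Field E] [NumberField E] :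
    ReducesCyclic E ∅ n ρ.character ∧
      ∀ σ : ℂ ≃+* ℂ, ClassA E ∅ n σ → StarkRatAll ρ σ := by
  obtain ⟨h1, h2, h3⟩ := StarkKB.main_all K L V ρ ∅ n hn
  have hR := h1.mp (local_of_sq n ρ.character hv hI)
  exact ⟨h2.mp hR E, fun σ hA => h3 hR E σ hA⟩

end StarkSQF
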