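import Pool.Agent.StarkLoc.SPAN

/-!
# Sufficiency of the local conditions
-/

open NumberField IsDedekindDomain
open scoped TensorProduct Classical

namespace StarkC.LOC

namespace SUF

section

variable {K L N : Type} [Field K] [NumberField K] [Field L] [NumberField L] [Field N]
  [NumberField N] [Algebra K L] [Algebra K N] [Algebra L N] [IsScalarTower K L N] [IsGalois K L]
  [IsGalois K N]

/-- The conditions (i)-(iii) are inherited by extensions. -/
theorem locC_infl {T : Finset ℕ} {n : ℕ} {χ : (L ≃ₐ[K] L) → ℂ} (h : LocC T n χ) :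
    LocC T n (fun g : N ≃ₐ[K] N => χ (AlgEquiv.restrictNormalHom L g)) where
  val g := h.val _
  ine w x y hx hy hxy hco u hu := by
    have h1 := h.ine (w.under (𝓞 L)) (AlgEquiv.restrictNormalHom L x)
      (AlgEquiv.restrictNormalHom L y) (RB.dec_restrict hx) (RB.frob_restrict hy)
      (by rw [← map_mul, hxy, map_mul])
      ((hco.coprime_dvd_left (orderOf_map_dvd _ x)).coprime_dvd_right (orderOf_map_dvd _ y)) u
      (hu.coprime_dvd_right (orderOf_map_dvd _ y))
    rw [← map_pow, ← map_mul, ← map_mul] at h1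
    exact h1
  dec w x a hT hx ha := by
    have h1 := h.dec (w.under (𝓞 L)) (AlgEquiv.restrictNormalHom L x) a
      ((UALG.aboveT_under T w).2 hT) (RB.dec_restrict hx)
      (ha.coprime_dvd_right (orderOf_map_dvd _ x))
    rw [← map_pow] at h1
    exact h1

theorem van_infl {χ : (L ≃ₐ[K] L) → ℂ} (h : Van χ) :
    Van (fun g : N ≃ₐ[K] N => χ (AlgEquiv.restrictNormalHom L g)) :=
  fun _ hc => h _ (CMB.isCC_restrict hc)

end

theorem typeAK_sub {K N : Type} [Field K] [Field N] [NumberField N] [Algebra K N] (T : Finset ℕ)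
    (H B : Subgroup (N ≃ₐ[K] N)) (ψ : H →* ℂˣ) (hle : B ≤ H)
    (t : ℕ) (h : TypeAK T H ψ) : TypeAK T B ((ψ ^ t).comp (Subgroup.inclusion hle)) := by
  obtain ⟨h1, h2, h3⟩ := h
  refine ⟨fun c hc => h1 c (hle hc), fun W b hb => ?_, fun W b hT hb => ?_⟩
  · rw [MonoidHom.comp_apply, MonoidHom.pow_apply, h2 W (Subgroup.inclusion hle b) hb, one_pow]
  · rw [MonoidHom.comp_apply, MonoidHom.pow_apply, h3 W (Subgroup.inclusion hle b) hT hb,
      one_pow]

/-- averaging: from any order to order dividing `n` -/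
theorem order_n {K N : Type} [Field K] [NumberField K] [Field N] [NumberField N] [Algebra K N]
    (T : Finset ℕ) (n : ℕ) (hn : 0 < n) (f : (N ≃ₐ[K] N) → ℂ) (hval : ∀ g, f g ∈ Cyc n)
    (hN : f ∈ SpanQ (G := N ≃ₐ[K] N) (fun H ψ => IsCyclic H ∧ TypeAK T H ψ)) :
    f ∈ SpanQ (G := N ≃ₐ[K] N) (fun H ψ => IsCyclic H ∧ TypeAK T H ψ ∧ ψ ^ n = 1) := by
  have h1 : f ∈ SpanQ (G := N ≃ₐ[K] N) (UAVG.Avg
        (fun H ψ => IsCyclic H ∧ TypeAK T H ψ) (UNTH.ev n)) := by
    refine UAVG.main (UNTH.ev n) hN fun a g ha han => ?_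
    exact UVAL.inv_of_values n hn hN hval a g ha
      (Nat.ModEq.of_dvd (UNTH.dvd_ev n) han)
  refine UNTH.spanQ_le ?_ h1
  rintro B ν ⟨H, ψ, hle, t, ⟨hcyc, hA⟩, ht, hν, hνn, hker⟩
  have hA' : TypeAK T B ν := by
    rw [hν]
    exact typeAK_sub T H B ψ hle t hA
  have hcyc' : IsCyclic B := UNTH.cyc_sub hle hcyc
  by_cases hev : Even n
  · have h2 : UNTH.ev n = n := if_pos hev
    rw [h2] at hνn
    exact Submodule.subset_span ⟨B, ν, ⟨hcyc', hA', hνn⟩, rfl⟩
  · have h2 : UNTH.ev n = 2 * n := if_neg hev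
    rw [h2] at hνn
    refine UNTH.spanQ_le ?_ (UNTH.odd_red n (Nat.not_even_iff_odd.1 hev) B ν hνn)
    rintro C μ ⟨hle', s, rfl, hμ⟩
    exact Submodule.subset_span ⟨C, _, ⟨UNTH.cyc_sub hle' hcyc',
      typeAK_sub T B C ν hle' s hA', hμ⟩, rfl⟩

end SUF

open SPAN in
theorem SUFA_thm (hINF : Stmt_UINFL) (hRAM : Stmt_URAM) (hFK : Stmt_UFK)
    (hFKI : Stmt_UFKI) (hCEN : Stmt_UCEN) (hCOMP : Stmt_UCOMP) (hRES : Stmt_LRES)
    (hSPAN : Stmt_LSPAN) : Stmt_LSUFA := by
  intro K L _ _ _ _ _ _ T n hn χ hχ hloc hvan E _ _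
  -- a field `L'` Galois over `ℚ` containing `L` and `E`
  obtain ⟨L', _, _, aQ, aL, aE, _, t1, t2⟩ := hCOMP ℚ L E
  clear t1 t2 aQ
  let aKL' : Algebra K L' := ((algebraMap L L').comp (algebraMap K L)).toAlgebra
  have tKL' : IsScalarTower K L L' := IsScalarTower.of_algebraMap_eq fun x => rfl
  have gKL' : IsGalois K L' := IsGalois.tower_top_of_isGalois ℚ K L'
  set χ' : (L' ≃ₐ[K] L') → ℂ := fun g => χ (AlgEquiv.restrictNormalHom L g) with hχ'
  have hχ2 : χ' ∈ SpanQ (G := L' ≃ₐ[K] L') (fun _ _ => True) :=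
    UALG.spanQ_mono (fun _ _ _ => trivial)
      (hINF (L' ≃ₐ[K] L') (L ≃ₐ[K] L) (AlgEquiv.restrictNormalHom L) χ _
        (AlgEquiv.restrictNormalHom_surjective L') hχ)
  have hloc' : LocC T n χ' := SUF.locC_infl hloc
  have hvan' : Van χ' := SUF.van_infl hvan
  -- the field `N₁`
  obtain ⟨N₁, _, _, _, _, hi1, hN1⟩ := hRES L'
  let aKN1 : Algebra K N₁ := ((algebraMap L' N₁).comp (algebraMap K L')).toAlgebra
  have tKN1 : IsScalarTower K L' N₁ := IsScalarTower.of_algebraMap_eq fun x => rfl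
  have gKN1 : IsGalois K N₁ := IsGalois.tower_top_of_isGalois ℚ K N₁
  set f₁ : (N₁ ≃ₐ[K] N₁) → ℂ := fun g => χ' (AlgEquiv.restrictNormalHom L' g) with hf₁
  have hf₁m : f₁ ∈ SpanQ (G := N₁ ≃ₐ[K] N₁) (fun _ _ => True) :=
    UALG.spanQ_mono (fun _ _ _ => trivial)
      (hINF (N₁ ≃ₐ[K] N₁) (L' ≃ₐ[K] L') (AlgEquiv.restrictNormalHom L') χ' _
        (AlgEquiv.restrictNormalHom_surjective N₁) hχ2)
  have hloc1 : LocC T n f₁ := SUF.locC_infl hloc'
  have hvan1 : Van f₁ := SUF.van_infl hvan'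
  obtain ⟨Tr1, hTr1⟩ := hRAM N₁
  -- the tower
  obtain ⟨Na, _, _, _, _, hNa⟩ := hFK N₁ (T ∪ Tr1)
  obtain ⟨N₂, _, _, _, _, hN2⟩ := hFKI Na (T ∪ Tr1)
  let a12 : Algebra N₁ N₂ := ((algebraMap Na N₂).comp (algebraMap N₁ Na)).toAlgebra
  have t1 : IsScalarTower N₁ Na N₂ := IsScalarTower.of_algebraMap_eq fun x => rfl
  obtain ⟨Nb, _, _, _, _, hNb⟩ := hFK N₂ (T ∪ Tr1)
  let a1b : Algebra N₁ Nb := ((algebraMap N₂ Nb).comp (algebraMap N₁ N₂)).toAlgebra
  obtain ⟨N, _, _, _, _, hN⟩ := hCEN Nb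
  let a2N : Algebra N₂ N := ((algebraMap Nb N).comp (algebraMap N₂ Nb)).toAlgebra
  have t2 : IsScalarTower N₂ Nb N := IsScalarTower.of_algebraMap_eq fun x => rfl
  let a1N : Algebra N₁ N := ((algebraMap N₂ N).comp (algebraMap N₁ N₂)).toAlgebra
  have t3 : IsScalarTower N₁ N₂ N := IsScalarTower.of_algebraMap_eq fun x => rfl
  have t4 : IsScalarTower N₁ Nb N := IsScalarTower.of_algebraMap_eq fun x => rfl
  let aL'N : Algebra L' N := ((algebraMap N₁ N).comp (algebraMap L' N₁)).toAlgebra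
  have t5 : IsScalarTower L' N₁ N := IsScalarTower.of_algebraMap_eq fun x => rfl
  let aLN : Algebra L N := ((algebraMap L' N).comp (algebraMap L L')).toAlgebra
  have t6 : IsScalarTower L L' N := IsScalarTower.of_algebraMap_eq fun x => rfl
  let aK2 : Algebra K N₂ := ((algebraMap N₁ N₂).comp (algebraMap K N₁)).toAlgebra
  have tK2 : IsScalarTower K N₁ N₂ := IsScalarTower.of_algebraMap_eq fun x => rfl
  let aKN : Algebra K N := ((algebraMap N₁ N).comp (algebraMap K N₁)).toAlgebra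
  have tKN : IsScalarTower K N₁ N := IsScalarTower.of_algebraMap_eq fun x => rfl
  have tK2N : IsScalarTower K N₂ N := IsScalarTower.of_algebraMap_eq fun x => rfl
  have tKL'N : IsScalarTower K L' N := IsScalarTower.of_algebraMap_eq fun x => rfl
  have tKLN : IsScalarTower K L N := IsScalarTower.of_algebraMap_eq fun x => rfl
  have gK2 : IsGalois K N₂ := IsGalois.tower_top_of_isGalois ℚ K N₂
  have gKN : IsGalois K N := IsGalois.tower_top_of_isGalois ℚ K N
  have hA := hSPAN K N₁ N₂ N T (T ∪ Tr1) f₁ Finset.subset_union_left hf₁m hi1 hvan1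
    (fun W x a hW ha hT => hloc1.dec W x a hT hW ha)
    (by
      intro W X a hW ha hF
      obtain ⟨e, e', h1, h2, h3, h4⟩ := hN1 W (rq X) a hW (by
        have h5 : orderOf (rq X) = orderOf X :=
          orderOf_injective (rq (K := K) (N := N₁)) rq_inj X
        rwa [h5]) (by
          rw [← map_pow, ← map_inv, ← map_mul]
          exact hF) _ rfl
      rw [rq_res] at h1 h2 h3 h4
      set x : L' ≃ₐ[K] L' := AlgEquiv.restrictNormalHom L' X with hx
      have hp : ∀ k : ℕ, (rq x : L' ≃ₐ[ℚ] L') ^ k = rq (x ^ k) := fun k => (map_pow rq x k).symm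
      rw [hp, hp] at h1 h2
      rw [hp, hp, hp, ← map_pow rq (x ^ e') a, ← map_mul] at h4
      rw [hp] at h3
      rw [← map_mul] at h1
      have h1' := rq_inj h1
      have h4' := rq_inj h4
      rw [orderOf_injective (rq (K := K) (N := L')) rq_inj,
        orderOf_injective (rq (K := K) (N := L')) rq_inj] at h2
      show χ' (AlgEquiv.restrictNormalHom L' (X ^ a)) = χ' (AlgEquiv.restrictNormalHom L' X)
      rw [map_pow, ← hx, ← h4']
      have h5 := hloc'.ine (W.under (𝓞 L')) (x ^ e) (x ^ e')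
        (RB.dec_pow (RB.dec_restrict hW) e) h3 (by rw [← pow_add, ← pow_add, add_comm]) h2 a (by
          refine ha.coprime_dvd_right ?_
          exact (orderOf_pow_dvd e').trans (orderOf_map_dvd _ X))
      rw [h5, h1'])
    (by
      intro W hW g hg
      exact hTr1 W (fun h => hW (UALG.aboveT_mono Finset.subset_union_right h)) g hg)
    (by
      intro h P Q hP hQ hTP hTQ hne
      have h1 := hNa (AlgEquiv.restrictNormalHom Na h) (P.under (𝓞 Na)) (Q.under (𝓞 Na))
        (RB.dec_restrict hP) (RB.dec_restrict hQ) ((UALG.aboveT_under _ _).2 hTP)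
        ((UALG.aboveT_under _ _).2 hTQ) (by
          rw [RB.under_under, RB.under_under]
          exact hne)
      rwa [UALG.res12] at h1)
    (by
      intro c W hc hW hT
      have h1 := hN2 c W hc hW hT
      rw [← UALG.res12 (N₂ := Na), h1, map_one])
    (by
      intro h P Q hP hQ hTP hTQ hne
      have h1 := hNb (AlgEquiv.restrictNormalHom Nb h) (P.under (𝓞 Nb)) (Q.under (𝓞 Nb))
        (RB.dec_restrict hP) (RB.dec_restrict hQ) ((UALG.aboveT_under _ _).2 hTP)
        ((UALG.aboveT_under _ _).2 hTQ) (by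
          rw [RB.under_under, RB.under_under]
          exact hne)
      rwa [UALG.res12] at h1)
    (by
      intro g c hc hgc
      rcases hN g c hc hgc with h1 | h1
      · left
        rw [← UALG.res12 (N₂ := Nb), h1, map_one]
      · right
        rw [← UALG.res12 (N₁ := N₁) (N₂ := Nb) g, h1, UALG.res12])
  refine ⟨N, inferInstance, inferInstance, aKN, aLN, tKLN, inferInstance, gKN,
    ⟨(algebraMap L' N).comp (algebraMap E L')⟩, ?_⟩
  have hres : (fun g : N ≃ₐ[K] N => χ (AlgEquiv.restrictNormalHom L g)) =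
      fun g : N ≃ₐ[K] N => f₁ (AlgEquiv.restrictNormalHom N₁ g) := by
    funext g
    show χ (AlgEquiv.restrictNormalHom L g) =
      χ (AlgEquiv.restrictNormalHom L (AlgEquiv.restrictNormalHom L'
        (AlgEquiv.restrictNormalHom N₁ g : N₁ ≃ₐ[K] N₁) : L' ≃ₐ[K] L'))
    rw [← IsScalarTower.AlgEquiv.restrictNormalHom_comp_apply L' N₁ g,
      ← IsScalarTower.AlgEquiv.restrictNormalHom_comp_apply L L' g]
  refine SUF.order_n T n hn _ (fun g => hloc.val _) ?_
  rw [hres]
  exact hA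

end StarkC.LOC
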