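import Pool.Agent.StarkLoc.Stmts
import Pool.Agent.StarkU.CNMAIN

/-!
# The exact range of ideal class characters: statements of the modules, Stark part
-/

open NumberField IsDedekindDomain
open scoped TensorProduct Classical

namespace StarkC.LOC

/-- Stark's assertion up to roots of unity, one `σ`, for the characters with (i)-(iii) and `Q`. -/
def StarkLocQ (Q : ∀ (K L : Type) [Field K] [Field L] [Algebra K L], ((L ≃ₐ[K] L) → ℂ) → Prop)
    (T : Finset ℕ) (n : ℕ) (σ : ℂ ≃+* ℂ) : Prop :=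
  ∀ (K L : Type) [Field K] [NumberField K] [Field L] [NumberField L] [Algebra K L] [IsGalois K L]
    (S : Finset (HeightOneSpectrum (𝓞 K)))
    (φ : XQ L (aboveSet K L S) ≃ₗ[ℚ] QU L (aboveSet K L S))
    (Θ : XC L (aboveSet K L S) →ₗ[ℂ] XC L (aboveSet K L S))
    (V V' : Type) [AddCommGroup V] [Module ℂ V] [Module.Finite ℂ V]
    [AddCommGroup V'] [Module ℂ V'] [Module.Finite ℂ V']
    (ρ : Representation ℂ (L ≃ₐ[K] L) V) (ρ' : Representation ℂ (L ≃ₐ[K] L) V'),
    IsPhiTheta K (aboveSet K L S) φ Θ → (∀ g, ρ'.character g = σ (ρ.character g)) →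
    LocC T n ρ.character → Q K L ρ.character →
    ∃ M : ℕ, 0 < M ∧
      StarkMulAt M (S : Set (HeightOneSpectrum (𝓞 K))) (aboveSet K L S) Θ ρ ρ' σ

/-- with (i)-(iv) -/
def StarkLocA (T : Finset ℕ) (n : ℕ) (σ : ℂ ≃+* ℂ) : Prop :=
  StarkLocQ (fun K L _ _ _ χ => Van (K := K) (L := L) χ) T n σ

/-- with (i)-(iii) -/
def StarkLocB (T : Finset ℕ) (n : ℕ) (σ : ℂ ≃+* ℂ) : Prop :=
  StarkLocQ (fun _ _ _ _ _ _ => True) T n σ

/-- the trivial characters (a consequence of the analytic class number formula) -/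
def StarkTriv (σ : ℂ ≃+* ℂ) : Prop :=
  ∀ (K : Type) [Field K] [NumberField K], StarkRat1 σ K K 1

/-- M4a: Theorem C with (iv). -/
def Stmt_LSTKA : Prop :=
  Stmt_LSUFA → ∀ (E : Type) [Field E] [NumberField E] (T : Finset ℕ) (n : ℕ) (σ : ℂ ≃+* ℂ), 0 < n →
    (StarkLocA T n σ ↔ ∀ (K L : Type) [Field K] [NumberField K] [Field L] [NumberField L]
      [Algebra K L] [IsGalois K L], ClassAn E T n σ K L)

/-- M4b: Theorem C without (iv). -/
def Stmt_LSTKB : Prop :=
  Stmt_LSUFB → ∀ (E : Type) [Field E] [NumberField E] (T : Finset ℕ) (n : ℕ) (σ : ℂ ≃+* ℂ), 0 < n →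
    (StarkLocB T n σ ↔ (∀ (K L : Type) [Field K] [NumberField K] [Field L] [NumberField L]
      [Algebra K L] [IsGalois K L], ClassAn E T n σ K L) ∧ StarkTriv σ)

end StarkC.LOC
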