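import Pool.Agent.StarkLoc.UALGK
import Pool.Agent.StarkU.ALLV

/-!
# The tower over a level where the local conditions hold
-/

open NumberField IsDedekindDomain
open scoped TensorProduct Classical

namespace StarkC

namespace TOWK

open UALG

/-- From the local conditions at the level `N₁` to a span at a higher level `N`. -/
theorem main (P₀ : Prop) (K N₁ : Type) [Field K] [NumberField K] [Field N₁] [NumberField N₁]
    [IsGalois ℚ N₁] [Algebra K N₁] [IsGalois K N₁] (T : Finset ℕ)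
    (f₁ : (N₁ ≃ₐ[K] N₁) → ℂ) (hf₁ : f₁ ∈ SpanQ (G := N₁ ≃ₐ[K] N₁) (fun _ _ => True))
    (hi : ∃ i : N₁, i ^ 2 = -1) (hcc : P₀ ∨ ∀ c : N₁ ≃ₐ[K] N₁, IsCC c → f₁ c = 0)
    (hU1 : ∀ (W : HeightOneSpectrum (𝓞 N₁)) (x : N₁ ≃ₐ[K] N₁) (a : ℕ), Dec W x →
      a.Coprime (orderOf x) → AboveT T W → f₁ (x ^ a) = f₁ x)
    (hU2 : ∀ (W : HeightOneSpectrum (𝓞 N₁)) (x : N₁ ≃ₐ[K] N₁) (a : ℕ), Dec W x →
      a.Coprime (orderOf x) → FrobPow N₁ W 1 (x ^ a * x⁻¹ : N₁ ≃ₐ[K] N₁) → f₁ (x ^ a) = f₁ x) :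
    ∃ (N : Type) (_ : Field N) (_ : NumberField N) (_ : Algebra K N) (_ : Algebra N₁ N)
      (_ : IsScalarTower K N₁ N) (_ : IsGalois ℚ N),
      (fun g : N ≃ₐ[K] N => f₁ (AlgEquiv.restrictNormalHom N₁ g)) ∈
        SpanQ (G := N ≃ₐ[K] N) (fun H ψ =>
          (IsCyclic H ∧ (∀ c ∈ H, ¬ IsCC c) ∧
            (∀ (W : HeightOneSpectrum (𝓞 N)) (h : H), FrobPow N W 1 (h : N ≃ₐ[K] N) → ψ h = 1) ∧
            (∀ (W : HeightOneSpectrum (𝓞 N)) (h : H), AboveT T W → Dec W (h : N ≃ₐ[K] N) →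
              ψ h = 1)) ∨ (P₀ ∧ ψ = 1)) := by
  obtain ⟨Tr1, hTr1⟩ := URAM_thm N₁
  -- the tower
  obtain ⟨Na, _, _, _, _, hNa⟩ := ALLU.ufk N₁ (T ∪ Tr1)
  obtain ⟨N₂, _, _, _, _, hN2⟩ := UFKI_thm UEXT_thm Na (T ∪ Tr1)
  let a12 : Algebra N₁ N₂ := ((algebraMap Na N₂).comp (algebraMap N₁ Na)).toAlgebra
  have t1 : IsScalarTower N₁ Na N₂ := IsScalarTower.of_algebraMap_eq fun x => rfl
  obtain ⟨Nb, _, _, _, _, hNb⟩ := ALLU.ufk N₂ (T ∪ Tr1)
  let a1b : Algebra N₁ Nb := ((algebraMap N₂ Nb).comp (algebraMap N₁ N₂)).toAlgebra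
  obtain ⟨N, _, _, _, _, hN⟩ := UCEN_thm UEXT_thm Nb
  let a2N : Algebra N₂ N := ((algebraMap Nb N).comp (algebraMap N₂ Nb)).toAlgebra
  have t2 : IsScalarTower N₂ Nb N := IsScalarTower.of_algebraMap_eq fun x => rfl
  let a1N : Algebra N₁ N := ((algebraMap N₂ N).comp (algebraMap N₁ N₂)).toAlgebra
  have t3 : IsScalarTower N₁ N₂ N := IsScalarTower.of_algebraMap_eq fun x => rfl
  have t4 : IsScalarTower N₁ Nb N := IsScalarTower.of_algebraMap_eq fun x => rfl
  let aKN : Algebra K N := ((algebraMap N₁ N).comp (algebraMap K N₁)).toAlgebra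
  have t5 : IsScalarTower K N₁ N := IsScalarTower.of_algebraMap_eq fun x => rfl
  have hgal : IsGalois K N := IsGalois.tower_top_of_isGalois ℚ K N
  refine ⟨N, inferInstance, inferInstance, aKN, a1N, t5, inferInstance, ?_⟩
  refine UALGK.typeA_span (K := K) (N₁ := N₁) (N₂ := N₂) (N := N) UART_thm UCYC_thm UMACK_thm
    UIND_thm UINFL_thm P₀ T T (T ∪ Tr1) subset_rfl Finset.subset_union_left f₁ hf₁ hi hcc hU1
    hU2
    (by
      intro W hW g hg
      exact hTr1 W (fun h => hW (aboveT_mono Finset.subset_union_right h)) g hg)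
    (by
      intro h P Q hP hQ hTP hTQ hne
      have h1 := hNa (AlgEquiv.restrictNormalHom Na h) (P.under (𝓞 Na)) (Q.under (𝓞 Na))
        (RB.dec_restrict hP) (RB.dec_restrict hQ) ((aboveT_under _ _).2 hTP)
        ((aboveT_under _ _).2 hTQ) (by
          rw [RB.under_under, RB.under_under]
          exact hne)
      rwa [res12] at h1)
    (by
      intro c W hc hW hT
      have h1 := hN2 c W hc hW hT
      rw [← res12 (N₂ := Na), h1, map_one])
    (by
      intro h P Q hP hQ hTP hTQ hne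
      have h1 := hNb (AlgEquiv.restrictNormalHom Nb h) (P.under (𝓞 Nb)) (Q.under (𝓞 Nb))
        (RB.dec_restrict hP) (RB.dec_restrict hQ) ((aboveT_under _ _).2 hTP)
        ((aboveT_under _ _).2 hTQ) (by
          rw [RB.under_under, RB.under_under]
          exact hne)
      rwa [res12] at h1)
    (by
      intro g c hc hgc
      rcases hN g c hc hgc with h1 | h1
      · left
        rw [← res12 (N₂ := Nb), h1, map_one]
      · right
        rw [← res12 (N₁ := N₁) (N₂ := Nb) g, h1, res12])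

end TOWK

end StarkC
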