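import Pool.Agent.StarkU.UALGC
import Pool.Agent.StarkT.DOWN

/-!
# The type (A) span over an arbitrary base field
-/

open NumberField IsDedekindDomain
open scoped TensorProduct Classical

namespace StarkC

namespace UALGK

open UALG

section base

variable {K N : Type} [Field K] [NumberField K] [Field N] [NumberField N] [Algebra K N]

theorem isCC_rs {c : N ≃ₐ[K] N} (h : IsCC c) : IsCC (c.restrictScalars ℚ : N ≃ₐ[ℚ] N) := h

theorem zpow_rs {g x : N ≃ₐ[K] N} (h : x ∈ Subgroup.zpowers g) :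
    (x.restrictScalars ℚ : N ≃ₐ[ℚ] N) ∈ Subgroup.zpowers (g.restrictScalars ℚ : N ≃ₐ[ℚ] N) := by
  obtain ⟨k, rfl⟩ := Subgroup.mem_zpowers_iff.1 h
  refine Subgroup.mem_zpowers_iff.2 ⟨k, ?_⟩
  exact (map_zpow (AlgEquiv.restrictScalarsHom ℚ : (N ≃ₐ[K] N) →* (N ≃ₐ[ℚ] N)) g k).symm

/-- decomposition group over `K` -/
def decK (w : HeightOneSpectrum (𝓞 N)) : Subgroup (N ≃ₐ[K] N) where
  carrier := {g | Dec w g}
  mul_mem' := fun ha hb => RB.dec_mul ha hb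
  one_mem' := RB.dec_one w
  inv_mem' := fun ha => RB.dec_inv ha

/-- inertia group over `K` -/
def inK (w : HeightOneSpectrum (𝓞 N)) : Subgroup (N ≃ₐ[K] N) :=
  (inS w).comap (AlgEquiv.restrictScalarsHom ℚ : (N ≃ₐ[K] N) →* (N ≃ₐ[ℚ] N))

theorem mem_inK (w : HeightOneSpectrum (𝓞 N)) (g : N ≃ₐ[K] N) :
    g ∈ inK w ↔ FrobPow N w 1 g := Iff.rfl

end base

section main

variable {K N₁ N₂ N : Type} [Field K] [NumberField K]
  [Field N₁] [NumberField N₁] [IsGalois ℚ N₁] [Field N₂] [NumberField N₂]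
  [IsGalois ℚ N₂] [Field N] [NumberField N] [IsGalois ℚ N] [Algebra N₁ N₂] [Algebra N₁ N]
  [Algebra N₂ N] [IsScalarTower N₁ N₂ N] [Algebra K N₁] [Algebra K N] [IsScalarTower K N₁ N]
  [IsGalois K N₁] [IsGalois K N]

theorem res_rs (g : N ≃ₐ[K] N) :
    (AlgEquiv.restrictNormalHom N₁ (g.restrictScalars ℚ : N ≃ₐ[ℚ] N) : N₁ ≃ₐ[ℚ] N₁) =
      (AlgEquiv.restrictNormalHom N₁ g : N₁ ≃ₐ[K] N₁).restrictScalars ℚ := by
  ext x
  apply (algebraMap N₁ N).injective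
  have h1 := AlgEquiv.restrictNormal_commutes (g.restrictScalars ℚ : N ≃ₐ[ℚ] N) N₁ x
  have h2 := AlgEquiv.restrictNormal_commutes g N₁ x
  show algebraMap N₁ N (((g.restrictScalars ℚ : N ≃ₐ[ℚ] N)).restrictNormal N₁ x) =
    algebraMap N₁ N ((g.restrictNormal N₁) x)
  rw [h1, h2]
  rfl

theorem res_one (g : N ≃ₐ[K] N) :
    (AlgEquiv.restrictNormalHom N₁ (g.restrictScalars ℚ : N ≃ₐ[ℚ] N) : N₁ ≃ₐ[ℚ] N₁) = 1 ↔
      (AlgEquiv.restrictNormalHom N₁ g : N₁ ≃ₐ[K] N₁) = 1 := by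
  rw [res_rs]
  constructor
  · intro h
    ext x
    exact AlgEquiv.congr_fun h x
  · intro h
    rw [h]
    rfl

/-- The span over `K`.  With `P₀` the trivial characters of all subgroups are allowed, and then
no condition at the complex conjugations is needed. -/
theorem typeA_span (hART : Stmt_UART) (hCYC : Stmt_UCYC) (hMK : Stmt_UMACK) (hIND : Stmt_UIND)
    (hINF : Stmt_UINFL) (P₀ : Prop) (T T₀ T₁ : Finset ℕ) (hT01 : T ⊆ T₀) (hT12 : T₀ ⊆ T₁)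
    (f₁ : (N₁ ≃ₐ[K] N₁) → ℂ) (hf₁ : f₁ ∈ SpanQ (G := N₁ ≃ₐ[K] N₁) (fun _ _ => True))
    (hi : ∃ i : N₁, i ^ 2 = -1) (hcc : P₀ ∨ ∀ c : N₁ ≃ₐ[K] N₁, IsCC c → f₁ c = 0)
    (hU1 : ∀ (W : HeightOneSpectrum (𝓞 N₁)) (x : N₁ ≃ₐ[K] N₁) (a : ℕ), Dec W x →
      a.Coprime (orderOf x) → AboveT T₀ W → f₁ (x ^ a) = f₁ x)
    (hU2 : ∀ (W : HeightOneSpectrum (𝓞 N₁)) (x : N₁ ≃ₐ[K] N₁) (a : ℕ), Dec W x →
      a.Coprime (orderOf x) → FrobPow N₁ W 1 (x ^ a * x⁻¹ : N₁ ≃ₐ[K] N₁) → f₁ (x ^ a) = f₁ x)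
    (hram : ∀ W : HeightOneSpectrum (𝓞 N₁), ¬ AboveT T₁ W → ∀ g : N₁ ≃ₐ[ℚ] N₁,
      FrobPow N₁ W 1 g → g = 1)
    (hFK12 : ∀ (h : N₂ ≃ₐ[ℚ] N₂) (P Q : HeightOneSpectrum (𝓞 N₂)), Dec P h → Dec Q h →
      AboveT T₁ P → AboveT T₁ Q → P.under (𝓞 N₁) ≠ Q.under (𝓞 N₁) →
      (AlgEquiv.restrictNormalHom N₁ h : N₁ ≃ₐ[ℚ] N₁) = 1)
    (hFKI : ∀ (c : N₂ ≃ₐ[ℚ] N₂) (W : HeightOneSpectrum (𝓞 N₂)), IsCC c → Dec W c →
      AboveT T₁ W → (AlgEquiv.restrictNormalHom N₁ c : N₁ ≃ₐ[ℚ] N₁) = 1)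
    (hFK : ∀ (h : N ≃ₐ[ℚ] N) (P Q : HeightOneSpectrum (𝓞 N)), Dec P h → Dec Q h →
      AboveT T₁ P → AboveT T₁ Q → P.under (𝓞 N₂) ≠ Q.under (𝓞 N₂) →
      (AlgEquiv.restrictNormalHom N₂ h : N₂ ≃ₐ[ℚ] N₂) = 1)
    (hCEN : ∀ g c : N ≃ₐ[ℚ] N, IsCC c → g * c = c * g →
      (AlgEquiv.restrictNormalHom N₁ g : N₁ ≃ₐ[ℚ] N₁) = 1 ∨
        (AlgEquiv.restrictNormalHom N₁ g : N₁ ≃ₐ[ℚ] N₁) = AlgEquiv.restrictNormalHom N₁ c) :
    (fun g : N ≃ₐ[K] N => f₁ (AlgEquiv.restrictNormalHom N₁ g)) ∈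
      SpanQ (G := N ≃ₐ[K] N) (fun H ψ =>
        (IsCyclic H ∧ (∀ c ∈ H, ¬ IsCC c) ∧
          (∀ (W : HeightOneSpectrum (𝓞 N)) (h : H), FrobPow N W 1 (h : N ≃ₐ[K] N) → ψ h = 1) ∧
          (∀ (W : HeightOneSpectrum (𝓞 N)) (h : H), AboveT T W → Dec W (h : N ≃ₐ[K] N) →
            ψ h = 1)) ∨ (P₀ ∧ ψ = 1)) := by
  set f : (N ≃ₐ[K] N) → ℂ := fun g => f₁ (AlgEquiv.restrictNormalHom N₁ g) with hfdef
  have hf : f ∈ SpanQ (G := N ≃ₐ[K] N) (fun _ _ => True) :=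
    spanQ_mono (fun _ _ _ => trivial)
      (hINF (N ≃ₐ[K] N) (N₁ ≃ₐ[K] N₁) (AlgEquiv.restrictNormalHom N₁) f₁ _
        (AlgEquiv.restrictNormalHom_surjective N) hf₁)
  refine of_art hART f (fun x g => spanQ_class hf x g) fun g => ?_
  -- primes with nontrivial inertia on `N₁` are above `T₁`
  have hab : ∀ (W : HeightOneSpectrum (𝓞 N)) (h : N ≃ₐ[K] N),
      (AlgEquiv.restrictNormalHom N₁ h : N₁ ≃ₐ[K] N₁) ≠ 1 →
      (FrobPow N W 1 h ∨ (AboveT T W ∧ Dec W h)) → AboveT T₁ W ∧ Dec W h := by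
    rintro W h hne (h1 | ⟨h1, h2⟩)
    · refine ⟨?_, RB.dec_of_frob h1⟩
      by_contra h3
      refine hne ((res_one h).1 (hram (W.under (𝓞 N₁)) ?_ _
        (RB.frob_restrict (g := (h.restrictScalars ℚ : N ≃ₐ[ℚ] N)) h1)))
      rwa [aboveT_under]
    · exact ⟨aboveT_mono (hT01.trans hT12) h1, h2⟩
  have hcN : ∀ c : N ≃ₐ[K] N, IsCC c →
      (AlgEquiv.restrictNormalHom N₁ c : N₁ ≃ₐ[K] N₁) ≠ 1 := by
    intro c hc h
    exact cc_ne_one (cc_restrict (L := N₁) (isCC_rs hc)) hi ((res_one c).2 h)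
  by_cases hcase : ∃ (W : HeightOneSpectrum (𝓞 N)) (h : N ≃ₐ[K] N), h ∈ Subgroup.zpowers g ∧
      (AlgEquiv.restrictNormalHom N₁ h : N₁ ≃ₐ[K] N₁) ≠ 1 ∧
      (FrobPow N W 1 h ∨ (AboveT T W ∧ Dec W h))
  · -- case 1
    obtain ⟨W, h, hh, hne, hor⟩ := hcase
    obtain ⟨hW1, hWd⟩ := hab W h hne hor
    have hg2 := star (N₁ := N₁) T₁ hFK (g.restrictScalars ℚ) (h.restrictScalars ℚ) (zpow_rs hh) W
      hWd hW1 (fun h' => hne ((res_one h).1 h'))
    have hg2' : ∀ x ∈ Subgroup.zpowers g,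
        Dec (W.under (𝓞 N₂)) (AlgEquiv.restrictNormalHom N₂ (x.restrictScalars ℚ : N ≃ₐ[ℚ] N) :
          N₂ ≃ₐ[ℚ] N₂) := by
      intro x hx
      have h1 : AlgEquiv.restrictNormalHom N₂ (g.restrictScalars ℚ : N ≃ₐ[ℚ] N) ∈
        decS (W.under (𝓞 N₂)) := hg2
      obtain ⟨k, hk⟩ := Subgroup.mem_zpowers_iff.1 (zpow_rs hx)
      have h2 := (decS (W.under (𝓞 N₂))).zpow_mem h1 k
      rw [← map_zpow, hk] at h2
      exact h2
    have hg1' : ∀ x ∈ Subgroup.zpowers g,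
        Dec (W.under (𝓞 N₁)) (AlgEquiv.restrictNormalHom N₁ x : N₁ ≃ₐ[K] N₁) := by
      intro x hx
      have h1 := RB.dec_restrict (L := N₁) (hg2' x hx)
      rw [res12, RB.under_under, res_rs] at h1
      exact h1
    -- the subgroup `J`
    obtain ⟨J, hJ, hJ2, hJ3⟩ : ∃ J : Subgroup (N ≃ₐ[K] N),
        (∀ x ∈ Subgroup.zpowers g, ∀ a : ℕ, a.Coprime (orderOf x) → x ^ a * x⁻¹ ∈ J →
          f (x ^ a) = f x) ∧
        (∀ x : N ≃ₐ[K] N, FrobPow N₁ (W.under (𝓞 N₁)) 1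
          (AlgEquiv.restrictNormalHom N₁ x : N₁ ≃ₐ[K] N₁) → x ∈ J) ∧
        (AboveT T₀ (W.under (𝓞 N₁)) → ∀ x, x ∈ J) := by
      by_cases hT0 : AboveT T₀ (W.under (𝓞 N₁))
      · refine ⟨⊤, fun x hx a ha _ => ?_, fun _ _ => Subgroup.mem_top _, fun _ _ =>
          Subgroup.mem_top _⟩
        have h1 := hU1 (W.under (𝓞 N₁)) (AlgEquiv.restrictNormalHom N₁ x) a (hg1' x hx)
          (ha.coprime_dvd_right (orderOf_map_dvd _ x)) hT0
        rw [← map_pow] at h1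
        exact h1
      · refine ⟨(inK (W.under (𝓞 N₁))).comap (AlgEquiv.restrictNormalHom N₁),
          fun x hx a ha hJ => ?_, fun x hx => hx, fun h => absurd h hT0⟩
        have h2 : FrobPow N₁ (W.under (𝓞 N₁)) 1
            (AlgEquiv.restrictNormalHom N₁ (x ^ a * x⁻¹) : N₁ ≃ₐ[K] N₁) := hJ
        rw [map_mul, map_pow, map_inv] at h2
        have h1 := hU2 (W.under (𝓞 N₁)) (AlgEquiv.restrictNormalHom N₁ x) a (hg1' x hx)
          (ha.coprime_dvd_right (orderOf_map_dvd _ x)) h2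
        rw [← map_pow] at h1
        exact h1
    refine spanQ_mono ?_ (cyc_step hCYC hMK hIND g f hf J hJ)
    rintro B ν ⟨hB, hν⟩
    have hJ1 : ∀ x : N ≃ₐ[K] N,
        (AlgEquiv.restrictNormalHom N₁ x : N₁ ≃ₐ[K] N₁) = 1 → x ∈ J := by
      intro x hx
      refine hJ2 x ?_
      rw [hx]
      exact (inK (K := K) (W.under (𝓞 N₁))).one_mem
    have hkey : ∀ (W' : HeightOneSpectrum (𝓞 N)) (h' : B),
        (AlgEquiv.restrictNormalHom N₁ (h' : N ≃ₐ[K] N) : N₁ ≃ₐ[K] N₁) ≠ 1 →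
        AboveT T₁ W' → Dec W' (h' : N ≃ₐ[K] N) → W'.under (𝓞 N₁) = W.under (𝓞 N₁) := by
      intro W' h' hne' hW' hd'
      have h4 : Dec (W'.under (𝓞 N₂))
          (AlgEquiv.restrictNormalHom N₂
            ((h' : N ≃ₐ[K] N).restrictScalars ℚ : N ≃ₐ[ℚ] N) : N₂ ≃ₐ[ℚ] N₂) :=
        RB.dec_restrict (g := ((h' : N ≃ₐ[K] N).restrictScalars ℚ : N ≃ₐ[ℚ] N)) hd'
      have h5 := hg2' h' (hB h'.2)
      by_contra h6
      apply hne'
      have h7 := hFK12 _ _ _ h4 h5 ((aboveT_under T₁ W').2 hW') ((aboveT_under T₁ W).2 hW1) (by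
        rw [RB.under_under, RB.under_under]
        exact h6)
      rw [res12] at h7
      exact (res_one _).1 h7
    refine Or.inl ⟨UALGC.cyc_of_le hB, fun c hc hcC => ?_, fun W' h' hF => ?_,
      fun W' h' hT' hd' => ?_⟩
    · have h1 := hFKI _ (W.under (𝓞 N₂)) (cc_restrict (L := N₂) (isCC_rs hcC)) (hg2' c (hB hc))
        ((aboveT_under T₁ W).2 hW1)
      rw [res12] at h1
      exact hcN c hcC ((res_one _).1 h1)
    · refine hν h' ?_
      by_cases h1 : (AlgEquiv.restrictNormalHom N₁ (h' : N ≃ₐ[K] N) : N₁ ≃ₐ[K] N₁) = 1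
      · exact hJ1 _ h1
      · obtain ⟨h2, h3⟩ := hab W' h' h1 (Or.inl hF)
        have h4 := hkey W' h' h1 h2 h3
        refine hJ2 _ ?_
        rw [← h4]
        exact RB.frob_restrict hF
    · refine hν h' ?_
      by_cases h1 : (AlgEquiv.restrictNormalHom N₁ (h' : N ≃ₐ[K] N) : N₁ ≃ₐ[K] N₁) = 1
      · exact hJ1 _ h1
      · obtain ⟨h2, h3⟩ := hab W' h' h1 (Or.inr ⟨hT', hd'⟩)
        have h4 := hkey W' h' h1 h2 h3
        refine hJ3 ?_ _
        rw [← h4, aboveT_under]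
        exact aboveT_mono hT01 hT'
  · have hcase' : ∀ (W : HeightOneSpectrum (𝓞 N)) (h : N ≃ₐ[K] N), h ∈ Subgroup.zpowers g →
        (FrobPow N W 1 h ∨ (AboveT T W ∧ Dec W h)) →
        (AlgEquiv.restrictNormalHom N₁ h : N₁ ≃ₐ[K] N₁) = 1 := by
      intro W h hh hor
      by_contra hne
      exact hcase ⟨W, h, hh, hne, hor⟩
    by_cases hC : ∃ c ∈ Subgroup.zpowers g, IsCC c
    · -- case 3
      obtain ⟨c, hc, hcC⟩ := hC
      set c₁ : N₁ ≃ₐ[K] N₁ := AlgEquiv.restrictNormalHom N₁ c with hc₁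
      have hdich : ∀ x ∈ Subgroup.zpowers g,
          (AlgEquiv.restrictNormalHom N₁ x : N₁ ≃ₐ[K] N₁) ≠ 1 →
          (AlgEquiv.restrictNormalHom N₁ x : N₁ ≃ₐ[K] N₁) = c₁ := by
        intro x hx hne
        have hcomm : x * c = c * x := by
          obtain ⟨k, rfl⟩ := Subgroup.mem_zpowers_iff.1 hx
          obtain ⟨m, rfl⟩ := Subgroup.mem_zpowers_iff.1 hc
          rw [← zpow_add, ← zpow_add, add_comm]
        rcases hCEN (x.restrictScalars ℚ) (c.restrictScalars ℚ) (isCC_rs hcC)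
          (by ext z; exact AlgEquiv.congr_fun hcomm z) with h2 | h2
        · exact absurd ((res_one _).1 h2) hne
        · rw [res_rs, res_rs] at h2
          ext z
          exact AlgEquiv.congr_fun h2 z
      obtain ⟨r, hr⟩ := spanQ_invol hf₁ 1 (by rw [one_mul])
      have hcc1 : c₁ * c₁ = 1 := by
        rw [hc₁, ← map_mul]
        have h2 : c * c = 1 := by
          obtain ⟨Φ, hΦ⟩ := hcC
          ext x
          exact ComplexEmbedding.isConj_apply_apply hΦ x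
        rw [h2, map_one]
      obtain ⟨s, hs⟩ := spanQ_invol hf₁ c₁ hcc1
      have hs0 : P₀ ∨ s = 0 := by
        rcases hcc with h0 | h0
        · exact Or.inl h0
        · right
          have h2 : IsCC c₁ := by
            have h3 := cc_restrict (L := N₁) (isCC_rs hcC)
            rw [res_rs] at h3
            exact h3
          have h3 := h0 c₁ h2
          rw [hs] at h3
          exact_mod_cast h3
      set C₀ : Subgroup (N ≃ₐ[K] N) := Subgroup.zpowers g ⊓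
        (AlgEquiv.restrictNormalHom N₁ : (N ≃ₐ[K] N) →* (N₁ ≃ₐ[K] N₁)).ker with hC0
      have hval : ∀ x ∈ Subgroup.zpowers g, f x =
          ((r - s : ℚ) : ℂ) * (if x ∈ C₀ then (1 : ℂ) else 0) + (s : ℂ) := by
        intro x hx
        by_cases hx2 : (AlgEquiv.restrictNormalHom N₁ x : N₁ ≃ₐ[K] N₁) = 1
        · have hx3 : x ∈ C₀ := ⟨hx, hx2⟩
          rw [if_pos hx3]
          show f₁ (AlgEquiv.restrictNormalHom N₁ x) = _
          rw [hx2, hr]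
          push_cast
          ring
        · have hx3 : x ∉ C₀ := fun h => hx2 h.2
          rw [if_neg hx3]
          show f₁ (AlgEquiv.restrictNormalHom N₁ x) = _
          rw [hdich x hx hx2, hs]
          ring
      have h2 : indFun (Subgroup.zpowers g) f =
          ((r - s) * (Nat.card C₀ : ℚ) / (Nat.card (Subgroup.zpowers g) : ℚ)) •
            indFun C₀ (extZ (1 : C₀ →* ℂˣ)) +
          s • indFun (Subgroup.zpowers g) (extZ (1 : Subgroup.zpowers g →* ℂˣ)) := by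
        rw [indFun_extZ_one, indFun_extZ_one]
        funext y
        rw [Pi.add_apply, Pi.smul_apply, Pi.smul_apply, Rat.smul_def, Rat.smul_def]
        unfold indFun
        have h3 : ∀ x : N ≃ₐ[K] N, (if x⁻¹ * y * x ∈ Subgroup.zpowers g then f (x⁻¹ * y * x)
            else 0) = ((r - s : ℚ) : ℂ) * (if x⁻¹ * y * x ∈ C₀ then (1 : ℂ) else 0) +
              (s : ℂ) * (if x⁻¹ * y * x ∈ Subgroup.zpowers g then (1 : ℂ) else 0) := by
          intro x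
          by_cases hx : x⁻¹ * y * x ∈ Subgroup.zpowers g
          · rw [if_pos hx, if_pos hx, hval _ hx, mul_one]
          · have hx3 : x⁻¹ * y * x ∉ C₀ := fun h => hx h.1
            rw [if_neg hx, if_neg hx, if_neg hx3, mul_zero, mul_zero, add_zero]
        rw [Finset.sum_congr rfl fun x _ => h3 x, Finset.sum_add_distrib, ← Finset.mul_sum,
          ← Finset.mul_sum]
        have h4 : (Nat.card C₀ : ℂ) ≠ 0 := by exact_mod_cast Nat.card_pos.ne'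
        have h5 : (Nat.card (Subgroup.zpowers g) : ℂ) ≠ 0 := by exact_mod_cast Nat.card_pos.ne'
        push_cast
        field_simp
      rw [h2]
      refine Submodule.add_mem _ (Submodule.smul_mem _ _ (Submodule.subset_span
        ⟨C₀, 1, Or.inl ?_, rfl⟩)) ?_
      · exact ⟨UALGC.cyc_of_le inf_le_left, fun c' hc' hcC' => hcN c' hcC' hc'.2,
          fun _ _ _ => rfl, fun _ _ _ _ => rfl⟩
      · rcases hs0 with h0 | h0
        · exact Submodule.smul_mem _ _ (Submodule.subset_span ⟨_, 1, Or.inr ⟨h0, rfl⟩, rfl⟩)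
        · rw [h0, zero_smul]
          exact Submodule.zero_mem _
    · -- case 2
      refine spanQ_mono ?_ (cyc_step hCYC hMK hIND g f hf
        (AlgEquiv.restrictNormalHom N₁ : (N ≃ₐ[K] N) →* (N₁ ≃ₐ[K] N₁)).ker ?_)
      · rintro B ν ⟨hB, hν⟩
        refine Or.inl ⟨UALGC.cyc_of_le hB, fun c hc hcC => hC ⟨c, hB hc, hcC⟩,
          fun W' h' hF => ?_, fun W' h' hT' hd' => ?_⟩
        · exact hν h' (hcase' W' h' (hB h'.2) (Or.inl hF))
        · exact hν h' (hcase' W' h' (hB h'.2) (Or.inr ⟨hT', hd'⟩))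
      · intro x hx a ha hk
        show f₁ (AlgEquiv.restrictNormalHom N₁ (x ^ a)) = f₁ (AlgEquiv.restrictNormalHom N₁ x)
        have h1 : (AlgEquiv.restrictNormalHom N₁ (x ^ a * x⁻¹) : N₁ ≃ₐ[K] N₁) = 1 := hk
        rw [map_mul, map_inv, mul_inv_eq_one] at h1
        rw [h1]

end main

end UALGK

end StarkC
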